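import Pool.Agent.Y662.FP.Meas

/-! Absolutely continuous spectrum on the free product. -/

set_option autoImplicit false
set_option linter.unusedSectionVars false
set_option maxHeartbeats 400000

open scoped BigOperators InnerProductSpace Topology ENNReal
open MeasureTheory Filter

namespace Pool.Agent.Y662.FP

open Pool.Agent.TH369.AN (Rz rz_eq rz_uniq rz_norm)
open Pool.Agent.TH369.MU (SpM ep zk qk Fk qk_sq poisson_ae)
open Pool.Agent.TH369.MU.PO2 (ep_pos ep_tendsto)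
open Pool.Agent.TH794.QD (CH CH_nonneg)
open Pool.Agent.TH794.LL2 (Po Po_int Po_im)
open Pool.Agent.Y662.TR (LL Vt oo GG dv ev ev_apply inner_dv hu hu_nonneg hu_meas hu_im hu_comm gg
  gg_bd gg_hol PP RV Dat rz_two GG_im_pos qk_po zk_eq all_vec fatou_om norm_dv)

variable {d : ℕ}

theorem zk_im (E : ℝ) (k : ℕ) : (zk E k).im = ep k := by
  rw [zk_eq]
  simp

theorem zk_re (E : ℝ) (k : ℕ) : (zk E k).re = E := by
  rw [zk_eq]
  simp

theorem zk_im_pos (E : ℝ) (k : ℕ) : 0 < (zk E k).im := by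
  rw [zk_im]
  exact ep_pos k

theorem zk_sub (E E' : ℝ) (k : ℕ) : ‖zk E k - zk E' k‖ = |E - E'| := by
  have : zk E k - zk E' k = ((E - E' : ℝ) : ℂ) := by
    rw [zk_eq, zk_eq]
    push_cast
    ring
  rw [this, Complex.norm_real, Real.norm_eq_abs]

theorem gg_cont (hd : 3 ≤ d) (B : ℝ) (k : ℕ) : Continuous fun E : ℝ => gg d B (zk E k) := by
  rw [continuous_iff_continuousAt]
  intro E0
  unfold ContinuousAt
  rw [tendsto_iff_norm_sub_tendsto_zero]
  have h1 : Tendsto (fun E : ℝ => CH d * |E - E0| ^ (1 / 8 : ℝ)) (𝓝 E0) (𝓝 0) := by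
    have h2 : Continuous fun E : ℝ => CH d * |E - E0| ^ (1 / 8 : ℝ) := by
      have h3 : Continuous fun E : ℝ => |E - E0| := by fun_prop
      exact (h3.rpow_const fun x => Or.inr (by norm_num)).const_mul _
    have h4 := h2.tendsto E0
    simpa using h4
  refine squeeze_zero (fun E => norm_nonneg _) (fun E => ?_) h1
  rw [← zk_sub E E0 k]
  exact gg_hol hd B _ _ (zk_im_pos E k) (zk_im_pos E0 k)

theorem GT_contE (B : ℝ) (V : Gp d → ℝ) (t : ℝ) (k : ℕ) (g : Gp d) :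
    Continuous fun E : ℝ => GT B V t (zk E k) g := by
  rw [continuous_iff_continuousAt]
  intro E0
  unfold ContinuousAt
  rw [tendsto_iff_norm_sub_tendsto_zero]
  have h1 : Tendsto (fun E : ℝ => |E - E0| * ‖Rz (TG B V t) (zk E0 k) (dv g)‖ / ep k) (𝓝 E0)
      (𝓝 0) := by
    have h2 : Continuous fun E : ℝ => |E - E0| * ‖Rz (TG B V t) (zk E0 k) (dv g)‖ / ep k := by
      fun_prop
    have h4 := h2.tendsto E0
    simpa using h4
  refine squeeze_zero (fun E => norm_nonneg _) (fun E => ?_) h1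
  unfold GT
  have h2 := rz_two (TG B V t) (TG_sa _ _ _) (zk E k) (zk E0 k) (zk_im_pos E k) (zk_im_pos E0 k)
    (dv g)
  rw [zk_sub, zk_im] at h2
  exact (Pool.Agent.Y662.TR.ll_coord
    (Rz (TG B V t) (zk E k) (dv g) - Rz (TG B V t) (zk E0 k) (dv g)) g).trans h2

/-- the quantity -/
noncomputable def qh (B : ℝ) (V : Gp d → ℝ) (t : ℝ) (k : ℕ) (g : Gp d) (E : ℝ) : ENNReal :=
  ENNReal.ofReal (hu (GT B V t (zk E k) g) (gg d B (zk E k)) ^ 2)

theorem joint (hd : 3 ≤ d) (B lam t : ℝ) (k : ℕ) (g : Gp d) :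
    Measurable (Function.uncurry fun (E : ℝ) (ω : Gp d → ℝ) =>
      qh B (fun x => lam * ω x) t k g E) := by
  have h1 : Measurable (Function.uncurry fun (E : ℝ) (ω : Gp d → ℝ) =>
      GT B (fun x => lam * ω x) t (zk E k) g) :=
    measurable_uncurry_of_continuous_of_measurable (fun ω => GT_contE B _ t k g)
      (fun E => GT_meas B lam t (zk E k) (zk_im_pos E k).ne' g)
  have h2 : Measurable fun p : ℝ × (Gp d → ℝ) => gg d B (zk p.1 k) :=
    (gg_cont hd B k).measurable.comp measurable_fst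
  have h3 : Measurable fun p : ℝ × (Gp d → ℝ) =>
      hu (GT B (fun x => lam * p.2 x) t (zk p.1 k) g) (gg d B (zk p.1 k)) := by
    unfold hu
    have h4 : Measurable fun p : ℝ × (Gp d → ℝ) =>
      GT B (fun x => lam * p.2 x) t (zk p.1 k) g := h1
    exact ((h4.sub h2).norm.pow_const 2).div ((Complex.measurable_im.comp h4).mul
      (Complex.measurable_im.comp h2))
  exact (h3.pow_const 2).ennreal_ofReal

theorem joint_w (hd : 3 ≤ d) (B lam t : ℝ) (k : ℕ) (g : Gp d) (E : ℝ) :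
    Measurable fun ω : Gp d → ℝ => qh B (fun x => lam * ω x) t k g E :=
  Measurable.of_uncurry_left (joint hd B lam t k g)

theorem joint_E (hd : 3 ≤ d) (B lam t : ℝ) (k : ℕ) (g : Gp d) (ω : Gp d → ℝ) :
    Measurable fun E : ℝ => qh B (fun x => lam * ω x) t k g E :=
  Measurable.of_uncurry_right (joint hd B lam t k g)

theorem joint_sum (hd : 3 ≤ d) (B lam t : ℝ) (k : ℕ) (s : Finset (Gp d)) :
    Measurable (Function.uncurry fun (E : ℝ) (ω : Gp d → ℝ) =>
      ∑ v ∈ s, qh B (fun x => lam * ω x) t k v E) :=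
  Finset.measurable_fun_sum s fun v _ => joint hd B lam t k v

theorem lint_sum (hd : 3 ≤ d) (μ : Measure ℝ) (B lam t : ℝ) (k : ℕ) (s : Finset (Gp d)) (E : ℝ)
    (h : ∀ v, ∫⁻ ω, qh B (fun g => lam * ω g) t k v E ∂(PG d μ) ≤ 1) :
    ∫⁻ ω, ∑ v ∈ s, qh B (fun g => lam * ω g) t k v E ∂(PG d μ) ≤ s.card := by
  have h1 := lintegral_finset_sum (μ := PG d μ) s
    (f := fun v ω => qh B (fun g => lam * ω g) t k v E) (fun v _ => joint_w hd B lam t k v E)
  refine (le_of_eq h1).trans ?_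
  refine (Finset.sum_le_sum fun v _ => h v).trans ?_
  simp

theorem GT_im (B : ℝ) (V : Gp d → ℝ) (t E : ℝ) (k : ℕ) (g : Gp d) :
    qk (TG B V t) E k (dv g) ^ 2 = (GT B V t (zk E k) g).im := by
  rw [qk_sq _ (TG_sa _ _ _)]
  unfold Fk GT
  rw [inner_dv]

theorem GT_im_pos (B : ℝ) (V : Gp d → ℝ) (t E : ℝ) (k : ℕ) (g : Gp d) :
    0 < (GT B V t (zk E k) g).im := by
  have h1 := GT_im B V t E k g
  have h2 : 0 < qk (TG B V t) E k (dv g) := by
    unfold qk
    refine mul_pos (Real.sqrt_pos.2 (ep_pos k)) (norm_pos_iff.2 fun h0 => ?_)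
    have h3 := rz_eq (TG B V t) (TG_sa _ _ _) (zk E k) (zk_im_pos E k).ne' (dv g)
    rw [h0, map_zero, smul_zero, sub_zero] at h3
    have h4 := norm_dv g
    rw [← h3, norm_zero] at h4
    exact zero_ne_one h4
  rw [← h1]
  positivity

/-- upper bound -/
theorem det_ac (hd : 3 ≤ d) (B : ℝ) (V : Gp d → ℝ) (t α β : ℝ)
    (h : ∀ s : Finset (Gp d), liminf (fun k => ∫⁻ E in Set.Ioo α β, ∑ v ∈ s, qh B V t k v E)
      atTop < ∞) (φ : LL (Gp d)) (m : Measure ℝ) (hm : SpM (TG B V t) φ m) (A : Set ℝ)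
    (hA : A ⊆ Set.Ioo α β) (h0 : volume A = 0) : m A = 0 := by
  refine all_vec (TG B V t) (TG_sa _ _ _) α β (fun s => ?_) φ m hm A hA h0
  obtain ⟨C, hC1, hC2⟩ := exists_between (h s)
  have hfreq := frequently_lt_of_liminf_lt (by isBoundedDefault) hC1
  obtain ⟨K, hK⟩ : ∃ K, K = CH d + 1 := ⟨_, rfl⟩
  have hCH := CH_nonneg d
  have hK0 : 0 < K := by rw [hK]; linarith
  refine ⟨ENNReal.ofReal (2 * K ^ 2) * C + ENNReal.ofReal (8 * K ^ 2) * volume (Set.Ioo α β),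
    ENNReal.add_ne_top.2 ⟨ENNReal.mul_ne_top ENNReal.ofReal_ne_top hC2.ne,
      ENNReal.mul_ne_top ENNReal.ofReal_ne_top (by simp)⟩, hfreq.mono fun k hk v hv => ?_⟩
  have hpt : ∀ E, ENNReal.ofReal (qk (TG B V t) E k (dv v) ^ 2) ^ 2 ≤
      ENNReal.ofReal (2 * K ^ 2) * qh B V t k v E + ENNReal.ofReal (8 * K ^ 2) := by
    intro E
    have g1 := GT_im_pos B V t E k v
    have g2 : 0 < (gg d B (zk E k)).im := GG_im_pos B _ _ _ (zk_im_pos E k) _
    have g3 := hu_im g1 g2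
    have g4 := hu_nonneg g1 g2
    have g5 : (gg d B (zk E k)).im ≤ K := by
      rw [hK]
      exact (Complex.im_le_norm _).trans (gg_bd hd B _ (zk_im_pos E k))
    rw [GT_im, ← ENNReal.ofReal_pow g1.le]
    unfold qh
    rw [← ENNReal.ofReal_mul (by positivity), ← ENNReal.ofReal_add (by positivity) (by positivity)]
    apply ENNReal.ofReal_le_ofReal
    obtain ⟨a, ha⟩ : ∃ a, a = hu (GT B V t (zk E k) v) (gg d B (zk E k)) := ⟨_, rfl⟩
    rw [← ha] at g3 g4 ⊢
    have g6 : (GT B V t (zk E k) v).im ≤ (a + 2) * K := by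
      refine g3.trans ?_
      gcongr
    calc (GT B V t (zk E k) v).im ^ 2 ≤ ((a + 2) * K) ^ 2 := by gcongr
      _ ≤ 2 * K ^ 2 * a ^ 2 + 8 * K ^ 2 := by nlinarith [sq_nonneg ((a - 2) * K)]
  calc ∫⁻ E in Set.Ioo α β, ENNReal.ofReal (qk (TG B V t) E k (dv v) ^ 2) ^ 2 ≤
      ∫⁻ E in Set.Ioo α β, (ENNReal.ofReal (2 * K ^ 2) * qh B V t k v E +
        ENNReal.ofReal (8 * K ^ 2)) := lintegral_mono hpt
    _ = ENNReal.ofReal (2 * K ^ 2) * (∫⁻ E in Set.Ioo α β, qh B V t k v E) +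
        ENNReal.ofReal (8 * K ^ 2) * volume (Set.Ioo α β) := by
        rw [lintegral_add_right _ measurable_const, lintegral_const_mul' _ _ ENNReal.ofReal_ne_top,
          lintegral_const, Measure.restrict_apply_univ]
    _ ≤ _ := by
        gcongr
        refine le_trans (lintegral_mono fun E => ?_) hk.le
        exact Finset.single_le_sum (f := fun v => qh B V t k v E) (fun _ _ => zero_le) hv

/-- lower bound -/
theorem det_pos (B : ℝ) (V : Gp d → ℝ) (t α β m0 : ℝ) (hm0 : 0 < m0) (k0 : ℕ)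
    (hlow : ∀ E ∈ Set.Ioo α β, ∀ k, k0 ≤ k → m0 ≤ (gg d B (zk E k)).im) (v : Gp d)
    (hmeas : ∀ k, Measurable (qh B V t k v))
    (h : liminf (fun k => ∫⁻ E in Set.Ioo α β, qh B V t k v E) atTop < ∞)
    (m : Measure ℝ) (hm : SpM (TG B V t) (dv v) m) (A : Set ℝ) (hA : A ⊆ Set.Ioo α β)
    (hAm : MeasurableSet A) (h0 : m A = 0) : volume A = 0 := by
  haveI := hm.1
  have h1 : ∫⁻ E in Set.Ioo α β, liminf (fun k => qh B V t k v E) atTop < ∞ :=
    (lintegral_liminf_le hmeas).trans_lt h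
  have h2 : ∀ᵐ E ∂(volume.restrict (Set.Ioo α β)), liminf (fun k => qh B V t k v E) atTop < ∞ :=
    ae_lt_top (Measurable.liminf hmeas) h1.ne
  have h3 : ∀ᵐ E ∂(volume.restrict (Set.Ioo α β)), m.rnDeriv volume E ≠ 0 := by
    filter_upwards [h2, ae_restrict_of_ae (poisson_ae m), ae_restrict_mem measurableSet_Ioo]
      with E e1 e2 e3 hzero
    obtain ⟨C, hC1, hC2⟩ := exists_between e1
    have hfreq := frequently_lt_of_liminf_lt (by isBoundedDefault) hC1
    rw [hzero, ENNReal.toReal_zero, mul_zero] at e2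
    have hδ : 0 < m0 / (Real.sqrt C.toReal + 2) := by positivity
    have e4 := e2.eventually_lt_const hδ
    obtain ⟨k, ⟨k1, k2⟩, k3⟩ := (hfreq.and_eventually (e4.and (eventually_ge_atTop k0))).exists.imp
      fun k hk => (⟨⟨hk.1, hk.2.1⟩, hk.2.2⟩ : (_ ∧ _) ∧ _)
    have g1 := GT_im_pos B V t E k v
    have g2 : 0 < (gg d B (zk E k)).im := GG_im_pos B _ _ _ (zk_im_pos E k) _
    have g3 := hu_im g2 g1
    have g4 := hu_nonneg g1 g2
    rw [hu_comm] at g3
    have g5 := qk_po (TG B V t) (TG_sa _ _ _) (dv v) m hm E k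
    rw [GT_im] at g5
    unfold qh at k1
    obtain ⟨a, ha⟩ : ∃ a, a = hu (GT B V t (zk E k) v) (gg d B (zk E k)) := ⟨_, rfl⟩
    rw [← ha] at g3 g4 k1
    have g6 : a ^ 2 < C.toReal := by
      rw [← ENNReal.ofReal_lt_ofReal_iff_of_nonneg (sq_nonneg a), ENNReal.ofReal_toReal hC2.ne]
      exact k1
    have g7 : a ≤ Real.sqrt C.toReal := Real.le_sqrt_of_sq_le g6.le
    have g8 := hlow E e3 k k3
    have g9 : (GT B V t (zk E k) v).im < m0 / (Real.sqrt C.toReal + 2) := by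
      rw [g5]
      exact k2
    rw [lt_div_iff₀ (by positivity)] at g9
    nlinarith
  have h4 : ∫⁻ E in A, m.rnDeriv volume E = 0 :=
    le_antisymm ((Measure.setLIntegral_rnDeriv_le A).trans h0.le) zero_le
  have h5 : ∀ᵐ E ∂(volume.restrict A), m.rnDeriv volume E = 0 := by
    have := (lintegral_eq_zero_iff (Measure.measurable_rnDeriv m volume)).1 h4
    filter_upwards [this] with E hE
    exact hE
  have h6 : ∀ᵐ E ∂(volume.restrict A), m.rnDeriv volume E ≠ 0 :=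
    ae_restrict_of_ae_restrict_of_subset hA h3
  have h7 : ∀ᵐ E ∂(volume.restrict A), False := by
    filter_upwards [h5, h6] with E e1 e2
    exact e2 e1
  rw [Filter.eventually_false_iff_eq_bot, ae_eq_bot, Measure.restrict_eq_zero] at h7
  exact h7

/-- **absolutely continuous spectrum** -/
theorem main_G (hd : 3 ≤ d) (κ : ℝ) (hκ : 0 < κ) (hκ1 : κ ≤ 1) (b : ℝ) (hb : 0 < b) :
    ∃ t0 lam0 : ℝ, 0 < t0 ∧ t0 ≤ 1 ∧ 0 < lam0 ∧
      ∀ (μ : Measure ℝ) [IsProbabilityMeasure μ], (∀ᵐ s ∂μ, |s| ≤ b) →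
      ∀ lam : ℝ, 0 < lam → lam ≤ lam0 → lam ≤ 1 →
        ∀ t : ℝ, lam ^ (26 / 25 : ℝ) ≤ t → t ≤ t0 →
        ∀ᵐ ω ∂(PG d μ),
          (∀ (φ : LL (Gp d)) (m : Measure ℝ), SpM (TG (b + 1) (fun g => lam * ω g) t) φ m →
            ∀ A : Set ℝ, A ⊆ Set.Icc κ (4 * d - κ) → volume A = 0 → m A = 0) ∧
          (∀ (g : Gp d) (m : Measure ℝ), SpM (TG (b + 1) (fun g => lam * ω g) t) (dv g) m →
            ∀ A : Set ℝ, A ⊆ Set.Icc κ (4 * d - κ) → MeasurableSet A → m A = 0 →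
              volume A = 0) := by
  obtain ⟨m0, t0, lam0, h1, h2, h3, h4, h5, h6, h7⟩ :=
    mom_G hd (κ / 2) (by linarith) (by linarith) b hb
  refine ⟨t0, lam0, h2, h3, h4, ?_⟩
  intro μ hμ hμb lam hlam hlam0 hlam1 t ht ht0
  have htp : 0 < t := (Real.rpow_pos_of_pos hlam _).trans_le ht
  obtain ⟨k0, hk0⟩ : ∃ k0, ∀ k, k0 ≤ k → ep k ≤ t ^ 2 := by
    have h8 := (tendsto_nhds_of_tendsto_nhdsWithin ep_tendsto).eventually_le_const (show (0 : ℝ) < t ^ 2 by positivity)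
    exact Filter.eventually_atTop.1 h8
  obtain ⟨I, hI⟩ : ∃ I, I = Set.Ioo (κ / 2) (4 * d - κ / 2) := ⟨_, rfl⟩
  have hsub : Set.Icc κ (4 * d - κ) ⊆ Set.Ioo (κ / 2) (4 * d - κ / 2) := by
    intro x hx
    exact ⟨by linarith [hx.1], by linarith [hx.2]⟩
  have hfin : ∀ s : Finset (Gp d), ∀ᵐ ω ∂(PG d μ),
      liminf (fun k => ∫⁻ E in Set.Ioo (κ / 2) (4 * d - κ / 2),
        ∑ v ∈ s, qh (b + 1) (fun g => lam * ω g) t k v E) atTop < ∞ := by
    intro s
    refine fatou_om (PG d μ)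
      (fun k E ω => ∑ v ∈ s, qh (b + 1) (fun g => lam * ω g) t k v E)
      (fun k => joint_sum hd (b + 1) lam t k s)
      (Set.Ioo (κ / 2) (4 * d - κ / 2)) measurableSet_Ioo (by simp) (s.card : ENNReal)
      (ENNReal.natCast_ne_top _) k0 (fun k hk E hE => ?_)
    refine lint_sum hd μ (b + 1) lam t k s E fun v => ?_
    refine h7 μ hμb lam hlam hlam0 t ht ht0 (zk E k) (zk_im_pos E k) ?_ ?_ ?_ v
    · rw [zk_im]
      exact hk0 k hk
    · rw [zk_re]
      exact hE.1.le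
    · rw [zk_re]
      exact hE.2.le
  have hall := ae_all_iff.2 hfin
  filter_upwards [hall] with ω hω
  refine ⟨fun φ m hm A hA hv => ?_, fun g m hm A hA hAm hv => ?_⟩
  · exact det_ac hd (b + 1) _ t _ _ hω φ m hm A (hA.trans hsub) hv
  · have hs := hω {g}
    simp only [Finset.sum_singleton] at hs
    refine det_pos (b + 1) _ t _ _ m0 h1 k0 (fun E hE k hk => ?_) g (fun k => ?_) hs m hm A
      (hA.trans hsub) hAm hv
    · refine h6 (b + 1) (zk E k) (zk_im_pos E k) ?_ ?_ ?_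
      · rw [zk_im]
        refine (hk0 k hk).trans ?_
        have : t ≤ 1 := ht0.trans h3
        nlinarith
      · rw [zk_re]
        exact hE.1.le
      · rw [zk_re]
        exact hE.2.le
    · exact joint_E hd (b + 1) lam t k g ω

end Pool.Agent.Y662.FP
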