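import Pool.Agent.Y662.FP.Ref

/-! A bound for arbitrary sheets without the coupling of the origin. -/

set_option autoImplicit false
set_option linter.unusedSectionVars false

open scoped BigOperators Topology ENNReal
open MeasureTheory Filter ProbabilityTheory

namespace Pool.Agent.Y662.FP

open Pool.Agent.W788.LD.Spec (S)
open Pool.Agent.TH794.QD (CH CH_nonneg)
open Pool.Agent.Y662.TR (hu hu_nonneg Vt oo gg GG GG_le GG_im_lower GG_im_pos Gc cG cG_pos Ps ps_eq
  coord_sq clp clp_zero clp_eq clp_abs root_eq Dat t2_im energy gg_bd norm_z_pos HB hb_bad Vr)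

variable {d : ℕ}

/-- the constant -/
noncomputable def C1 (d : ℕ) (B : ℝ) : ℝ := 8 * d + |B| + CH d + 2

/-- the bound of the functional on arbitrary sheets -/
noncomputable def HB0 (d : ℕ) (B m t : ℝ) : ℝ :=
  (C1 d B ^ 2 + CH d + 1) ^ 2 * C1 d B ^ 4 / (m * (t ^ 2 * m) ^ 3)

theorem hb0 (hd : 3 ≤ d) {B lam t : ℝ} {z : ℂ} (h : Dat d B lam t z) (m : ℝ) (hm0 : 0 < m)
    (hm1 : m ≤ 1) (ht1 : t ≤ 1) (hz1 : z.im ≤ 1) (hz2 : 0 ≤ z.re) (hz3 : z.re ≤ 4 * d)
    (hm : m ≤ (gg d B z).im) (v : (Fin d → ℤ) → ℝ) :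
    hu (Pt B lam t z v 0) (gg d B z) ≤ HB0 d B m t := by
  obtain ⟨g, hg⟩ : ∃ g, g = gg d B z := ⟨_, rfl⟩
  obtain ⟨p, hp⟩ : ∃ p, p = Pt B lam t z v := ⟨_, rfl⟩
  have ht := h.t0
  have hz := h.z0
  have hCH := CH_nonneg d
  have hgb : ‖g‖ ≤ CH d + 1 := by rw [hg]; exact gg_bd hd B z hz
  have ht2 : t ^ 2 ≤ 1 := pow_le_one₀ ht.le ht1
  have hps : Summable fun x => ‖p x‖ ^ 2 := by rw [hp]; exact pt_sq v
  have heq : ∀ x, -S p x + (((2 * d + clp B (lam * v x) : ℝ) : ℂ) - z -
      ((T0 d t x : ℝ) : ℂ) * g) * p x = if x = 0 then 1 else 0 := by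
    intro x
    rw [hp, hg]
    exact pt_eq h v x
  rw [← hg] at hm ⊢
  rw [← hp]
  have hg0 : 0 < g.im := hm0.trans_le hm
  have htm : 0 < t ^ 2 * m := by positivity
  have hzn : ‖z‖ ≤ 4 * d + 1 := by
    refine (Complex.norm_le_abs_re_add_abs_im z).trans ?_
    rw [abs_of_nonneg hz2, abs_of_pos hz]
    linarith
  obtain ⟨c, hc⟩ : ∃ c, c = C1 d B := ⟨_, rfl⟩
  have hd0 : (0 : ℝ) ≤ d := by positivity
  have hd3 : (3 : ℝ) ≤ d := by exact_mod_cast hd
  have hc2 : 2 ≤ c := by
    rw [hc]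
    unfold C1
    have := abs_nonneg B
    linarith
  -- the energy identity
  have hen := energy (fun x => 2 * d + clp B (lam * v x)) z
    (fun x => ((T0 d t x : ℝ) : ℂ) * g) (t ^ 2 * ‖g‖) (fun x => by
      rw [norm_mul, Complex.norm_real, Real.norm_of_nonneg (T0_nonneg t x)]
      have := T0_le t x
      gcongr) p (fun x => if x = 0 then 1 else 0) hps (Pool.Agent.Y662.TR.dl_sq 0) heq
  simp only [Complex.im_ofReal_mul] at hen
  rw [Pool.Agent.Y662.TR.tsum_dl (fun x => (starRingEnd ℂ) (p x)) 0, Complex.conj_im,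
    neg_neg] at hen
  have hs : Summable fun x => (z.im + T0 d t x * g.im) * ‖p x‖ ^ 2 := by
    refine Summable.of_nonneg_of_le (fun x => ?_) (fun x => ?_)
      (hps.mul_left (z.im + t ^ 2 * g.im))
    · have := T0_nonneg t x
      positivity
    · have := T0_le t x
      have := T0_nonneg t x
      gcongr
  have hpos : 0 ≤ (p 0).im := by
    rw [← hen]
    refine tsum_nonneg fun x => ?_
    have := T0_nonneg t x
    positivity
  obtain ⟨r, hr⟩ : ∃ r, r = Real.sqrt ((p 0).im / (t ^ 2 * m)) := ⟨_, rfl⟩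
  have hr0 : 0 ≤ r := by rw [hr]; exact Real.sqrt_nonneg _
  have hr2 : r ^ 2 = (p 0).im / (t ^ 2 * m) := by
    rw [hr, Real.sq_sqrt (by positivity)]
  have hxr : ∀ x, x ≠ 0 → ‖p x‖ ≤ r := by
    intro x hx
    have h1 : (z.im + T0 d t x * g.im) * ‖p x‖ ^ 2 ≤ (p 0).im := by
      rw [← hen]
      refine hs.le_tsum x fun y _ => ?_
      have := T0_nonneg t y
      positivity
    rw [T0_ne t hx] at h1
    have h2 : t ^ 2 * m * ‖p x‖ ^ 2 ≤ (p 0).im := by
      refine le_trans ?_ h1
      gcongr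
      have : t ^ 2 * m ≤ t ^ 2 * g.im := by gcongr
      linarith
    have h3 : ‖p x‖ ^ 2 ≤ r ^ 2 := by
      rw [hr2, le_div_iff₀ htm]
      linarith
    exact (pow_le_pow_iff_left₀ (norm_nonneg _) hr0 two_ne_zero).1 h3
  have hW : ∀ x, ‖((2 * d + clp B (lam * v x) : ℝ) : ℂ) - z‖ ≤ 6 * d + |B| + 1 := by
    intro x
    refine (norm_sub_le _ _).trans ?_
    rw [Complex.norm_real, Real.norm_eq_abs]
    have h1 := abs_add_le (2 * (d : ℝ)) (clp B (lam * v x))
    have h2 := clp_abs B (lam * v x)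
    rw [abs_of_nonneg (by positivity : (0 : ℝ) ≤ 2 * d)] at h1
    linarith
  -- the value at the origin
  have hp0 : ‖p 0‖ ≤ c * r := by
    obtain ⟨i0, -⟩ : ∃ i0 : Fin d, True := ⟨⟨0, by omega⟩, trivial⟩
    obtain ⟨e1, he1⟩ : ∃ e1 : Fin d → ℤ, e1 = Pi.single i0 1 := ⟨_, rfl⟩
    have he1n : e1 ≠ 0 := by
      intro h0
      have := congrFun h0 i0
      rw [he1] at this
      simp at this
    have hsum : ‖S p e1 - p 0‖ ≤ 2 * d * r := by
      unfold S
      rw [← Finset.add_sum_erase _ _ (Finset.mem_univ i0)]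
      have h1 : e1 - Pi.single i0 1 = 0 := by rw [he1]; simp
      rw [h1]
      have h2 : p (e1 + Pi.single i0 1) + p 0 + ∑ i ∈ Finset.univ.erase i0,
          (p (e1 + Pi.single i 1) + p (e1 - Pi.single i 1)) - p 0 =
          p (e1 + Pi.single i0 1) + ∑ i ∈ Finset.univ.erase i0,
          (p (e1 + Pi.single i 1) + p (e1 - Pi.single i 1)) := by ring
      rw [h2]
      have h3 : ‖p (e1 + Pi.single i0 1)‖ ≤ r := by
        apply hxr
        intro h0
        have := congrFun h0 i0
        rw [he1] at this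
        simp at this
      have h4 : ‖∑ i ∈ Finset.univ.erase i0,
          (p (e1 + Pi.single i 1) + p (e1 - Pi.single i 1))‖ ≤
          ∑ i ∈ Finset.univ.erase i0, 2 * r := by
        refine (norm_sum_le _ _).trans (Finset.sum_le_sum fun i hi => ?_)
        have hne : i ≠ i0 := Finset.ne_of_mem_erase hi
        refine (norm_add_le _ _).trans ?_
        have a1 : ‖p (e1 + Pi.single i 1)‖ ≤ r := by
          apply hxr
          intro h0
          have := congrFun h0 i0
          rw [he1] at this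
          simp [Pi.single_eq_of_ne hne.symm] at this
        have a2 : ‖p (e1 - Pi.single i 1)‖ ≤ r := by
          apply hxr
          intro h0
          have := congrFun h0 i0
          rw [he1] at this
          simp [Pi.single_eq_of_ne hne.symm] at this
        linarith
      rw [Finset.sum_const, Finset.card_erase_of_mem (Finset.mem_univ _), Finset.card_univ,
        Fintype.card_fin, nsmul_eq_mul] at h4
      have h5 : ((d - 1 : ℕ) : ℝ) = d - 1 := by
        rw [Nat.cast_sub (by omega)]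
        simp
      rw [h5] at h4
      refine (norm_add_le _ _).trans ?_
      nlinarith
    have h1 := heq e1
    rw [if_neg he1n, T0_ne t he1n] at h1
    have h2 : p 0 = (((2 * d + clp B (lam * v e1) : ℝ) : ℂ) - z - ((t ^ 2 : ℝ) : ℂ) * g) * p e1 -
        (S p e1 - p 0) := by linear_combination -h1
    rw [h2]
    refine (norm_sub_le _ _).trans ?_
    rw [norm_mul]
    have h3 : ‖((2 * d + clp B (lam * v e1) : ℝ) : ℂ) - z - ((t ^ 2 : ℝ) : ℂ) * g‖ ≤
        6 * d + |B| + 1 + (CH d + 1) := by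
      refine (norm_sub_le _ _).trans (add_le_add (hW e1) ?_)
      rw [norm_mul, Complex.norm_real, Real.norm_of_nonneg (by positivity)]
      calc t ^ 2 * ‖g‖ ≤ 1 * (CH d + 1) := by gcongr
        _ = _ := one_mul _
    calc _ ≤ (6 * d + |B| + 1 + (CH d + 1)) * r + 2 * d * r := by
          have := hxr e1 he1n
          gcongr
      _ = c * r := by
          rw [hc]
          unfold C1
          ring
  have him : (p 0).im = t ^ 2 * m * r ^ 2 := by
    rw [hr2]
    field_simp
  have hr1 : r ≤ c / (t ^ 2 * m) := by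
    have h1 : t ^ 2 * m * r ^ 2 ≤ c * r := by
      rw [← him]
      exact (Complex.im_le_norm _).trans hp0
    rw [le_div_iff₀ htm]
    rcases hr0.eq_or_lt with h0 | h0
    · rw [← h0]
      linarith
    · have h2 : (r * (t ^ 2 * m)) * r ≤ c * r := by
        calc (r * (t ^ 2 * m)) * r = t ^ 2 * m * r ^ 2 := by ring
          _ ≤ _ := h1
      exact le_of_mul_le_mul_right h2 h0
  have hp0b : ‖p 0‖ ≤ c ^ 2 / (t ^ 2 * m) := by
    refine hp0.trans ?_
    calc c * r ≤ c * (c / (t ^ 2 * m)) := by gcongr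
      _ = _ := by ring
  have hrl : 1 ≤ c ^ 2 * r := by
    have h1 := heq 0
    rw [if_pos rfl, T0_zero] at h1
    have h2 : ‖S p 0‖ ≤ 2 * d * r := by
      unfold S
      refine (norm_sum_le _ _).trans ?_
      have h3 : ∀ i ∈ (Finset.univ : Finset (Fin d)),
          ‖p (0 + Pi.single i 1) + p (0 - Pi.single i 1)‖ ≤ 2 * r := by
        intro i _
        refine (norm_add_le _ _).trans ?_
        have a1 : ‖p (0 + Pi.single i 1)‖ ≤ r := by
          apply hxr
          intro h0
          have := congrFun h0 i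
          simp at this
        have a2 : ‖p (0 - Pi.single i 1)‖ ≤ r := by
          apply hxr
          intro h0
          have := congrFun h0 i
          simp at this
        linarith
      refine (Finset.sum_le_sum h3).trans (le_of_eq ?_)
      rw [Finset.sum_const, Finset.card_univ, Fintype.card_fin, nsmul_eq_mul]
      ring
    have h3 : (1 : ℝ) ≤ 2 * d * r + (6 * d + |B| + 1) * (c * r) := by
      have h4 : ‖(1 : ℂ)‖ ≤ ‖S p 0‖ + ‖(((2 * d + clp B (lam * v 0) : ℝ) : ℂ) - z) * p 0‖ := by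
        have h5 : (1 : ℂ) = -S p 0 + (((2 * d + clp B (lam * v 0) : ℝ) : ℂ) - z) * p 0 := by
          rw [← h1]
          simp
        conv_lhs => rw [h5]
        refine (norm_add_le _ _).trans ?_
        rw [norm_neg]
      rw [norm_one, norm_mul] at h4
      have h5 : ‖((2 * d + clp B (lam * v 0) : ℝ) : ℂ) - z‖ * ‖p 0‖ ≤
          (6 * d + |B| + 1) * (c * r) := by
        have := hW 0
        have := abs_nonneg B
        gcongr
      linarith
    have h6 : 2 * d * r + (6 * d + |B| + 1) * (c * r) ≤ c ^ 2 * r := by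
      have h7 : 8 * d + |B| + 1 ≤ c := by
        rw [hc]
        unfold C1
        linarith
      have h8 : 2 * d * r ≤ 2 * d * (c * r) := by
        have : 0 ≤ 2 * (d : ℝ) * r := by positivity
        nlinarith
      calc 2 * d * r + (6 * d + |B| + 1) * (c * r) ≤ (8 * d + |B| + 1) * (c * r) := by linarith
        _ ≤ c * (c * r) := by gcongr
        _ = _ := by ring
    linarith
  have himl : t ^ 2 * m / c ^ 4 ≤ (p 0).im := by
    rw [him, div_le_iff₀ (by positivity)]
    have h1 : 1 ≤ (c ^ 2 * r) ^ 2 := one_le_pow₀ hrl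
    calc t ^ 2 * m = t ^ 2 * m * 1 := (mul_one _).symm
      _ ≤ t ^ 2 * m * (c ^ 2 * r) ^ 2 := by gcongr
      _ = _ := by ring
  have hnum : ‖p 0 - g‖ ≤ (c ^ 2 + CH d + 1) / (t ^ 2 * m) := by
    refine (norm_sub_le _ _).trans ?_
    have h1 : CH d + 1 ≤ (CH d + 1) / (t ^ 2 * m) := by
      rw [le_div_iff₀ htm]
      have : t ^ 2 * m ≤ 1 * 1 := by gcongr
      nlinarith
    have h2 : (c ^ 2 + CH d + 1) / (t ^ 2 * m) = c ^ 2 / (t ^ 2 * m) +
        (CH d + 1) / (t ^ 2 * m) := by ring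
    rw [h2]
    linarith
  unfold hu HB0
  rw [← hc]
  have hc0 : 0 < c := by linarith
  calc ‖p 0 - g‖ ^ 2 / ((p 0).im * g.im) ≤
        ((c ^ 2 + CH d + 1) / (t ^ 2 * m)) ^ 2 / (t ^ 2 * m / c ^ 4 * m) := by gcongr
    _ = _ := by
        field_simp

end Pool.Agent.Y662.FP
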