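import Pool.Agent.Y662.FP.Ind

/-! The good sheets for all couplings `λ^{26/25} ≤ t ≤ t₀`, and the uniform moment bound. -/

set_option autoImplicit false
set_option linter.unusedSectionVars false

open scoped BigOperators InnerProductSpace Topology
open MeasureTheory Filter

namespace Pool.Agent.Y662.FP

open Pool.Agent.TH794.QD (CH CH_nonneg)
open Pool.Agent.TH794.LL2 (Po Res KK_ge)
open Pool.Agent.W788.BK.Num (ev2)
open Pool.Agent.Y662.TR (hu Vt gg gg_low gg_bd Ps P1 PP law law_sheet ps_zero lemA gd_det Dat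
  t2_im HB hb_bad)

variable {d : ℕ}

/-- the dependence on `t` -/
theorem t_small (K m ε c1 C3 : ℝ) (hK : 0 ≤ K) (hm : 0 < m) (hm1 : m ≤ 1) (hε : 0 < ε)
    (hc1 : 0 < c1) (hC3 : 0 ≤ C3) (C4 : ℝ) (hC4 : 0 ≤ C4) :
    ∃ t0 : ℝ, 0 < t0 ∧ t0 ≤ 1 ∧ ∀ t : ℝ, 0 < t → t ≤ t0 →
      C3 * (t ^ 2) ^ (1 / 8 : ℝ) ≤ c1 ∧
      t ^ 2 * (4 * (K + 1) * Real.log (1 + 2 * (1 / (t ^ 2 * m / 4))) + 2) ^ 2 ≤ ε ∧
      t ^ 2 * C4 ≤ ε := by
  obtain ⟨Cq, hCq⟩ : ∃ Cq, Cq = 16 * (K + 1) * (9 / m) ^ (1 / 4 : ℝ) + 2 := ⟨_, rfl⟩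
  have hCq0 : 0 < Cq := by rw [hCq]; positivity
  obtain ⟨t0, ht0⟩ : ∃ t0, t0 = min (min 1 ((c1 / (C3 + 1)) ^ 4))
    (min (ε / Cq ^ 2) (ε / (C4 + 1))) := ⟨_, rfl⟩
  have a1 : t0 ≤ 1 := by rw [ht0]; exact (min_le_left _ _).trans (min_le_left _ _)
  have a2 : t0 ≤ (c1 / (C3 + 1)) ^ 4 := by
    rw [ht0]; exact (min_le_left _ _).trans (min_le_right _ _)
  have a3 : t0 ≤ ε / Cq ^ 2 := by rw [ht0]; exact (min_le_right _ _).trans (min_le_left _ _)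
  have a4 : t0 ≤ ε / (C4 + 1) := by rw [ht0]; exact (min_le_right _ _).trans (min_le_right _ _)
  refine ⟨t0, ?_, a1, fun t ht htt => ⟨?_, ?_, ?_⟩⟩
  · rw [ht0]
    refine lt_min (lt_min one_pos (by positivity)) (lt_min (by positivity) (by positivity))
  · have h1 : (t ^ 2) ^ (1 / 8 : ℝ) ≤ c1 / (C3 + 1) := by
      have h2 : (t ^ 2) ^ (1 / 8 : ℝ) = t ^ (1 / 4 : ℝ) := by
        rw [← Real.rpow_natCast, ← Real.rpow_mul ht.le]
        norm_num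
      rw [h2]
      have h3 : t ^ (1 / 4 : ℝ) ≤ ((c1 / (C3 + 1)) ^ 4) ^ (1 / 4 : ℝ) :=
        Real.rpow_le_rpow ht.le (htt.trans a2) (by norm_num)
      refine h3.trans (le_of_eq ?_)
      rw [← Real.rpow_natCast, ← Real.rpow_mul (by positivity)]
      norm_num
    calc C3 * (t ^ 2) ^ (1 / 8 : ℝ) ≤ (C3 + 1) * (c1 / (C3 + 1)) := by
          gcongr
          linarith
      _ = c1 := by field_simp
  · have ht1 : t ≤ 1 := htt.trans a1
    have ht2 : t ^ 2 ≤ 1 := pow_le_one₀ ht.le ht1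
    have htm : 0 < t ^ 2 * m := by positivity
    have htm1 : t ^ 2 * m ≤ 1 := by nlinarith
    have h1 : 1 + 2 * (1 / (t ^ 2 * m / 4)) ≤ 9 / (t ^ 2 * m) := by
      rw [le_div_iff₀ htm]
      have : (1 + 2 * (1 / (t ^ 2 * m / 4))) * (t ^ 2 * m) = t ^ 2 * m + 8 := by
        field_simp
        ring
      rw [this]
      linarith
    have h2 : Real.log (1 + 2 * (1 / (t ^ 2 * m / 4))) ≤
        4 * ((9 / m) ^ (1 / 4 : ℝ) * t ^ (-(1 / 2) : ℝ)) := by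
      have h3 := Real.log_le_rpow_div (x := 9 / (t ^ 2 * m)) (by positivity)
        (show (0 : ℝ) < 1 / 4 by norm_num)
      have h4 : Real.log (1 + 2 * (1 / (t ^ 2 * m / 4))) ≤ Real.log (9 / (t ^ 2 * m)) :=
        Real.log_le_log (by positivity) h1
      refine h4.trans (h3.trans (le_of_eq ?_))
      have h5 : 9 / (t ^ 2 * m) = (9 / m) * (t ^ 2)⁻¹ := by field_simp
      rw [h5, Real.mul_rpow (by positivity) (by positivity)]
      have h6 : ((t ^ 2)⁻¹) ^ (1 / 4 : ℝ) = t ^ (-(1 / 2) : ℝ) := by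
        rw [← Real.rpow_natCast, ← Real.rpow_neg ht.le, ← Real.rpow_mul ht.le]
        norm_num
      rw [h6]
      ring
    have hts : 1 ≤ t ^ (-(1 / 2) : ℝ) := Real.one_le_rpow_of_pos_of_le_one_of_nonpos ht ht1
      (by norm_num)
    have h0 : 0 ≤ Real.log (1 + 2 * (1 / (t ^ 2 * m / 4))) := by
      apply Real.log_nonneg
      have : 0 ≤ 2 * (1 / (t ^ 2 * m / 4)) := by positivity
      linarith
    have h3 : 4 * (K + 1) * Real.log (1 + 2 * (1 / (t ^ 2 * m / 4))) + 2 ≤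
        Cq * t ^ (-(1 / 2) : ℝ) := by
      calc 4 * (K + 1) * Real.log (1 + 2 * (1 / (t ^ 2 * m / 4))) + 2 ≤
            4 * (K + 1) * (4 * ((9 / m) ^ (1 / 4 : ℝ) * t ^ (-(1 / 2) : ℝ))) +
              2 * t ^ (-(1 / 2) : ℝ) := by
            gcongr
            linarith
        _ = _ := by rw [hCq]; ring
    calc t ^ 2 * (4 * (K + 1) * Real.log (1 + 2 * (1 / (t ^ 2 * m / 4))) + 2) ^ 2 ≤
          t ^ 2 * (Cq * t ^ (-(1 / 2) : ℝ)) ^ 2 := by gcongr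
      _ = Cq ^ 2 * t := by
          have h5 : (t ^ (-(1 / 2) : ℝ)) ^ 2 = t⁻¹ := by
            rw [← Real.rpow_natCast, ← Real.rpow_mul ht.le]
            norm_num
            exact Real.rpow_neg_one t
          rw [mul_pow, h5]
          field_simp
      _ ≤ Cq ^ 2 * (ε / Cq ^ 2) := by
          gcongr
          exact htt.trans a3
      _ = ε := by field_simp
  · have ht1 : t ≤ 1 := htt.trans a1
    calc t ^ 2 * C4 ≤ t * (C4 + 1) := by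
          have : t ^ 2 ≤ t := by nlinarith
          gcongr
          linarith
      _ ≤ ε / (C4 + 1) * (C4 + 1) := by
          gcongr
          exact htt.trans a4
      _ = ε := by field_simp

/-- **the good sheets** -/
theorem good (hd : 3 ≤ d) (κ : ℝ) (hκ : 0 < κ) (hκ1 : κ ≤ 1) (b : ℝ) (hb : 0 < b) :
    ∃ m ε t0 lam0 : ℝ, 0 < m ∧ m ≤ 1 ∧ 0 < ε ∧ 8 * ε ≤ m / 100 ∧ 8 * ε ≤ 1 / 100000 ∧ 0 < t0 ∧
      t0 ≤ 1 ∧ t0 ^ 2 * (CH d + 2) ^ 3 ≤ ε ∧ 0 < lam0 ∧ lam0 ≤ 1 ∧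
      (∀ (B : ℝ) (z : ℂ), 0 < z.im → z.im ≤ 1 → κ ≤ z.re → z.re ≤ 4 * d - κ →
        m ≤ (gg d B z).im) ∧
      ∀ (μ : Measure ℝ) [IsProbabilityMeasure μ], (∀ᵐ s ∂μ, |s| ≤ b) →
      ∀ lam : ℝ, 0 < lam → lam ≤ lam0 →
      ∃ G : Set ((Fin d → ℤ) → ℝ), MeasurableSet G ∧
        (P1 d μ).real Gᶜ ≤ Real.exp (-lam ^ (-(1 / 100) : ℝ)) ∧
        ∀ t : ℝ, lam ^ (26 / 25 : ℝ) ≤ t → t ≤ t0 →
        ∀ z : ℂ, 0 < z.im → z.im ≤ t ^ 2 → κ ≤ z.re → z.re ≤ 4 * d - κ → ∀ v ∈ G,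
          Pool.Agent.Y662.TR.Gd t (gg d (b + 1) z) m ε
            (Ps (b + 1) lam (z + (t : ℂ) ^ 2 * gg d (b + 1) z) v 0) := by
  obtain ⟨m', hm', hlow'⟩ := gg_low hd κ hκ hκ1
  obtain ⟨m, hmdef⟩ : ∃ m, m = min m' 1 := ⟨_, rfl⟩
  have hm : 0 < m := by rw [hmdef]; exact lt_min hm' one_pos
  have hm1 : m ≤ 1 := by rw [hmdef]; exact min_le_right _ _
  have hlow : ∀ (B : ℝ) (z : ℂ), 0 < z.im → z.im ≤ 1 → κ ≤ z.re → z.re ≤ 4 * d - κ →
      m ≤ (gg d B z).im := fun B z h1 h2 h3 h4 =>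
    le_trans (by rw [hmdef]; exact min_le_left _ _) (hlow' B z h1 h2 h3 h4)
  obtain ⟨ε, hεdef⟩ : ∃ ε, ε = min (m / 800) (1 / 800000) := ⟨_, rfl⟩
  have hε : 0 < ε := by rw [hεdef]; exact lt_min (by positivity) (by norm_num)
  have hε1 : ε ≤ m / 800 := by rw [hεdef]; exact min_le_left _ _
  have hε2 : ε ≤ 1 / 800000 := by rw [hεdef]; exact min_le_right _ _
  have hCH := CH_nonneg d
  obtain ⟨ρ, hρdef⟩ : ∃ ρ, ρ = min 1 (ε * m / 2 / (CH d + 2)) := ⟨_, rfl⟩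
  have hρ : 0 < ρ := by rw [hρdef]; exact lt_min one_pos (by positivity)
  have hρ1 : ρ ≤ 1 := by rw [hρdef]; exact min_le_left _ _
  have hρ2 : ρ * (CH d + 2) ≤ ε * m / 2 := by
    have h1 : ρ ≤ ε * m / 2 / (CH d + 2) := by rw [hρdef]; exact min_le_right _ _
    rwa [le_div_iff₀ (by positivity)] at h1
  obtain ⟨K, hK⟩ : ∃ K, K = Pool.Agent.TH794.LL2.KK d := ⟨_, rfl⟩
  have hK3 : 3 ≤ K := by rw [hK]; exact KK_ge d
  obtain ⟨c1, hc1⟩ : ∃ c1, c1 = ε * ρ * m / 4 := ⟨_, rfl⟩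
  have hc10 : 0 < c1 := by rw [hc1]; positivity
  have hc11 : c1 ≤ 1 := by
    rw [hc1]
    have h1 : ε * ρ ≤ 1 * 1 := by gcongr; linarith
    have h2 : ε * ρ * m ≤ 1 * 1 * 1 := by gcongr
    linarith
  obtain ⟨lam1, hlam1, hlaw⟩ := law d hd b hb
  obtain ⟨C3, hC3⟩ : ∃ C3, C3 = CH d * (2 + CH d) ^ (1 / 8 : ℝ) := ⟨_, rfl⟩
  have hC30 : 0 ≤ C3 := by rw [hC3]; positivity
  obtain ⟨t0, ht00, ht01, htt0⟩ := t_small K m ε (c1 / 3) C3 (by linarith) hm hm1 hε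
    (by positivity) hC30 ((CH d + 2) ^ 3) (by positivity)
  obtain ⟨y2, hy2⟩ := Filter.eventually_atTop.1
    ((ev2 (16 * 3 / c1) (-(1 / 100)) 0 1 (by norm_num)).and
    ((ev2 (2 * 3 / c1) (-1) 0 0 (by norm_num)).and
    ((ev2 3 (31 / 10) 4 0 (by norm_num)).and
    ((ev2 (4 / m) (-(21 / 10)) (-(52 / 25)) 0 (by norm_num)).and
    ((ev2 (8 / m ^ 2) (104 / 25) 5 0 (by norm_num)).and
    (ev2 6 0 (1 / 100) 1 (by norm_num)))))))
  obtain ⟨y1, hy1⟩ : ∃ y1, y1 = max y2 1 := ⟨_, rfl⟩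
  refine ⟨m, ε, t0, min lam1 (Real.exp (-y1)), hm, hm1, hε, by linarith, by linarith, ht00, ht01,
    (htt0 t0 ht00 le_rfl).2.2, lt_min hlam1 (Real.exp_pos _), ?_, hlow, ?_⟩
  · refine (min_le_right _ _).trans (Real.exp_le_one_iff.2 ?_)
    have : 1 ≤ y1 := by rw [hy1]; exact le_max_right _ _
    linarith
  intro μ hμ hμb lam hlam hlam0
  obtain ⟨F, G, hG, hP, HK, HL, HF⟩ := hlaw μ hμ hμb lam hlam (hlam0.trans (min_le_left _ _))
  obtain ⟨y, hy⟩ : ∃ y, y = Real.log (1 / lam) := ⟨_, rfl⟩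
  have hloglam : Real.log lam = -y := by
    rw [hy, one_div, Real.log_inv, neg_neg]
  have hyy1 : y1 ≤ y := by
    have h1 := Real.log_le_log hlam (hlam0.trans (min_le_right _ _))
    rw [Real.log_exp, hloglam] at h1
    linarith
  have hyy2 : y2 ≤ y := le_trans (by rw [hy1]; exact le_max_left _ _) hyy1
  have hyone : 1 ≤ y := le_trans (by rw [hy1]; exact le_max_right _ _) hyy1
  obtain ⟨n1, n2, n5, n6, n8, n7⟩ := hy2 y hyy2
  simp only [pow_zero, mul_one, pow_one, zero_mul, Real.exp_zero] at n1 n2 n5 n6 n7 n8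
  have hpw : ∀ p : ℝ, lam ^ p = Real.exp (-p * y) := by
    intro p
    rw [Real.rpow_def_of_pos hlam, hloglam]
    congr 1
    ring
  have hlamy : lam = Real.exp (-1 * y) := by
    rw [← hpw 1, Real.rpow_one]
  have hlamle1 : lam ≤ 1 := by
    rw [hlamy]
    exact Real.exp_le_one_iff.2 (by linarith)
  -- the event
  have hBm : MeasurableSet {v : (Fin d → ℤ) → ℝ | ∀ x, |v x| ≤ b} := by
    have : {v : (Fin d → ℤ) → ℝ | ∀ x, |v x| ≤ b} = ⋂ x, {v | |v x| ≤ b} := by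
      ext v
      simp
    rw [this]
    exact MeasurableSet.iInter fun x => measurableSet_le (by fun_prop) (by fun_prop)
  have hBa : ∀ᵐ v ∂(P1 d μ), ∀ x, |v x| ≤ b := by
    rw [ae_all_iff]
    intro x
    have h1 : (P1 d μ).map (fun v => v x) = μ :=
      (measurePreserving_eval_infinitePi (fun _ : Fin d → ℤ => μ) x).map_eq
    have h2 : ∀ᵐ s ∂((P1 d μ).map fun v => v x), |s| ≤ b := by rw [h1]; exact hμb
    exact ae_of_ae_map (measurable_pi_apply x).aemeasurable h2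
  refine ⟨G ∩ {v | ∀ x, |v x| ≤ b}, hG.inter hBm, ?_, ?_⟩
  · have h1 : (P1 d μ).real (G ∩ {v | ∀ x, |v x| ≤ b})ᶜ = (P1 d μ).real Gᶜ := by
      apply measureReal_congr
      rw [Set.compl_inter]
      filter_upwards [hBa] with v hv
      apply propext
      change (v ∈ Gᶜ ∪ {v | ∀ x, |v x| ≤ b}ᶜ) ↔ v ∈ Gᶜ
      simp only [Set.mem_union, Set.mem_compl_iff, Set.mem_ofPred_eq]
      tauto
    rw [h1, probReal_compl_eq_one_sub hG]
    have : 1 - Real.exp (-lam ^ (-(1 / 100) : ℝ)) ≤ (P1 d μ).real G := hP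
    linarith
  intro t ht1 ht2 z hz hz1 hz2 hz3 v hv
  have hB0 : 0 < b + 1 := by linarith
  have ht0 : 0 < t := lt_of_lt_of_le (Real.rpow_pos_of_pos hlam _) ht1
  have ht3 : t ≤ 1 := ht2.trans ht01
  have ht22 : t ^ 2 ≤ 1 := pow_le_one₀ ht0.le ht3
  obtain ⟨hts1, hts2, -⟩ := htt0 t ht0 ht2
  have hDat : Dat d (b + 1) lam t z := ⟨hz, ht0, by linarith⟩
  have hmg := hlow (b + 1) z hz (hz1.trans ht22) hz2 hz3
  have hvb : ∀ x, |lam * v x| ≤ |b + 1| := by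
    intro x
    rw [abs_mul, abs_of_pos hlam, abs_of_pos hB0]
    have h1 := hv.2 x
    have h0 := abs_nonneg (v x)
    calc lam * |v x| ≤ 1 * b := by gcongr
      _ ≤ b + 1 := by linarith
  -- the scales
  obtain ⟨η1, hη1⟩ : ∃ η1, η1 = lam ^ (211 / 100 : ℝ) := ⟨_, rfl⟩
  obtain ⟨e, he⟩ : ∃ e, e = lam ^ (1 / 100 : ℝ) := ⟨_, rfl⟩
  obtain ⟨R, hR⟩ : ∃ R, R = Real.exp (lam ^ (-(1 / 100) : ℝ)) := ⟨_, rfl⟩
  obtain ⟨h2, hh2⟩ : ∃ h2, h2 = lam ^ (21 / 10 : ℝ) := ⟨_, rfl⟩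
  have hη0 : 0 < η1 := by rw [hη1]; exact Real.rpow_pos_of_pos hlam _
  have he0 : 0 < e := by rw [he]; exact Real.rpow_pos_of_pos hlam _
  have he1 : e ≤ 1 := by rw [he]; exact Real.rpow_le_one hlam.le hlamle1 (by norm_num)
  have hR0 : 0 < R := by rw [hR]; exact Real.exp_pos _
  have hh20 : 0 < h2 := by rw [hh2]; exact Real.rpow_pos_of_pos hlam _
  rw [← hη1, ← he] at HF
  rw [← hη1, ← he, ← hR] at HL
  rw [← hK] at HK
  have HL' : ∀ a : Fin d → ℤ, ‖a‖ ≤ R → ∀ E : ℝ,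
      |(Ps (b + 1) lam ((E : ℂ) + (η1 : ℂ) * Complex.I) v a a).im - F E| ≤ e :=
    fun a ha E => law_sheet (b + 1) lam η1 hη0 v hvb F e a
      (fun m' hm' hr' => HL v hv.1 a ha m' hm' hr') E
  have HF' : ∀ E : ℝ, |(gg d (b + 1) ((E : ℂ) + (η1 : ℂ) * Complex.I)).im - F E| ≤ e := by
    intro E
    have h1 := law_sheet (d := d) (b + 1) 0 η1 hη0 (fun _ => 0) (fun x => by simp) F e 0
      (fun m' hm' hr' => HF 0 m' hm' (by simpa using hr')) E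
    rwa [ps_zero] at h1
  obtain ⟨ℓ, hℓ⟩ : ∃ ℓ, ℓ = Real.log (1 + 2 * ((1 / lam) / h2)) := ⟨_, rfl⟩
  have hℓ0 : 0 ≤ ℓ := by
    rw [hℓ]
    apply Real.log_nonneg
    have : 0 ≤ 2 * (1 / lam / h2) := by positivity
    linarith
  have hℓ1 : ℓ ≤ 4 * y := by
    rw [hℓ, Real.log_le_iff_le_exp (by positivity)]
    refine le_trans ?_ n5
    have h1 : 1 / lam / h2 = Real.exp (31 / 10 * y) := by
      rw [hh2, hpw]
      conv_lhs => rw [hlamy]
      rw [one_div, ← Real.exp_neg, div_eq_mul_inv, ← Real.exp_neg, ← Real.exp_add]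
      congr 1
      ring
    rw [h1]
    have h2 : 1 ≤ Real.exp (31 / 10 * y) := Real.one_le_exp (by positivity)
    linarith only [h2]
  obtain ⟨h0, hh0⟩ : ∃ h0, h0 = t ^ 2 * m / 2 := ⟨_, rfl⟩
  have htm : 0 < t ^ 2 * m := by positivity
  have hη3 : η1 ≤ h2 := by
    rw [hη1, hh2]
    exact Real.rpow_le_rpow_of_exponent_ge hlam hlamle1 (by norm_num)
  have hh2t : h2 ≤ t ^ 2 * m / 4 := by
    have h1 : (lam ^ (26 / 25 : ℝ)) ^ 2 ≤ t ^ 2 := by gcongr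
    have h3 : (lam ^ (26 / 25 : ℝ)) ^ 2 = Real.exp (-(52 / 25) * y) := by
      rw [← Real.rpow_natCast, ← Real.rpow_mul hlam.le, hpw]
      congr 1
      push_cast
      ring
    rw [h3] at h1
    rw [hh2, hpw]
    have h4 : Real.exp (-(21 / 10) * y) = (4 / m * Real.exp (-(21 / 10) * y)) * (m / 4) := by
      field_simp
    rw [h4]
    calc 4 / m * Real.exp (-(21 / 10) * y) * (m / 4) ≤ Real.exp (-(52 / 25) * y) * (m / 4) := by
          gcongr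
      _ ≤ t ^ 2 * (m / 4) := by gcongr
      _ = _ := by ring
  have hη2 : η1 + h2 ≤ h0 := by rw [hh0]; linarith only [hη3, hh2t]
  have hη4 : η1 + t ^ 2 * m / 4 ≤ h0 := by rw [hh0]; linarith only [hη3, hh2t]
  obtain ⟨D1, hD1⟩ : ∃ D1, D1 = 2 * e * (2 * ℓ) + 2 / (1 / lam) := ⟨_, rfl⟩
  have hA := fun (ζ : ℂ) (hζ : h0 ≤ ζ.im) => (lemA v F K e η1 R h2 h0 (1 / lam) hη0 hh20 hη2
    (by positivity) hR0 he0.le (by linarith) HK HL' HF' ζ hζ).1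
  rw [← hℓ] at hA
  rw [← hD1] at hA
  have hA' := fun (ζ : ℂ) (hζ : h0 ≤ ζ.im) => (lemA v F K e η1 R (t ^ 2 * m / 4) h0 1 hη0
    (by positivity) hη4 one_pos hR0 he0.le (by linarith) HK HL' HF' ζ hζ).2
  obtain ⟨Q', hQ'⟩ : ∃ Q', Q' = max (4 * (K + e) * Real.log (1 + 2 * (1 / (t ^ 2 * m / 4))) +
    2 / 1) (2 / h0 ^ 2 / R) := ⟨_, rfl⟩
  rw [← hQ'] at hA'
  obtain ⟨Q, hQ⟩ : ∃ Q, Q = 4 * (K + 1) * Real.log (1 + 2 * (1 / (t ^ 2 * m / 4))) + 2 :=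
    ⟨_, rfl⟩
  rw [← hQ] at hts2
  have hlog0 : 0 ≤ Real.log (1 + 2 * (1 / (t ^ 2 * m / 4))) := by
    apply Real.log_nonneg
    have : 0 ≤ 2 * (1 / (t ^ 2 * m / 4)) := by positivity
    linarith only [this]
  have hQQ : Q' ≤ Q := by
    rw [hQ', hQ]
    apply max_le
    · have h1 : 4 * (K + e) * Real.log (1 + 2 * (1 / (t ^ 2 * m / 4))) ≤
          4 * (K + 1) * Real.log (1 + 2 * (1 / (t ^ 2 * m / 4))) := by gcongr
      linarith only [h1]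
    · have h1 : 2 / h0 ^ 2 / R ≤ 1 := by
        rw [div_le_one hR0, hh0, hR, hpw]
        have h3 : 2 / (t ^ 2 * m / 2) ^ 2 = 8 / m ^ 2 / (t ^ 2) ^ 2 := by
          field_simp
          norm_num
        rw [h3]
        have h4 : 8 / m ^ 2 / (t ^ 2) ^ 2 ≤ 8 / m ^ 2 * Real.exp (104 / 25 * y) := by
          rw [div_eq_mul_inv (8 / m ^ 2)]
          have h5 : Real.exp (104 / 25 * y) = (((lam ^ (26 / 25 : ℝ)) ^ 2) ^ 2)⁻¹ := by
            rw [hpw, ← Real.exp_nat_mul, ← Real.exp_nat_mul, ← Real.exp_neg]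
            congr 1
            push_cast
            ring
          rw [h5]
          have : 0 < lam ^ (26 / 25 : ℝ) := Real.rpow_pos_of_pos hlam _
          gcongr
        refine h4.trans (n8.trans (Real.exp_le_exp.2 ?_))
        rw [neg_neg]
        linarith only [n7, hyone]
      have h2 : 0 ≤ 4 * (K + 1) * Real.log (1 + 2 * (1 / (t ^ 2 * m / 4))) := by positivity
      linarith only [h1, h2]
  have hll : 2 / (1 / lam) = 2 * lam := by field_simp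
  rw [hll] at hD1
  -- the numerical conditions
  have a1 : 16 * y * Real.exp (-(1 / 100) * y) ≤ c1 / 3 := by
    have : 16 * y * Real.exp (-(1 / 100) * y) =
        (16 * 3 / c1 * y * Real.exp (-(1 / 100) * y)) * (c1 / 3) := by
      field_simp
    rw [this]
    exact mul_le_of_le_one_left (by positivity) n1
  have a2 : 2 * Real.exp (-1 * y) ≤ c1 / 3 := by
    have : 2 * Real.exp (-1 * y) = (2 * 3 / c1 * Real.exp (-1 * y)) * (c1 / 3) := by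
      field_simp
    rw [this]
    exact mul_le_of_le_one_left (by positivity) n2
  have hey : e = Real.exp (-(1 / 100) * y) := by rw [he, hpw]
  have hD1b : D1 ≤ c1 / 3 + c1 / 3 := by
    rw [hD1]
    have h1 : 2 * e * (2 * ℓ) ≤ 16 * y * Real.exp (-(1 / 100) * y) := by
      rw [← hey]
      calc 2 * e * (2 * ℓ) ≤ 2 * e * (2 * (4 * y)) := by gcongr
        _ = 16 * y * e := by ring
    have h2 : 2 * lam = 2 * Real.exp (-1 * y) := by rw [← hlamy]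
    linarith only [h1, h2, a1, a2]
  have hh0t : h0 ≤ t ^ 2 * m := by rw [hh0]; linarith only [htm]
  refine gd_det hd hDat v D1 Q h0 (t ^ 2) ρ ε m hA
    (fun ζ hζ y => (hA' ζ hζ y).trans hQQ)
    hz1 le_rfl hm hm1 hmg hh0t hρ hρ1 hε (by linarith only [hε1, hm]) (by linarith only [hε2])
    ?_ hρ2 hts2 (by linarith only [hD1b, hc11])
  rw [← hc1]
  have h1 : CH d * ((2 + CH d) * t ^ 2) ^ (1 / 8 : ℝ) = C3 * (t ^ 2) ^ (1 / 8 : ℝ) := by
    rw [Real.mul_rpow (by positivity) (by positivity), hC3]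
    ring
  rw [h1]
  linarith only [hts1, hD1b]

/-- **the uniform moment bound** -/
theorem mom (hd : 3 ≤ d) (κ : ℝ) (hκ : 0 < κ) (hκ1 : κ ≤ 1) (b : ℝ) (hb : 0 < b) :
    ∃ m t0 lam0 : ℝ, 0 < m ∧ 0 < t0 ∧ t0 ≤ 1 ∧ 0 < lam0 ∧ lam0 ≤ 1 ∧
      (∀ (B : ℝ) (z : ℂ), 0 < z.im → z.im ≤ 1 → κ ≤ z.re → z.re ≤ 4 * d - κ →
        m ≤ (gg d B z).im) ∧
      ∀ (μ : Measure ℝ) [IsProbabilityMeasure μ], (∀ᵐ s ∂μ, |s| ≤ b) →
      ∀ lam : ℝ, 0 < lam → lam ≤ lam0 →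
        ∀ t : ℝ, lam ^ (26 / 25 : ℝ) ≤ t → t ≤ t0 →
        ∀ z : ℂ, 0 < z.im → z.im ≤ t ^ 2 → κ ≤ z.re → z.re ≤ 4 * d - κ →
          ∫ ω, hu (Gh (b + 1) lam t z ω) (gg d (b + 1) z) ^ 2 ∂(PP d μ) ≤ 1 := by
  obtain ⟨m, ε, t0, lam1, hm, hm1, hε, hε1, hε2, ht0p, ht01, ht0C, hlam1, hlam1', hlow, hgood⟩ :=
    good hd κ hκ hκ1 b hb
  have hCH := CH_nonneg d
  obtain ⟨C5, hC5⟩ : ∃ C5, C5 = (CH d + 2) ^ 2 * (8 * d + 3 * |b + 1| + 2 + CH d) ^ 2 / m ^ 4 +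
    (C1 d (b + 1) ^ 2 + CH d + 1) ^ 2 * C1 d (b + 1) ^ 4 / m ^ 4 := ⟨_, rfl⟩
  have hC50 : 0 ≤ C5 := by rw [hC5]; positivity
  obtain ⟨y2, hy2⟩ := Filter.eventually_atTop.1
    ((ev2 (13000 * (2 + C5) ^ 2) (312 / 25) 13 0 (by norm_num)).and
    (ev2 13 0 (1 / 100) 1 (by norm_num)))
  obtain ⟨y1, hy1⟩ : ∃ y1, y1 = max y2 1 := ⟨_, rfl⟩
  refine ⟨m, t0, min lam1 (Real.exp (-y1)), hm, ht0p, ht01, lt_min hlam1 (Real.exp_pos _),
    (min_le_left _ _).trans hlam1', hlow, ?_⟩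
  intro μ hμ hμb lam hlam hlam0 t ht1 ht2 z hz hz1 hz2 hz3
  obtain ⟨G, hG, hP, hGd⟩ := hgood μ hμb lam hlam (hlam0.trans (min_le_left _ _))
  have hlamle1 : lam ≤ 1 := (hlam0.trans (min_le_left _ _)).trans hlam1'
  obtain ⟨y, hy⟩ : ∃ y, y = Real.log (1 / lam) := ⟨_, rfl⟩
  have hloglam : Real.log lam = -y := by
    rw [hy, one_div, Real.log_inv, neg_neg]
  have hyy1 : y1 ≤ y := by
    have h1 := Real.log_le_log hlam (hlam0.trans (min_le_right _ _))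
    rw [Real.log_exp, hloglam] at h1
    linarith
  have hyy2 : y2 ≤ y := le_trans (by rw [hy1]; exact le_max_left _ _) hyy1
  have hyone : 1 ≤ y := le_trans (by rw [hy1]; exact le_max_right _ _) hyy1
  obtain ⟨n1, n2⟩ := hy2 y hyy2
  simp only [pow_zero, mul_one, pow_one, zero_mul, Real.exp_zero] at n1 n2
  have hpw : ∀ p : ℝ, lam ^ p = Real.exp (-p * y) := by
    intro p
    rw [Real.rpow_def_of_pos hlam, hloglam]
    congr 1
    ring
  have ht0 : 0 < t := lt_of_lt_of_le (Real.rpow_pos_of_pos hlam _) ht1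
  have ht3 : t ≤ 1 := ht2.trans ht01
  have ht22 : t ^ 2 ≤ 1 := pow_le_one₀ ht0.le ht3
  have hDat : Dat d (b + 1) lam t z := ⟨hz, ht0, by linarith⟩
  have hmg := hlow (b + 1) z hz (hz1.trans ht22) hz2 hz3
  have hHb := hb_bad (lam := lam) hd hDat m hm hm1 ht3 (hz1.trans ht22) (by linarith)
    (by linarith) hmg
  have hHb' := hb0 (lam := lam) hd hDat m hm hm1 ht3 (hz1.trans ht22) (by linarith)
    (by linarith) hmg
  have hHb0 : 0 ≤ HB d (b + 1) m t := by unfold HB; positivity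
  have hHb0' : 0 ≤ HB0 d (b + 1) m t := by unfold HB0; positivity
  obtain ⟨Hb, hHbd⟩ : ∃ Hb, Hb = HB d (b + 1) m t + HB0 d (b + 1) m t := ⟨_, rfl⟩
  have hHbn : 0 ≤ Hb := by rw [hHbd]; positivity
  have hC : t ^ 2 * (CH d + 2) ^ 3 ≤ ε := by
    refine le_trans ?_ ht0C
    gcongr
  refine whole hDat ht3 μ m (8 * ε) Hb G hG
    (fun v hv => gd0 hd hDat v m ε (8 * ε) (hGd t ht1 ht2 z hz hz1 hz2 hz3 v hv) le_rfl hε1 hε2 hC)
    (fun v => (hHb' v).trans (by rw [hHbd]; linarith))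
    (fun v hv => ?_) (fun v => (hHb v).trans (by rw [hHbd]; linarith)) ?_
  · have h1 := gdc v m ε (hGd t ht1 ht2 z hz hz1 hz2 hz3 v hv)
    have h2 : ε ≤ 8 * ε := by linarith
    exact ⟨h1.one.trans h2, h1.two.trans h2, fun x => (h1.three x).trans h2, h1.m0, h1.gm,
      by linarith, hε1, hε2⟩
  have h1 : Hb ≤ C5 * Real.exp (156 / 25 * y) := by
    have h2 : Hb = C5 / (t ^ 2) ^ 3 := by
      rw [hHbd]
      unfold HB HB0
      rw [hC5]
      field_simp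
    rw [h2, div_eq_mul_inv]
    have h3 : ((t ^ 2) ^ 3)⁻¹ ≤ Real.exp (156 / 25 * y) := by
      have h4 : Real.exp (156 / 25 * y) = (((lam ^ (26 / 25 : ℝ)) ^ 2) ^ 3)⁻¹ := by
        rw [hpw, ← Real.exp_nat_mul, ← Real.exp_nat_mul, ← Real.exp_neg]
        congr 1
        push_cast
        ring
      rw [h4]
      have : 0 < lam ^ (26 / 25 : ℝ) := Real.rpow_pos_of_pos hlam _
      gcongr
    gcongr
  have h2 : (2 + Hb) ^ 2 ≤ (2 + C5) ^ 2 * Real.exp (312 / 25 * y) := by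
    have h3 : 2 + Hb ≤ (2 + C5) * Real.exp (156 / 25 * y) := by
      have : 1 ≤ Real.exp (156 / 25 * y) := Real.one_le_exp (by positivity)
      linarith
    calc (2 + Hb) ^ 2 ≤ ((2 + C5) * Real.exp (156 / 25 * y)) ^ 2 := by gcongr
      _ = _ := by
          rw [mul_pow, ← Real.exp_nat_mul]
          congr 2
          push_cast
          ring
  have h3 : (P1 d μ).real Gᶜ ≤ Real.exp (-(13 * y)) := by
    refine hP.trans (Real.exp_le_exp.2 ?_)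
    rw [hpw]
    have : - -(1 / 100 : ℝ) * y = 1 / 100 * y := by ring
    rw [this]
    linarith
  have h4 : 0 ≤ (P1 d μ).real Gᶜ := measureReal_nonneg
  calc (P1 d μ).real Gᶜ * (13 * (2 + Hb) ^ 2) ≤
        Real.exp (-(13 * y)) * (13 * ((2 + C5) ^ 2 * Real.exp (312 / 25 * y))) := by gcongr
    _ = Real.exp (-(13 * y)) * (13000 * (2 + C5) ^ 2 * Real.exp (312 / 25 * y)) / 1000 := by ring
    _ ≤ Real.exp (-(13 * y)) * Real.exp (13 * y) / 1000 := by gcongr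
    _ = 1 / 1000 := by
        rw [← Real.exp_add]
        simp

end Pool.Agent.Y662.FP
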