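import Pool.Agent.Y662.TR.Mod
import Mathlib.GroupTheory.Coprod.Basic

/-! The free product of `ℤ^d` and `ℤ/2` as a tree of sheets. -/

set_option autoImplicit false
set_option linter.unusedSectionVars false

open scoped BigOperators Topology
open Filter

namespace Pool.Agent.Y662.FP

open Pool.Agent.Y662.TR (Vt oo ch sh)

variable {d : ℕ}

/-- the free product `ℤ^d * ℤ/2` -/
abbrev Gp (d : ℕ) : Type := Monoid.Coprod (Multiplicative (Fin d → ℤ)) (Multiplicative (ZMod 2))

/-- the elements of `ℤ^d` -/
def li (x : Fin d → ℤ) : Gp d := Monoid.Coprod.inl (Multiplicative.ofAdd x)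

/-- the involution -/
def ss : Gp d := Monoid.Coprod.inr (Multiplicative.ofAdd 1)

theorem li_add (x y : Fin d → ℤ) : li (x + y) = li x * li y := by
  unfold li
  rw [ofAdd_add, map_mul]

theorem li_zero : li (0 : Fin d → ℤ) = 1 := by
  unfold li
  rw [ofAdd_zero, map_one]

theorem li_neg (x : Fin d → ℤ) : li (-x) = (li x)⁻¹ := by
  unfold li
  rw [ofAdd_neg, map_inv]

theorem ss_ss : (ss : Gp d) * ss = 1 := by
  unfold ss
  rw [← map_mul, ← ofAdd_add]
  have : (1 : ZMod 2) + 1 = 0 := by decide
  rw [this, ofAdd_zero, map_one]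

/-- the reduced lists -/
def Rl : List (Fin d → ℤ) → Prop
  | [] => True
  | (y :: l) => (y ≠ 0 ∨ l = []) ∧ Rl l

/-- the reduced vertices -/
abbrev Rd (d : ℕ) : Type := {p : Vt d // Rl p.1}

/-- the shift of the sheets -/
def shp (e : Fin d → ℤ) : Equiv.Perm (Rd d) where
  toFun p := ⟨(p.1.1, p.1.2 + e), p.2⟩
  invFun p := ⟨(p.1.1, p.1.2 - e), p.2⟩
  left_inv p := by
    apply Subtype.ext
    exact Prod.ext rfl (by simp)
  right_inv p := by
    apply Subtype.ext
    exact Prod.ext rfl (by simp)

open Classical in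
/-- the neighbour in another sheet -/
noncomputable def swf (p : Vt d) : Vt d :=
  if p.2 ≠ 0 ∨ p.1 = [] then (p.2 :: p.1, 0) else (p.1.tail, p.1.headD 0)

theorem swf_red (p : Vt d) (hp : Rl p.1) : Rl (swf p).1 := by
  obtain ⟨l, x⟩ := p
  unfold swf
  split_ifs with h
  · exact ⟨h, hp⟩
  · cases l with
    | nil => exact absurd (Or.inr rfl) h
    | cons y l => exact hp.2

theorem swf_swf (p : Vt d) (hp : Rl p.1) : swf (swf p) = p := by
  obtain ⟨l, x⟩ := p
  by_cases h : x ≠ 0 ∨ l = []
  · have h1 : swf ((l, x) : Vt d) = (x :: l, 0) := by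
      unfold swf
      rw [if_pos h]
    rw [h1]
    unfold swf
    rw [if_neg (by simp)]
    simp
  · push Not at h
    obtain ⟨hx, hl⟩ := h
    cases l with
    | nil => exact absurd rfl hl
    | cons y l =>
      subst hx
      have h1 : swf ((y :: l, 0) : Vt d) = (l, y) := by
        unfold swf
        rw [if_neg (by simp)]
        simp
      rw [h1]
      unfold swf
      rw [if_pos hp.1]

/-- the involution -/
noncomputable def swp : Equiv.Perm (Rd d) where
  toFun p := ⟨swf p.1, swf_red p.1 p.2⟩
  invFun p := ⟨swf p.1, swf_red p.1 p.2⟩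
  left_inv p := Subtype.ext (swf_swf p.1 p.2)
  right_inv p := Subtype.ext (swf_swf p.1 p.2)

theorem swp_swp : (swp : Equiv.Perm (Rd d)) * swp = 1 := by
  ext1 p
  exact Subtype.ext (swf_swf p.1 p.2)

/-- the action of `ℤ^d` -/
def fL : Multiplicative (Fin d → ℤ) →* (Equiv.Perm (Rd d))ᵐᵒᵖ where
  toFun m := MulOpposite.op (shp m.toAdd)
  map_one' := by
    rw [MulOpposite.op_eq_one_iff]
    ext1 p
    apply Subtype.ext
    exact Prod.ext rfl (by simp [shp])
  map_mul' m n := by
    rw [← MulOpposite.op_mul]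
    congr 1
    ext1 p
    apply Subtype.ext
    refine Prod.ext rfl ?_
    simp only [shp, toAdd_mul, Equiv.coe_fn_mk, Equiv.Perm.coe_mul, Function.comp_apply]
    abel

/-- the action of `ℤ/2` -/
noncomputable def fR : Multiplicative (ZMod 2) →* (Equiv.Perm (Rd d))ᵐᵒᵖ where
  toFun n := if n.toAdd = 0 then 1 else MulOpposite.op swp
  map_one' := by simp
  map_mul' m n := by
    have key : ∀ a b : ZMod 2, (if a + b = 0 then (1 : (Equiv.Perm (Rd d))ᵐᵒᵖ)
        else MulOpposite.op swp) = (if a = 0 then 1 else MulOpposite.op swp) *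
        (if b = 0 then 1 else MulOpposite.op swp) := by
      intro a b
      have hz : ∀ c : ZMod 2, c = 0 ∨ c = 1 := by decide
      have h10 : (1 : ZMod 2) ≠ 0 := by decide
      have h11 : (1 : ZMod 2) + 1 = 0 := by decide
      rcases hz a with rfl | rfl
      · rw [zero_add, if_pos (rfl : (0 : ZMod 2) = 0), one_mul]
      · rcases hz b with rfl | rfl
        · rw [add_zero, if_pos (rfl : (0 : ZMod 2) = 0), mul_one]
        · rw [if_pos h11, if_neg h10, ← MulOpposite.op_mul, swp_swp, MulOpposite.op_one]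
    exact key m.toAdd n.toAdd

/-- the right action -/
noncomputable def rho : Gp d →* (Equiv.Perm (Rd d))ᵐᵒᵖ := Monoid.Coprod.lift fL fR

/-- the right action -/
noncomputable def act (g : Gp d) (p : Rd d) : Rd d := (MulOpposite.unop (rho g)) p

theorem act_mul (g h : Gp d) (p : Rd d) : act (g * h) p = act h (act g p) := by
  unfold act
  rw [map_mul, MulOpposite.unop_mul]
  rfl

theorem act_one (p : Rd d) : act (1 : Gp d) p = p := by
  unfold act
  rw [map_one]
  rfl

theorem act_li (x : Fin d → ℤ) (p : Rd d) : act (li x) p = shp x p := by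
  unfold act rho li
  rw [Monoid.Coprod.lift_apply_inl]
  rfl

theorem act_ss (p : Rd d) : act (ss : Gp d) p = swp p := by
  unfold act rho ss
  rw [Monoid.Coprod.lift_apply_inr]
  have : fR (d := d) (Multiplicative.ofAdd 1) = MulOpposite.op swp := by
    unfold fR
    simp
  rw [this]
  rfl

/-- the root -/
def rt (d : ℕ) : Rd d := ⟨oo d, trivial⟩

/-- the vertex of a group element -/
noncomputable def Th (g : Gp d) : Vt d := (act g (rt d)).1

theorem Th_red (g : Gp d) : Rl (Th g).1 := (act g (rt d)).2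

theorem Th_one : Th (1 : Gp d) = oo d := by
  unfold Th
  rw [act_one]
  rfl

theorem Th_li (g : Gp d) (x : Fin d → ℤ) : Th (g * li x) = ((Th g).1, (Th g).2 + x) := by
  unfold Th
  rw [act_mul, act_li]
  rfl

theorem Th_ss (g : Gp d) : Th (g * ss) = swf (Th g) := by
  unfold Th
  rw [act_mul, act_ss]
  rfl

/-- the word of a list -/
def Wd : List (Fin d → ℤ) → Gp d
  | [] => 1
  | (y :: l) => Wd l * li y * ss

/-- the group element of a vertex -/
def Ps' (p : Vt d) : Gp d := Wd p.1 * li p.2

theorem ps_shift (p : Rd d) (x : Fin d → ℤ) : Ps' (shp x p).1 = Ps' p.1 * li x := by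
  unfold Ps'
  change Wd p.1.1 * li (p.1.2 + x) = _
  rw [li_add, mul_assoc]

theorem ps_swap (p : Rd d) : Ps' (swp p).1 = Ps' p.1 * ss := by
  obtain ⟨⟨l, x⟩, hp⟩ := p
  change Ps' (swf (l, x)) = Ps' (l, x) * ss
  by_cases h : x ≠ 0 ∨ l = []
  · have h1 : swf ((l, x) : Vt d) = (x :: l, 0) := by
      unfold swf
      rw [if_pos h]
    rw [h1]
    unfold Ps'
    simp only [Wd]
    rw [li_zero, mul_one]
  · push Not at h
    obtain ⟨hx, hl⟩ := h
    cases l with
    | nil => exact absurd rfl hl
    | cons y l =>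
      subst hx
      have h1 : swf ((y :: l, 0) : Vt d) = (l, y) := by
        unfold swf
        rw [if_neg (by simp)]
        simp
      rw [h1]
      unfold Ps'
      simp only [Wd]
      rw [li_zero, mul_one, mul_assoc (Wd l * li y), ss_ss, mul_one]

theorem ps_act (g : Gp d) : ∀ p : Rd d, Ps' (act g p).1 = Ps' p.1 * g := by
  induction g using Monoid.Coprod.induction_on with
  | inl m =>
    intro p
    have := act_li m.toAdd p
    unfold li at this
    rw [ofAdd_toAdd] at this
    rw [this, ps_shift]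
    unfold li
    rw [ofAdd_toAdd]
  | inr n =>
    intro p
    have hn : n = 1 ∨ n = Multiplicative.ofAdd 1 := by
      have key : ∀ a : ZMod 2, a = 0 ∨ a = 1 := by decide
      rcases key n.toAdd with h | h
      · left
        exact h
      · right
        exact h
    rcases hn with h | h
    · subst h
      rw [map_one, act_one, mul_one]
    · subst h
      have h1 := act_ss p
      unfold ss at h1
      rw [h1, ps_swap]
      rfl
  | mul g h hg hh =>
    intro p
    rw [act_mul, hh, hg, mul_assoc]

theorem ps_Th (g : Gp d) : Ps' (Th g) = g := by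
  unfold Th
  rw [ps_act]
  unfold Ps' rt oo
  simp only [Wd]
  rw [li_zero, one_mul, one_mul]

theorem Th_inj : Function.Injective (Th (d := d)) := by
  intro g h hgh
  rw [← ps_Th g, ← ps_Th h, hgh]

theorem Th_wd : ∀ l : List (Fin d → ℤ), Rl l → Th (Wd l) = (l, 0)
  | [], _ => Th_one
  | (y :: l), h => by
    have h1 := Th_wd l h.2
    change Th (Wd l * li y * ss) = _
    rw [Th_ss, Th_li, h1]
    unfold swf
    rw [if_pos (by simpa using h.1)]
    simp

theorem Th_ps (p : Vt d) (hp : Rl p.1) : Th (Ps' p) = p := by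
  unfold Ps'
  rw [Th_li, Th_wd p.1 hp]
  simp

/-- the range -/
theorem Th_range (p : Vt d) : p ∈ Set.range (Th (d := d)) ↔ Rl p.1 := by
  constructor
  · rintro ⟨g, rfl⟩
    exact Th_red g
  · intro hp
    exact ⟨Ps' p, Th_ps p hp⟩

instance : Countable (Gp d) := Th_inj.countable

end Pool.Agent.Y662.FP
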