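import Pool.Agent.Y662.FP.Bad

/-! The recursion for the free product. -/

set_option autoImplicit false
set_option linter.unusedSectionVars false

open scoped BigOperators Topology ENNReal
open MeasureTheory Filter ProbabilityTheory

namespace Pool.Agent.Y662.FP

open Pool.Agent.W788.LD.Spec (S)
open Pool.Agent.Y662.TR.Split (glue glue_f0 glue_f1 glue_meas split)
open Pool.Agent.Y662.TR (RV UU hu hu_nonneg hu_self hu_meas Vt oo jp gg GG GG_le GG_im_lower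
  GG_im_pos GG_cont GG_tendsto Gc cG cG_pos Ps Dat PP P1 int_two bdd_int_real Vn Vn_sub)

variable {d : ℕ}

/-- **one step of the recursion** -/
theorem step_gen {g z : ℂ} {C c : ℝ} (μ : Measure ℝ) [IsProbabilityMeasure μ]
    (m ε Hb : ℝ) (G : Set ((Fin d → ℤ) → ℝ)) (hG : MeasurableSet G)
    (Γ Φ : (Vt d → ℝ) → ℂ) (hR : RV (PP d μ) Γ g C c) (hR1 : RV (PP d μ) Φ g C c)
    (m1 : ∫ ω, hu (Γ ω) g ∂(PP d μ) ≤ 1 / 100) (m2 : ∫ ω, hu (Γ ω) g ^ 2 ∂(PP d μ) ≤ 1)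
    (T : (Fin d → ℤ) → ℝ) (W ψ : ((Fin d → ℤ) → ℝ) → (Fin d → ℤ) → ℂ)
    (V : ((Fin d → ℤ) → ℝ) → (Fin d → ℤ) → ℝ)
    (φ : ((Fin d → ℤ) → ℝ) → ((Fin d → ℤ) → Vt d → ℝ) → (Fin d → ℤ) → ℂ)
    (hΦ : ∀ v w, Φ (glue v w) = φ v w 0)
    (hS : ∀ v w, Shd d (V v) z T (fun x => Γ (w x)) g 0 C c (φ v w) (ψ v))
    (hgood : ∀ v ∈ G, Gd T g m ε (ψ v)) (hbad : ∀ v, hu (ψ v 0) g ≤ Hb)
    (hP : (P1 d μ).real Gᶜ * (13 * (2 + Hb) ^ 2) ≤ 1 / 1000) :
    ∫ ω, hu (Φ ω) g ∂(PP d μ) ≤ 1 / 100 ∧ ∫ ω, hu (Φ ω) g ^ 2 ∂(PP d μ) ≤ 1 := by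
  obtain ⟨Q, hQ⟩ : ∃ Q, Q = Measure.infinitePi fun _ : Fin d → ℤ => PP d μ := ⟨_, rfl⟩
  have hQp : IsProbabilityMeasure Q := by rw [hQ]; infer_instance
  have hsplit : ((P1 d μ).prod Q).map (fun p => glue p.1 p.2) = PP d μ := by
    rw [hQ]
    exact split μ
  have hgm : Measurable (fun p : ((Fin d → ℤ) → ℝ) × ((Fin d → ℤ) → Vt d → ℝ) =>
      glue p.1 p.2) := glue_meas
  have hφm : ∀ v : (Fin d → ℤ) → ℝ, Measurable fun w : (Fin d → ℤ) → Vt d → ℝ =>
      Φ (glue v w) := by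
    intro v
    exact hR1.meas.comp (hgm.comp (measurable_const.prodMk measurable_id))
  have tr1 : ∫ ω, hu (Φ ω) g ∂(PP d μ) =
      ∫ p, hu (Φ (glue p.1 p.2)) g ∂((P1 d μ).prod Q) := by
    rw [← hsplit, integral_map hgm.aemeasurable]
    rw [hsplit]
    exact hR1.int1.aestronglyMeasurable
  have tr2 : ∫ ω, hu (Φ ω) g ^ 2 ∂(PP d μ) =
      ∫ p, hu (Φ (glue p.1 p.2)) g ^ 2 ∂((P1 d μ).prod Q) := by
    rw [← hsplit, integral_map hgm.aemeasurable]
    rw [hsplit]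
    exact hR1.int2.aestronglyMeasurable
  have j1 : Integrable (fun p : ((Fin d → ℤ) → ℝ) × ((Fin d → ℤ) → Vt d → ℝ) =>
      hu (Φ (glue p.1 p.2)) g) ((P1 d μ).prod Q) := by
    have := hR1.int1
    rw [← hsplit] at this
    exact this.comp_measurable hgm
  have j2 : Integrable (fun p : ((Fin d → ℤ) → ℝ) × ((Fin d → ℤ) → Vt d → ℝ) =>
      hu (Φ (glue p.1 p.2)) g ^ 2) ((P1 d μ).prod Q) := by
    have := hR1.int2
    rw [← hsplit] at this
    exact this.comp_measurable hgm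
  have bad2 : ∀ v, ∫ w, hu (Φ (glue v w)) g ^ 2 ∂Q ≤ 12 * (2 + Hb) ^ 2 := by
    intro v
    rw [hQ]
    simp only [hΦ]
    exact int_bad hR (hS v) Hb (hbad v) (fun _ _ => 0) m1 m2
  have bad1 : ∀ v, ∫ w, hu (Φ (glue v w)) g ∂Q ≤ 13 * (2 + Hb) ^ 2 := by
    intro v
    have hm : Measurable fun w : (Fin d → ℤ) → Vt d → ℝ => hu (Φ (glue v w)) g :=
      (hu_meas _).comp (hφm v)
    have i1 : Integrable (fun w : (Fin d → ℤ) → Vt d → ℝ => hu (Φ (glue v w)) g) Q :=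
      bdd_int_real Q _ hm (UU g C c) fun w => hR1.abs _
    have i2 : Integrable (fun w : (Fin d → ℤ) → Vt d → ℝ => hu (Φ (glue v w)) g ^ 2) Q :=
      bdd_int_real Q _ (hm.pow_const 2) (UU g C c ^ 2) fun w => by
        rw [abs_of_nonneg (sq_nonneg _)]
        have := hR1.nonneg (glue v w)
        have := hR1.huU (glue v w)
        gcongr
    have h1 : ∀ w : (Fin d → ℤ) → Vt d → ℝ, hu (Φ (glue v w)) g ≤
        1 + hu (Φ (glue v w)) g ^ 2 := by
      intro w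
      nlinarith [sq_nonneg (hu (Φ (glue v w)) g - 1), sq_nonneg (hu (Φ (glue v w)) g)]
    have i3 : Integrable (fun w : (Fin d → ℤ) → Vt d → ℝ => 1 + hu (Φ (glue v w)) g ^ 2) Q :=
      (integrable_const (1 : ℝ)).add i2
    have h2 := integral_mono i1 i3 h1
    have h3 : ∫ w, (1 + hu (Φ (glue v w)) g ^ 2) ∂Q =
        1 + ∫ w, hu (Φ (glue v w)) g ^ 2 ∂Q := by
      rw [integral_add (integrable_const (1 : ℝ)) i2, integral_const]
      simp
    rw [h3] at h2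
    have h4 := bad2 v
    have h5 := hu_nonneg (psi_pos (hS v fun _ _ => 0)) hR.g0
    have h6 := hbad v
    nlinarith
  have good : ∀ v ∈ G, ∫ w, hu (Φ (glue v w)) g ∂Q ≤ 6 / 1000 ∧
      ∫ w, hu (Φ (glue v w)) g ^ 2 ∂Q ≤ 1 / 10 := by
    intro v hv
    rw [hQ]
    simp only [hΦ]
    exact int_good hR (hS v) (hgood v hv) (fun _ _ => 0) m1 m2
  constructor
  · rw [tr1]
    have h1 := int_two (P1 d μ) Q _ j1 G hG (6 / 1000) (13 * (2 + Hb) ^ 2) (by norm_num)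
      (by positivity) (fun v hv => (good v hv).1) bad1
    linarith
  · rw [tr2]
    have h1 := int_two (P1 d μ) Q _ j2 G hG (1 / 10) (13 * (2 + Hb) ^ 2) (by norm_num)
      (by positivity) (fun v hv => (good v hv).2) (fun v => (bad2 v).trans (by
        nlinarith [sq_nonneg (2 + Hb)]))
    linarith

open Classical in
/-- the truncated hopping -/
noncomputable def τn (d : ℕ) (n : ℕ) (t : ℝ) (v : Vt d) : ℝ :=
  if v.1.length < n ∧ v.2 ≠ 0 then t else 0

open Classical in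
/-- the hopping in the subtrees -/
noncomputable def τf (d : ℕ) (t : ℝ) (v : Vt d) : ℝ := if v.2 = 0 then 0 else t

open Classical in
/-- the hopping in the whole graph -/
noncomputable def τh (d : ℕ) (t : ℝ) (v : Vt d) : ℝ := if v.2 = 0 ∧ v.1 ≠ [] then 0 else t

theorem τn_sub (n : ℕ) (t : ℝ) (y : Fin d → ℤ) : τn d (n + 1) t ∘ jp [y] = τn d n t := by
  funext v
  unfold τn jp
  simp

theorem τf_sub (t : ℝ) (y : Fin d → ℤ) : τf d t ∘ jp [y] = τf d t := by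
  funext v
  unfold τf jp
  simp

theorem τh_sub (t : ℝ) (y : Fin d → ℤ) : τh d t ∘ jp [y] = τf d t := by
  funext v
  unfold τf τh jp
  simp

/-- the root Green function of the truncated tree -/
noncomputable def Gn (B lam t : ℝ) (z : ℂ) (n : ℕ) (ω : Vt d → ℝ) : ℂ :=
  GG B (Vn n lam ω) (τn d n t) z (oo d) (oo d)

/-- the root Green function of the subtrees -/
noncomputable def Gf (B lam t : ℝ) (z : ℂ) (ω : Vt d → ℝ) : ℂ :=
  GG B (fun v => lam * ω v) (τf d t) z (oo d) (oo d)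

/-- the root Green function of the whole graph -/
noncomputable def Gh (B lam t : ℝ) (z : ℂ) (ω : Vt d → ℝ) : ℂ :=
  GG B (fun v => lam * ω v) (τh d t) z (oo d) (oo d)

theorem Gn_tendsto (B lam t : ℝ) (z : ℂ) (hz : z.im ≠ 0) (ω : Vt d → ℝ) :
    Tendsto (fun n => Gn B lam t z n ω) atTop (𝓝 (Gf B lam t z ω)) := by
  unfold Gn Gf
  refine GG_tendsto B _ _ _ _ (fun v => ?_) (fun v => ?_) z hz _ _
  · refine tendsto_const_nhds.congr' ?_
    filter_upwards [eventually_gt_atTop v.1.length] with n hn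
    unfold Vn
    rw [if_pos hn]
  · refine tendsto_const_nhds.congr' ?_
    filter_upwards [eventually_gt_atTop v.1.length] with n hn
    unfold τn τf
    by_cases hv : v.2 = 0
    · simp [hv]
    · simp [hv, hn]

theorem Gn_zero (B lam t : ℝ) (z : ℂ) (ω : Vt d → ℝ) :
    Gn B lam t z 0 ω = gg d B z := by
  have h1 : Vn 0 lam ω = fun _ => 0 := by
    funext v
    unfold Vn
    simp
  have h2 : τn d 0 t = fun _ => 0 := by
    funext v
    unfold τn
    simp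
  unfold Gn gg
  rw [h1, h2]

theorem Gn_cont (B lam t : ℝ) (z : ℂ) (hz : z.im ≠ 0) (n : ℕ) :
    Continuous fun ω : Vt d → ℝ => Gn B lam t z n ω := by
  unfold Gn
  refine GG_cont B _ _ ?_ continuous_const z hz _ _
  rw [continuous_pi_iff]
  intro v
  unfold Vn
  split_ifs
  · fun_prop
  · exact continuous_const

theorem Gf_cont (B lam t : ℝ) (z : ℂ) (hz : z.im ≠ 0) :
    Continuous fun ω : Vt d → ℝ => Gf B lam t z ω := by
  unfold Gf
  refine GG_cont B _ _ ?_ continuous_const z hz _ _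
  fun_prop

theorem Gh_cont (B lam t : ℝ) (z : ℂ) (hz : z.im ≠ 0) :
    Continuous fun ω : Vt d → ℝ => Gh B lam t z ω := by
  unfold Gh
  refine GG_cont B _ _ ?_ continuous_const z hz _ _
  fun_prop

theorem rv_n {B lam t : ℝ} {z : ℂ} (h : Dat d B lam t z) (n : ℕ) (P : Measure (Vt d → ℝ)) :
    RV P (Gn B lam t z n) (gg d B z) (1 / z.im) (cG d B z) :=
  ⟨(Gn_cont B lam t z h.z0.ne' n).measurable, fun ω => GG_le B _ _ z h.z0 _ _,
    fun ω => GG_im_lower B _ _ z h.z0 _, cG_pos d B h.z0, h.gpos⟩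

theorem rv_f {B lam t : ℝ} {z : ℂ} (h : Dat d B lam t z) (P : Measure (Vt d → ℝ)) :
    RV P (Gf B lam t z) (gg d B z) (1 / z.im) (cG d B z) :=
  ⟨(Gf_cont B lam t z h.z0.ne').measurable, fun ω => GG_le B _ _ z h.z0 _ _,
    fun ω => GG_im_lower B _ _ z h.z0 _, cG_pos d B h.z0, h.gpos⟩

theorem rv_h {B lam t : ℝ} {z : ℂ} (h : Dat d B lam t z) (P : Measure (Vt d → ℝ)) :
    RV P (Gh B lam t z) (gg d B z) (1 / z.im) (cG d B z) :=
  ⟨(Gh_cont B lam t z h.z0.ne').measurable, fun ω => GG_le B _ _ z h.z0 _ _,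
    fun ω => GG_im_lower B _ _ z h.z0 _, cG_pos d B h.z0, h.gpos⟩

theorem glue_jp (v : (Fin d → ℤ) → ℝ) (w : (Fin d → ℤ) → Vt d → ℝ) (x : Fin d → ℤ) :
    glue v w ∘ jp [x] = w x := by
  funext a
  obtain ⟨l, y⟩ := a
  unfold jp Function.comp
  exact glue_f1 v w x l y

/-- the sheet of the truncated tree -/
theorem shd_n {B lam t : ℝ} {z : ℂ} (h : Dat d B lam t z) (ht1 : t ≤ 1) (n : ℕ)
    (v : (Fin d → ℤ) → ℝ) (w : (Fin d → ℤ) → Vt d → ℝ) :
    Shd d (fun x => 2 * d + Pool.Agent.Y662.TR.clp B (lam * v x)) z (T0 d t)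
      (fun x => Gn B lam t z n (w x)) (gg d B z) 0
      (1 / z.im) (cG d B z)
      (fun x => GG B (Vn (n + 1) lam (glue v w)) (τn d (n + 1) t) z ([], x) ([], 0))
      (Pt B lam t z v) := by
  have h1 := shd0 h ht1 (Vn (n + 1) lam (glue v w)) (τn d (n + 1) t) v (fun x => by
    unfold Vn
    rw [if_pos (by simp), glue_f0]) (by
    unfold τn
    simp) (fun x hx => by
    unfold τn
    rw [if_pos ⟨by simp, hx⟩])
  have h2 : (fun x => Gc B (Vn (n + 1) lam (glue v w)) (τn d (n + 1) t) z [] x) =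
      fun x => Gn B lam t z n (w x) := by
    funext x
    unfold Gc Gn
    rw [Vn_sub, τn_sub, glue_jp]
  rw [h2] at h1
  exact h1

/-- the sheet of the root -/
theorem shd_h {B lam t : ℝ} {z : ℂ} (h : Dat d B lam t z) (ht1 : t ≤ 1)
    (v : (Fin d → ℤ) → ℝ) (w : (Fin d → ℤ) → Vt d → ℝ) :
    Shd d (fun x => 2 * d + Pool.Agent.Y662.TR.clp B (lam * v x)) z (Tc d t)
      (fun x => Gf B lam t z (w x)) (gg d B z) 0
      (1 / z.im) (cG d B z)
      (fun x => GG B (fun a => lam * glue v w a) (τh d t) z ([], x) ([], 0))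
      (Ps B lam (z + (t : ℂ) ^ 2 * gg d B z) v 0) := by
  have h1 := shdc h ht1 (fun a => lam * glue v w a) (τh d t) v (fun x => by
    rw [glue_f0]) (fun x => by
    unfold τh
    simp)
  have h2 : (fun x => Gc B (fun a => lam * glue v w a) (τh d t) z [] x) =
      fun x => Gf B lam t z (w x) := by
    funext x
    unfold Gc Gf
    rw [τh_sub]
    have h3 : (fun a => lam * glue v w a) ∘ jp [x] = fun a => lam * w x a := by
      rw [← glue_jp v w x]
      rfl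
    rw [h3]
  rw [h2] at h1
  exact h1

/-- **the induction** -/
theorem ind {B lam t : ℝ} {z : ℂ} (h : Dat d B lam t z) (ht1 : t ≤ 1) (μ : Measure ℝ)
    [IsProbabilityMeasure μ]
    (m ε Hb : ℝ) (G : Set ((Fin d → ℤ) → ℝ)) (hG : MeasurableSet G)
    (hgood : ∀ v ∈ G, Gd (T0 d t) (gg d B z) m ε (Pt B lam t z v))
    (hbad : ∀ v : (Fin d → ℤ) → ℝ, hu (Pt B lam t z v 0) (gg d B z) ≤ Hb)
    (hP : (P1 d μ).real Gᶜ * (13 * (2 + Hb) ^ 2) ≤ 1 / 1000) (n : ℕ) :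
    ∫ ω, hu (Gn B lam t z n ω) (gg d B z) ∂(PP d μ) ≤ 1 / 100 ∧
    ∫ ω, hu (Gn B lam t z n ω) (gg d B z) ^ 2 ∂(PP d μ) ≤ 1 := by
  induction n with
  | zero =>
    have h1 : ∀ ω : Vt d → ℝ, Gn B lam t z 0 ω = gg d B z := fun ω => Gn_zero B lam t z ω
    simp only [h1, hu_self]
    simp
  | succ n ih =>
    obtain ⟨m1, m2⟩ := ih
    exact step_gen μ m ε Hb G hG (Gn B lam t z n) (Gn B lam t z (n + 1)) (rv_n h n _)
      (rv_n h (n + 1) _) m1 m2 (T0 d t) (fun _ _ => 0) (Pt B lam t z)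
      (fun v x => 2 * d + Pool.Agent.Y662.TR.clp B (lam * v x))
      (fun v w x => GG B (Vn (n + 1) lam (glue v w)) (τn d (n + 1) t) z ([], x) ([], 0))
      (fun v w => rfl) (fun v w => shd_n h ht1 n v w) hgood hbad hP

/-- the moments of the root Green function of the infinite subtrees -/
theorem ind_full {B lam t : ℝ} {z : ℂ} (h : Dat d B lam t z) (ht1 : t ≤ 1) (μ : Measure ℝ)
    [IsProbabilityMeasure μ]
    (m ε Hb : ℝ) (G : Set ((Fin d → ℤ) → ℝ)) (hG : MeasurableSet G)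
    (hgood : ∀ v ∈ G, Gd (T0 d t) (gg d B z) m ε (Pt B lam t z v))
    (hbad : ∀ v : (Fin d → ℤ) → ℝ, hu (Pt B lam t z v 0) (gg d B z) ≤ Hb)
    (hP : (P1 d μ).real Gᶜ * (13 * (2 + Hb) ^ 2) ≤ 1 / 1000) :
    ∫ ω, hu (Gf B lam t z ω) (gg d B z) ∂(PP d μ) ≤ 1 / 100 ∧
    ∫ ω, hu (Gf B lam t z ω) (gg d B z) ^ 2 ∂(PP d μ) ≤ 1 := by
  have h1 := fun n => ind h ht1 μ m ε Hb G hG hgood hbad hP n
  have hlim : ∀ ω : Vt d → ℝ, Tendsto (fun n => hu (Gn B lam t z n ω) (gg d B z)) atTop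
      (𝓝 (hu (Gf B lam t z ω) (gg d B z))) := by
    intro ω
    have h2 := Gn_tendsto B lam t z h.z0.ne' ω
    have hpos : 0 < (Gf B lam t z ω).im := GG_im_pos B _ _ z h.z0 _
    unfold hu
    have h4 := ((h2.sub_const (gg d B z)).norm.pow 2)
    have h5 := ((Complex.continuous_im.tendsto _).comp h2).mul_const (gg d B z).im
    exact h4.div h5 (mul_pos hpos h.gpos).ne'
  constructor
  · refine le_of_tendsto' (f := fun n => ∫ ω, hu (Gn B lam t z n ω) (gg d B z) ∂(PP d μ))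
      (x := atTop) ?_ (fun n => (h1 n).1)
    refine tendsto_integral_of_dominated_convergence
      (fun _ => UU (gg d B z) (1 / z.im) (cG d B z)) (fun n => ?_) (integrable_const _)
      (fun n => Eventually.of_forall fun ω => ?_) (Eventually.of_forall fun ω => hlim ω)
    · exact (rv_n h n (PP d μ)).int1.aestronglyMeasurable
    · rw [Real.norm_eq_abs]
      exact (rv_n h n (PP d μ)).abs ω
  · refine le_of_tendsto' (f := fun n => ∫ ω, hu (Gn B lam t z n ω) (gg d B z) ^ 2 ∂(PP d μ))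
      (x := atTop) ?_ (fun n => (h1 n).2)
    refine tendsto_integral_of_dominated_convergence
      (fun _ => UU (gg d B z) (1 / z.im) (cG d B z) ^ 2) (fun n => ?_) (integrable_const _)
      (fun n => Eventually.of_forall fun ω => ?_) (Eventually.of_forall fun ω => (hlim ω).pow 2)
    · exact (rv_n h n (PP d μ)).int2.aestronglyMeasurable
    · rw [Real.norm_eq_abs, abs_of_nonneg (sq_nonneg _)]
      have := (rv_n h n (PP d μ)).nonneg ω
      have := (rv_n h n (PP d μ)).huU ω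
      gcongr

/-- **the moments of the root Green function of the whole graph** -/
theorem whole {B lam t : ℝ} {z : ℂ} (h : Dat d B lam t z) (ht1 : t ≤ 1) (μ : Measure ℝ)
    [IsProbabilityMeasure μ]
    (m ε Hb : ℝ) (G : Set ((Fin d → ℤ) → ℝ)) (hG : MeasurableSet G)
    (hgood : ∀ v ∈ G, Gd (T0 d t) (gg d B z) m ε (Pt B lam t z v))
    (hbad : ∀ v : (Fin d → ℤ) → ℝ, hu (Pt B lam t z v 0) (gg d B z) ≤ Hb)
    (hgood' : ∀ v ∈ G, Gd (Tc d t) (gg d B z) m ε (Ps B lam (z + (t : ℂ) ^ 2 * gg d B z) v 0))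
    (hbad' : ∀ v : (Fin d → ℤ) → ℝ,
      hu (Ps B lam (z + (t : ℂ) ^ 2 * gg d B z) v 0 0) (gg d B z) ≤ Hb)
    (hP : (P1 d μ).real Gᶜ * (13 * (2 + Hb) ^ 2) ≤ 1 / 1000) :
    ∫ ω, hu (Gh B lam t z ω) (gg d B z) ^ 2 ∂(PP d μ) ≤ 1 := by
  obtain ⟨m1, m2⟩ := ind_full h ht1 μ m ε Hb G hG hgood hbad hP
  exact (step_gen μ m ε Hb G hG (Gf B lam t z) (Gh B lam t z) (rv_f h _) (rv_h h _) m1 m2
    (Tc d t) (fun _ _ => 0) (fun v => Ps B lam (z + (t : ℂ) ^ 2 * gg d B z) v 0)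
    (fun v x => 2 * d + Pool.Agent.Y662.TR.clp B (lam * v x))
    (fun v w x => GG B (fun a => lam * glue v w a) (τh d t) z ([], x) ([], 0))
    (fun v w => rfl) (fun v w => shd_h h ht1 v w) hgood' hbad' hP).2

end Pool.Agent.Y662.FP
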