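import Pool.Agent.Y662.FP.Op
import Pool.Agent.Y662.FP.Good
import Pool.Agent.Y662.TR.Acs

/-! The moment bound on the free product. -/

set_option autoImplicit false
set_option linter.unusedSectionVars false

open scoped BigOperators InnerProductSpace Topology ENNReal
open MeasureTheory Filter

namespace Pool.Agent.Y662.FP

open Pool.Agent.TH369.AN (Rz rz_eq rz_uniq rz_norm)
open Pool.Agent.TH369.MU (SpM ep zk qk Fk qk_sq poisson_ae)
open Pool.Agent.TH369.MU.PO2 (ep_pos ep_tendsto)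
open Pool.Agent.TH794.QD (CH CH_nonneg)
open Pool.Agent.TH794.LL2 (Po Po_int Po_im)
open Pool.Agent.Y662.TR (LL Vt oo GG dv ev ev_apply inner_dv hu hu_nonneg hu_meas hu_im hu_comm gg
  gg_bd gg_hol PP RV Dat rz_two GG_im_pos qk_po zk_eq all_vec fatou_om norm_dv)

variable {d : ℕ}

/-- the law of the environment -/
noncomputable def PG (d : ℕ) (μ : Measure ℝ) : Measure (Gp d → ℝ) :=
  Measure.infinitePi fun _ : Gp d => μ

instance (μ : Measure ℝ) [IsProbabilityMeasure μ] : IsProbabilityMeasure (PG d μ) := by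
  unfold PG
  infer_instance

theorem pi_comp {ι κ : Type} (μ : Measure ℝ) [IsProbabilityMeasure μ] (f : κ → ι)
    (hf : Function.Injective f) :
    (Measure.infinitePi fun _ : ι => μ).map (fun ω x => ω (f x)) =
      Measure.infinitePi fun _ : κ => μ := by
  classical
  apply Measure.eq_infinitePi
  intro s t ht
  have hm : Measurable fun (ω : ι → ℝ) (x : κ) => ω (f x) := by fun_prop
  rw [Measure.map_apply hm (MeasurableSet.pi s.countable_toSet fun i _ => ht i)]
  have h1 : (fun (ω : ι → ℝ) (x : κ) => ω (f x)) ⁻¹' (Set.pi s t) =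
      Set.pi (s.image f : Finset ι) (Function.extend f t (fun _ => Set.univ)) := by
    ext ω
    simp only [Set.mem_preimage, Set.mem_pi, Finset.mem_coe, Finset.mem_image,
      forall_exists_index, and_imp, forall_apply_eq_imp_iff₂]
    constructor
    · intro h x hx
      rw [hf.extend_apply]
      exact h x hx
    · intro h x hx
      have := h x hx
      rw [hf.extend_apply] at this
      exact this
  have h2 : ∀ y, MeasurableSet (Function.extend f t (fun _ => Set.univ) y) := by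
    intro y
    by_cases hy : ∃ x, f x = y
    · obtain ⟨x, rfl⟩ := hy
      rw [hf.extend_apply]
      exact ht x
    · rw [Function.extend_apply' _ _ _ hy]
      exact MeasurableSet.univ
  rw [h1, Measure.infinitePi_pi _ (fun y _ => h2 y), Finset.prod_image (fun x _ y _ h => hf h)]
  refine Finset.prod_congr rfl fun x _ => ?_
  rw [hf.extend_apply]

theorem GT_meas (B lam t : ℝ) (z : ℂ) (hz : z.im ≠ 0) (g : Gp d) :
    Measurable fun ω : Gp d → ℝ => GT B (fun x => lam * ω x) t z g :=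
  (GT_cont B (fun ω : Gp d → ℝ => fun x => lam * ω x) t (by fun_prop) z hz g).measurable

/-- the law of the Green function does not depend on the site -/
theorem law_site (μ : Measure ℝ) [IsProbabilityMeasure μ] (B lam t : ℝ) (ht : |t| ≤ |B|) (z : ℂ)
    (hz : z.im ≠ 0) (F : ℂ → ENNReal) (hF : Measurable F) (h : Gp d) :
    ∫⁻ ω, F (GT B (fun g => lam * ω g) t z h) ∂(PG d μ) =
      ∫⁻ ω, F (Gh B lam t z ω) ∂(PP d μ) := by
  have hm : Measurable fun ω : Gp d → ℝ => F (GT B (fun g => lam * ω g) t z 1) :=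
    hF.comp (GT_meas (d := d) B lam t z hz 1)
  calc ∫⁻ ω, F (GT B (fun g => lam * ω g) t z h) ∂(PG d μ) =
      ∫⁻ ω, F (GT B (fun g => lam * (fun x => ω (h * x)) g) t z 1) ∂(PG d μ) := by
        refine lintegral_congr fun ω => ?_
        rw [GT_trans B _ t z hz h]
    _ = ∫⁻ ω, F (GT B (fun g => lam * ω g) t z 1)
          ∂((PG d μ).map (fun ω x => ω (h * x))) :=
        (lintegral_map hm (by fun_prop)).symm
    _ = ∫⁻ ω, F (GT B (fun g => lam * ω g) t z 1) ∂(PG d μ) := by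
        unfold PG
        rw [pi_comp μ (fun x : Gp d => h * x) (lm_inj h)]
    _ = ∫⁻ ω, F (GT B (fun g => lam * ω g) t z 1)
          ∂((PP d μ).map (fun ω x => ω (Th x))) := by
        unfold PG PP
        rw [pi_comp μ Th Th_inj]
    _ = ∫⁻ ω, F (GT B (fun g => lam * (fun x => ω (Th x)) g) t z 1) ∂(PP d μ) :=
        lintegral_map hm (by fun_prop)
    _ = _ := by
        refine lintegral_congr fun ω => ?_
        unfold Gh
        rw [← GT_one B t ht (fun v => lam * ω v) z hz]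
        rfl

/-- **the moment bound** -/
theorem mom_G (hd : 3 ≤ d) (κ : ℝ) (hκ : 0 < κ) (hκ1 : κ ≤ 1) (b : ℝ) (hb : 0 < b) :
    ∃ m t0 lam0 : ℝ, 0 < m ∧ 0 < t0 ∧ t0 ≤ 1 ∧ 0 < lam0 ∧ lam0 ≤ 1 ∧
      (∀ (B : ℝ) (z : ℂ), 0 < z.im → z.im ≤ 1 → κ ≤ z.re → z.re ≤ 4 * d - κ →
        m ≤ (gg d B z).im) ∧
      ∀ (μ : Measure ℝ) [IsProbabilityMeasure μ], (∀ᵐ s ∂μ, |s| ≤ b) →
      ∀ lam : ℝ, 0 < lam → lam ≤ lam0 →
        ∀ t : ℝ, lam ^ (26 / 25 : ℝ) ≤ t → t ≤ t0 →
        ∀ z : ℂ, 0 < z.im → z.im ≤ t ^ 2 → κ ≤ z.re → z.re ≤ 4 * d - κ → ∀ h : Gp d,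
          ∫⁻ ω, ENNReal.ofReal (hu (GT (b + 1) (fun g => lam * ω g) t z h) (gg d (b + 1) z) ^ 2)
            ∂(PG d μ) ≤ 1 := by
  obtain ⟨m, t0, lam0, h1, h2, h3, h4, h5, h6, h7⟩ := mom hd κ hκ hκ1 b hb
  refine ⟨m, t0, lam0, h1, h2, h3, h4, h5, h6, ?_⟩
  intro μ hμ hμb lam hlam hlam0 t ht ht0 z hz hz1 hz2 hz3 h
  have htp : 0 < t := (Real.rpow_pos_of_pos hlam _).trans_le ht
  have htB : |t| ≤ |b + 1| := by
    rw [abs_of_pos htp, abs_of_pos (by linarith : (0 : ℝ) < b + 1)]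
    linarith
  rw [law_site μ (b + 1) lam t htB z hz.ne'
    (fun a => ENNReal.ofReal (hu a (gg d (b + 1) z) ^ 2))
    ((hu_meas _).pow_const 2).ennreal_ofReal h]
  have hD : Dat d (b + 1) lam t z := ⟨hz, htp, by linarith⟩
  have hR := rv_h hD (PP d μ)
  have h8 := h7 μ hμb lam hlam hlam0 t ht ht0 z hz hz1 hz2 hz3
  rw [← ofReal_integral_eq_lintegral_ofReal hR.int2 (Eventually.of_forall fun ω => sq_nonneg _)]
  exact (ENNReal.ofReal_le_ofReal h8).trans (le_of_eq ENNReal.ofReal_one)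

end Pool.Agent.Y662.FP
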