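import Pool.Agent.Y662.FP.Grp
import Pool.Agent.Y662.FP.Ind
import Pool.Agent.Y662.TR.Res

/-! The Anderson model on the free product of `ℤ^d` and `ℤ/2`. -/

set_option autoImplicit false
set_option linter.unusedSectionVars false

open scoped BigOperators InnerProductSpace Topology
open Filter

namespace Pool.Agent.Y662.FP

open Pool.Agent.TH369.AN (Rz rz_eq rz_uniq rz_norm)
open Pool.Agent.Y662.TR (LL Cf Cf_apply Cf_adj Cf_adj_ne Cf_dv Mw Mw_apply Mw_sa Mw_tendsto Vt oo ch sh
  clp clp_eq clp_abs clp_zero par TT TT_apply TT_sa GG dv dv_self dv_ne ev ev_apply ll_ext inner_dv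
  add_adj_sa smul_coord sub_coord ll_inner)

variable {d : ℕ}

theorem rm_inj (h : Gp d) : Function.Injective fun g : Gp d => g * h := mul_left_injective h

theorem lm_inj (h : Gp d) : Function.Injective fun g : Gp d => h * g := mul_right_injective h

/-- the operator -/
noncomputable def TG (B : ℝ) (V : Gp d → ℝ) (t : ℝ) : LL (Gp d) →L[ℂ] LL (Gp d) :=
  ((2 * d : ℝ) : ℂ) • 1 + Mw B V - ∑ i : Fin d,
    (Cf (fun g : Gp d => g * li (Pi.single i 1)) (rm_inj _) +
    ContinuousLinearMap.adjoint (Cf (fun g : Gp d => g * li (Pi.single i 1)) (rm_inj _))) +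
    (t : ℂ) • Cf (fun g : Gp d => g * ss) (rm_inj _)

theorem rm_adj (h : Gp d) (u : LL (Gp d)) (g : Gp d) :
    ContinuousLinearMap.adjoint (Cf (fun g : Gp d => g * h) (rm_inj h)) u g = u (g * h⁻¹) := by
  have h1 : g = (fun g : Gp d => g * h) (g * h⁻¹) := by simp
  conv_lhs => rw [h1]
  rw [Cf_adj]

theorem ss_inv : (ss : Gp d)⁻¹ = ss := by
  rw [inv_eq_iff_mul_eq_one]
  exact ss_ss

theorem ss_sa : IsSelfAdjoint (Cf (fun g : Gp d => g * ss) (rm_inj _)) := by
  rw [isSelfAdjoint_iff, ContinuousLinearMap.star_eq_adjoint]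
  apply ContinuousLinearMap.ext
  intro u
  apply ll_ext
  intro g
  rw [rm_adj, ss_inv]
  rfl

theorem TG_sa (B : ℝ) (V : Gp d → ℝ) (t : ℝ) : IsSelfAdjoint (TG B V t) := by
  unfold TG
  refine IsSelfAdjoint.add (IsSelfAdjoint.sub (IsSelfAdjoint.add ?_ (Mw_sa B V)) ?_) ?_
  · rw [isSelfAdjoint_iff, star_smul, star_one]
    congr 1
    exact Complex.conj_ofReal _
  · exact isSelfAdjoint_sum _ fun i _ => add_adj_sa _
  · rw [isSelfAdjoint_iff, star_smul, (ss_sa (d := d)).star_eq]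
    congr 1
    exact Complex.conj_ofReal _

/-- the action of the operator -/
theorem TG_apply (B : ℝ) (V : Gp d → ℝ) (t : ℝ) (u : LL (Gp d)) (g : Gp d) :
    TG B V t u g = -∑ i : Fin d, (u (g * li (Pi.single i 1)) + u (g * (li (Pi.single i 1))⁻¹)) +
      ((2 * d + clp B (V g) : ℝ) : ℂ) * u g + (t : ℂ) * u (g * ss) := by
  unfold TG
  rw [← ev_apply g]
  simp only [ContinuousLinearMap.add_apply, ContinuousLinearMap.sub_apply,
    ContinuousLinearMap.smul_apply, ContinuousLinearMap.one_apply, map_add, map_sub, map_smul,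
    ContinuousLinearMap.sum_apply, map_sum, ev_apply, Mw_apply, Cf_apply, rm_adj]
  push_cast
  simp only [smul_eq_mul]
  ring

/-- the extension by zero -/
noncomputable def Wx (d : ℕ) : LL (Gp d) →L[ℂ] LL (Vt d) :=
  ContinuousLinearMap.adjoint (Cf Th Th_inj)

theorem Wx_Th (u : LL (Gp d)) (g : Gp d) : Wx d u (Th g) = u g := by
  unfold Wx
  rw [Cf_adj]

theorem Wx_ne (u : LL (Gp d)) (p : Vt d) (hp : ¬ Rl p.1) : Wx d u p = 0 := by
  unfold Wx
  refine Cf_adj_ne _ _ _ _ fun g hg => hp ?_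
  rw [← hg]
  exact Th_red g

theorem Wx_dv : Wx d (dv 1) = dv (oo d) := by
  apply ll_ext
  intro p
  by_cases hp : Rl p.1
  · obtain ⟨g, rfl⟩ := (Th_range p).2 hp
    rw [Wx_Th]
    by_cases hg : g = 1
    · subst hg
      rw [dv_self, Th_one, dv_self]
    · rw [dv_ne hg, dv_ne]
      rw [← Th_one]
      exact fun h => hg (Th_inj h)
  · rw [Wx_ne _ _ hp, dv_ne]
    rintro rfl
    exact hp trivial

theorem th_shift (g : Gp d) (e : Fin d → ℤ) (u : LL (Gp d)) :
    Wx d u ((Th g).1, (Th g).2 + e) = u (g * li e) := by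
  rw [← Th_li, Wx_Th]

theorem key_in (B t : ℝ) (ht : |t| ≤ |B|) (u : LL (Gp d)) (p : Vt d) (hp : Rl p.1) :
    ((clp B (τh d t p) : ℝ) : ℂ) * Wx d u (ch p) +
        par B (τh d t) (fun w => Wx d u w) p = (t : ℂ) * Wx d u (swf p) := by
  obtain ⟨l, x⟩ := p
  by_cases h : x ≠ 0 ∨ l = []
  · have h1 : swf ((l, x) : Vt d) = (x :: l, 0) := by
      unfold swf
      rw [if_pos h]
    have h2 : τh d t (l, x) = t := by
      unfold τh
      rw [if_neg]
      rintro ⟨h3, h4⟩
      rcases h with h | h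
      · exact h h3
      · exact h4 h
    have h3 : par B (τh d t) (fun w => Wx d u w) (l, x) = 0 := by
      cases l with
      | nil => rfl
      | cons y l =>
        have hx : x ≠ 0 := by
          rcases h with h | h
          · exact h
          · exact absurd h (by simp)
        unfold par
        simp [hx]
    rw [h1, h2, h3, clp_eq ht, add_zero]
    rfl
  · push Not at h
    obtain ⟨hx, hl⟩ := h
    cases l with
    | nil => exact absurd rfl hl
    | cons y l =>
      subst hx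
      have h1 : swf ((y :: l, 0) : Vt d) = (l, y) := by
        unfold swf
        rw [if_neg (by simp)]
        simp
      have h2 : τh d t (y :: l, 0) = 0 := by
        unfold τh
        simp
      have h4 : τh d t (l, y) = t := by
        unfold τh
        rw [if_neg]
        rintro ⟨h3, h4⟩
        rcases hp.1 with h | h
        · exact h h3
        · exact h4 h
      have h3 : par B (τh d t) (fun w => Wx d u w) (y :: l, 0) = (t : ℂ) * Wx d u (l, y) := by
        unfold par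
        simp only [if_true]
        rw [h4, clp_eq ht]
      rw [h1, h2, h3, clp_zero]
      simp

theorem key_out (B t : ℝ) (u : LL (Gp d)) (p : Vt d) (hp : ¬ Rl p.1) :
    ((clp B (τh d t p) : ℝ) : ℂ) * Wx d u (ch p) +
        par B (τh d t) (fun w => Wx d u w) p = 0 := by
  have h1 : Wx d u (ch p) = 0 := Wx_ne _ _ fun h => hp h.2
  rw [h1, mul_zero, zero_add]
  obtain ⟨l, x⟩ := p
  cases l with
  | nil => exact absurd trivial hp
  | cons y l =>
    unfold par
    by_cases hx : x = 0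
    · simp only [hx, if_true]
      by_cases h2 : Rl l
      · have h3 : ¬ (y ≠ 0 ∨ l = []) := fun h => hp ⟨h, h2⟩
        push Not at h3
        have h4 : τh d t (l, y) = 0 := by
          unfold τh
          rw [if_pos h3]
        rw [h4, clp_zero]
        simp
      · rw [Wx_ne _ _ h2, mul_zero]
    · simp [hx]

/-- **the free product is a tree of sheets** -/
theorem twine (B t : ℝ) (ht : |t| ≤ |B|) (V : Vt d → ℝ) (u : LL (Gp d)) :
    TT B V (τh d t) (Wx d u) = Wx d (TG B (V ∘ Th) t u) := by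
  apply ll_ext
  intro p
  rw [TT_apply]
  by_cases hp : Rl p.1
  · obtain ⟨g, rfl⟩ := (Th_range p).2 hp
    rw [Wx_Th, Wx_Th, TG_apply]
    have h1 : ∀ i : Fin d, Wx d u ((Th g).1, (Th g).2 + Pi.single i 1) =
        u (g * li (Pi.single i 1)) := fun i => th_shift g _ u
    have h2 : ∀ i : Fin d, Wx d u ((Th g).1, (Th g).2 - Pi.single i 1) =
        u (g * (li (Pi.single i 1))⁻¹) := by
      intro i
      rw [← li_neg, ← th_shift, sub_eq_add_neg]
    simp only [h1, h2]
    have h3 : u (g * ss) = Wx d u (swf (Th g)) := by rw [← Th_ss, Wx_Th]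
    rw [h3]
    have key := key_in B t ht u (Th g) hp
    have h4 : (V ∘ Th) g = V (Th g) := rfl
    rw [h4, add_assoc, key]
  · rw [Wx_ne _ _ hp, Wx_ne _ _ hp]
    have h1 : ∀ e : Fin d → ℤ, Wx d u (p.1, e) = 0 := fun e => Wx_ne _ _ hp
    have key := key_out B t u p hp
    simp only [h1]
    have h2 : -∑ _i : Fin d, ((0 : ℂ) + 0) = 0 := by simp
    rw [mul_zero, add_zero, h2, zero_add]
    exact key

/-- the diagonal of the Green function -/
noncomputable def GT (B : ℝ) (V : Gp d → ℝ) (t : ℝ) (z : ℂ) (g : Gp d) : ℂ :=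
  Rz (TG B V t) z (dv g) g

theorem GT_one (B t : ℝ) (ht : |t| ≤ |B|) (V : Vt d → ℝ) (z : ℂ) (hz : z.im ≠ 0) :
    GT B (V ∘ Th) t z 1 = GG B V (τh d t) z (oo d) (oo d) := by
  unfold GT GG
  have h1 : Wx d (Rz (TG B (V ∘ Th) t) z (dv 1)) = Rz (TT B V (τh d t)) z (dv (oo d)) := by
    apply rz_uniq _ (TT_sa _ _ _) z hz
    rw [twine B t ht, ← Wx_dv, ← map_smul, ← map_sub, rz_eq _ (TG_sa _ _ _) z hz]
  rw [← h1, ← Th_one, Wx_Th]

/-- the translations -/
theorem lm_TG (B : ℝ) (V : Gp d → ℝ) (t : ℝ) (h : Gp d) (u : LL (Gp d)) :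
    TG B (fun g => V (h * g)) t (Cf (fun g : Gp d => h * g) (lm_inj h) u) =
      Cf (fun g : Gp d => h * g) (lm_inj h) (TG B V t u) := by
  apply ll_ext
  intro g
  rw [Cf_apply, TG_apply, TG_apply]
  simp only [Cf_apply, mul_assoc]

theorem GT_trans (B : ℝ) (V : Gp d → ℝ) (t : ℝ) (z : ℂ) (hz : z.im ≠ 0) (h : Gp d) :
    GT B V t z h = GT B (fun g => V (h * g)) t z 1 := by
  unfold GT
  have h1 : Cf (fun g : Gp d => h * g) (lm_inj h) (Rz (TG B V t) z (dv h)) =
      Rz (TG B (fun g => V (h * g)) t) z (dv 1) := by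
    apply rz_uniq _ (TG_sa _ _ _) z hz
    rw [lm_TG, ← map_smul, ← map_sub, rz_eq _ (TG_sa _ _ _) z hz]
    have h2 : (dv h : LL (Gp d)) = dv ((fun g : Gp d => h * g) 1) := by
      simp
    rw [h2, Cf_dv]
  rw [← h1, Cf_apply, mul_one]

/-- strong continuity of the operator in the environment -/
theorem TG_tendsto {α : Type*} {F : Filter α} (B : ℝ) (V : α → Gp d → ℝ) (V0 : Gp d → ℝ) (t : ℝ)
    (hV : ∀ x, Tendsto (fun k => V k x) F (𝓝 (V0 x))) (u : LL (Gp d)) :
    Tendsto (fun k => TG B (V k) t u) F (𝓝 (TG B V0 t u)) := by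
  unfold TG
  simp only [ContinuousLinearMap.add_apply, ContinuousLinearMap.sub_apply]
  exact (((tendsto_const_nhds).add (Mw_tendsto B V V0 hV u)).sub tendsto_const_nhds).add
    tendsto_const_nhds

theorem rz_sub' {X : Type} [NormedAddCommGroup X] [InnerProductSpace ℂ X] [CompleteSpace X]
    (A : X →L[ℂ] X) (hA : IsSelfAdjoint A) (A' : X →L[ℂ] X) (hA' : IsSelfAdjoint A') (z : ℂ)
    (hz : z.im ≠ 0) (u : X) : Rz A z u - Rz A' z u = Rz A z (A' (Rz A' z u) - A (Rz A' z u)) := by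
  apply rz_uniq A hA z hz
  have h1 := rz_eq A hA z hz u
  have h2 := rz_eq A' hA' z hz u
  rw [map_sub, smul_sub]
  have h4 : A' (Rz A' z u) = u + z • Rz A' z u := sub_eq_iff_eq_add.1 h2
  rw [h4]
  have h5 : A (Rz A z u) = u + z • Rz A z u := sub_eq_iff_eq_add.1 h1
  rw [h5]
  abel

/-- strong continuity of the resolvent in the environment -/
theorem RG_tendsto {α : Type*} {F : Filter α} (B : ℝ) (V : α → Gp d → ℝ) (V0 : Gp d → ℝ) (t : ℝ)
    (hV : ∀ x, Tendsto (fun k => V k x) F (𝓝 (V0 x))) (z : ℂ) (hz : z.im ≠ 0) (u : LL (Gp d)) :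
    Tendsto (fun k => Rz (TG B (V k) t) z u) F (𝓝 (Rz (TG B V0 t) z u)) := by
  rw [tendsto_iff_norm_sub_tendsto_zero]
  have h1 := TG_tendsto B V V0 t hV (Rz (TG B V0 t) z u)
  rw [tendsto_iff_norm_sub_tendsto_zero] at h1
  have h2 := h1.div_const |z.im|
  rw [zero_div] at h2
  refine squeeze_zero (fun k => norm_nonneg _) (fun k => ?_) h2
  rw [rz_sub' _ (TG_sa _ _ _) _ (TG_sa _ _ _) z hz u]
  refine (rz_norm _ (TG_sa _ _ _) z hz _).trans (le_of_eq ?_)
  rw [norm_sub_rev]

theorem GT_cont {Y : Type*} [TopologicalSpace Y] (B : ℝ) (V : Y → Gp d → ℝ) (t : ℝ)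
    (hV : Continuous V) (z : ℂ) (hz : z.im ≠ 0) (g : Gp d) :
    Continuous fun y => GT B (V y) t z g := by
  rw [continuous_iff_continuousAt]
  intro y0
  have h1 : ∀ x, Tendsto (fun y => V y x) (𝓝 y0) (𝓝 (V y0 x)) := fun x =>
    ((continuous_apply x).comp hV).tendsto y0
  have h2 := RG_tendsto B V (V y0) t h1 z hz (dv g)
  exact ((ev g).continuous.tendsto _).comp h2

end Pool.Agent.Y662.FP
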