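import Pool.Agent.Y662.FP.Step
import Pool.Agent.Y662.TR.Ind
import Pool.Agent.Y662.TR.Mom

/-! The reference sheets: with all couplings, and without the coupling of the origin. -/

set_option autoImplicit false
set_option linter.unusedSectionVars false

open scoped BigOperators Topology ENNReal
open MeasureTheory Filter ProbabilityTheory

namespace Pool.Agent.Y662.FP

open Pool.Agent.W788.LD.Spec (S)
open Pool.Agent.TH794.QD (CH CH_nonneg)
open Pool.Agent.Y662.TR (hu hu_nonneg Vt oo gg GG GG_le GG_im_lower GG_im_pos Gc cG cG_pos Ps ps_eq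
  coord_sq clp clp_zero clp_eq clp_abs root_eq Dat t2_im energy gg_bd norm_z_pos HB hb_bad Vr)

variable {d : ℕ}

/-- all couplings -/
def Tc (d : ℕ) (t : ℝ) (_ : Fin d → ℤ) : ℝ := t ^ 2

open Classical in
/-- no coupling at the origin -/
noncomputable def T0 (d : ℕ) (t : ℝ) (x : Fin d → ℤ) : ℝ := if x = 0 then 0 else t ^ 2

theorem T0_zero (t : ℝ) : T0 d t 0 = 0 := by
  unfold T0
  simp

theorem T0_ne (t : ℝ) {x : Fin d → ℤ} (hx : x ≠ 0) : T0 d t x = t ^ 2 := by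
  unfold T0
  rw [if_neg hx]

theorem T0_nonneg (t : ℝ) (x : Fin d → ℤ) : 0 ≤ T0 d t x := by
  unfold T0
  split_ifs
  · exact le_rfl
  · positivity

theorem T0_le (t : ℝ) (x : Fin d → ℤ) : T0 d t x ≤ t ^ 2 := by
  unfold T0
  split_ifs
  · positivity
  · exact le_rfl

/-- the denominator -/
noncomputable def dn (B lam t : ℝ) (z : ℂ) (v : (Fin d → ℤ) → ℝ) : ℂ :=
  1 + (t : ℂ) ^ 2 * gg d B z * Ps B lam (z + (t : ℂ) ^ 2 * gg d B z) v 0 0

/-- the reference function without the coupling of the origin -/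
noncomputable def Pt (B lam t : ℝ) (z : ℂ) (v : (Fin d → ℤ) → ℝ) (x : Fin d → ℤ) : ℂ :=
  Ps B lam (z + (t : ℂ) ^ 2 * gg d B z) v 0 x / dn B lam t z v

/-- the equation, before the normalisation -/
theorem ps_eq0 {B lam t : ℝ} {z : ℂ} (h : Dat d B lam t z) (v : (Fin d → ℤ) → ℝ)
    (x : Fin d → ℤ) :
    -S (Ps B lam (z + (t : ℂ) ^ 2 * gg d B z) v 0) x +
      (((2 * d + clp B (lam * v x) : ℝ) : ℂ) - z - ((T0 d t x : ℝ) : ℂ) * gg d B z) *
        Ps B lam (z + (t : ℂ) ^ 2 * gg d B z) v 0 x = if x = 0 then dn B lam t z v else 0 := by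
  have h1 := ps_eq B lam (z + (t : ℂ) ^ 2 * gg d B z) h.ζpos.ne' v 0 x
  by_cases hx : x = 0
  · subst hx
    rw [if_pos rfl] at h1 ⊢
    rw [T0_zero]
    unfold dn
    push_cast at h1 ⊢
    linear_combination h1
  · rw [if_neg hx] at h1 ⊢
    rw [T0_ne t hx]
    push_cast at h1 ⊢
    linear_combination h1

theorem dn_ne {B lam t : ℝ} {z : ℂ} (h : Dat d B lam t z) (v : (Fin d → ℤ) → ℝ) :
    dn B lam t z v ≠ 0 := by
  intro h0
  have hg := h.gpos
  have hz := h.z0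
  have h1 := energy (fun x => 2 * d + clp B (lam * v x)) z
    (fun x => ((T0 d t x : ℝ) : ℂ) * gg d B z) (t ^ 2 * ‖gg d B z‖) (fun x => by
      rw [norm_mul, Complex.norm_real, Real.norm_of_nonneg (T0_nonneg t x)]
      have := T0_le t x
      gcongr)
    (Ps B lam (z + (t : ℂ) ^ 2 * gg d B z) v 0) (fun _ => 0) (coord_sq B _ _ _ 0)
    (by simpa using (summable_zero : Summable fun _ : Fin d → ℤ => (0 : ℝ))) (fun x => by
      rw [ps_eq0 h v x, h0]
      simp)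
  simp only [Complex.im_ofReal_mul, mul_zero, tsum_zero, Complex.zero_im, neg_zero] at h1
  have hs : Summable fun x => (z.im + T0 d t x * (gg d B z).im) *
      ‖Ps B lam (z + (t : ℂ) ^ 2 * gg d B z) v 0 x‖ ^ 2 := by
    refine Summable.of_nonneg_of_le (fun x => ?_) (fun x => ?_)
      ((coord_sq B (Vr lam v) (fun _ => 0) (z + (t : ℂ) ^ 2 * gg d B z) 0).mul_left
        (z.im + t ^ 2 * (gg d B z).im))
    · have := T0_nonneg t x
      positivity
    · have := T0_le t x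
      have := T0_nonneg t x
      unfold Ps
      gcongr
  have h2 : ∀ x, Ps B lam (z + (t : ℂ) ^ 2 * gg d B z) v 0 x = 0 := by
    intro x
    by_contra hx
    have h3 : 0 < ∑' x, (z.im + T0 d t x * (gg d B z).im) *
        ‖Ps B lam (z + (t : ℂ) ^ 2 * gg d B z) v 0 x‖ ^ 2 := by
      refine hs.tsum_pos (fun x => ?_) x ?_
      · have := T0_nonneg t x
        positivity
      · have := T0_nonneg t x
        have := norm_pos_iff.2 hx
        positivity
    linarith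
  have h4 := ps_eq B lam (z + (t : ℂ) ^ 2 * gg d B z) h.ζpos.ne' v 0 0
  have h5 : S (Ps B lam (z + (t : ℂ) ^ 2 * gg d B z) v 0) 0 = 0 := by
    unfold S
    simp [h2]
  rw [h5, h2] at h4
  simp at h4

theorem pt_sq {B lam t : ℝ} {z : ℂ} (v : (Fin d → ℤ) → ℝ) :
    Summable fun x => ‖Pt B lam t z v x‖ ^ 2 := by
  unfold Pt
  simp only [norm_div, div_pow]
  exact (coord_sq B (Vr lam v) (fun _ => 0) (z + (t : ℂ) ^ 2 * gg d B z) 0).div_const _

/-- the equation of the reference function -/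
theorem pt_eq {B lam t : ℝ} {z : ℂ} (h : Dat d B lam t z) (v : (Fin d → ℤ) → ℝ)
    (x : Fin d → ℤ) :
    -S (Pt B lam t z v) x +
      (((2 * d + clp B (lam * v x) : ℝ) : ℂ) - z - ((T0 d t x : ℝ) : ℂ) * gg d B z) *
        Pt B lam t z v x = if x = 0 then 1 else 0 := by
  have h1 := ps_eq0 h v x
  have h2 := dn_ne h v
  have h3 : S (Pt B lam t z v) x =
      S (Ps B lam (z + (t : ℂ) ^ 2 * gg d B z) v 0) x / dn B lam t z v := by
    unfold S Pt
    rw [Finset.sum_div]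
    refine Finset.sum_congr rfl fun i _ => ?_
    ring
  have h4 : (if x = 0 then (1 : ℂ) else 0) =
      (if x = 0 then dn B lam t z v else 0) / dn B lam t z v := by
    split_ifs
    · rw [div_self h2]
    · simp
  rw [h3, h4, ← h1]
  unfold Pt
  ring

/-- a sheet without the coupling of the origin -/
theorem shd0 {B lam t : ℝ} {z : ℂ} (h : Dat d B lam t z) (ht1 : t ≤ 1) (V τ : Vt d → ℝ)
    (v : (Fin d → ℤ) → ℝ) (hV : ∀ x, V ([], x) = lam * v x) (hτ0 : τ ([], 0) = 0)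
    (hτ : ∀ x, x ≠ 0 → τ ([], x) = t) :
    Shd d (fun x => 2 * d + clp B (lam * v x)) z (T0 d t) (fun x => Gc B V τ z [] x) (gg d B z) 0
      (1 / z.im) (cG d B z) (fun x => GG B V τ z ([], x) ([], 0)) (Pt B lam t z v) := by
  have ht2 : t ^ 2 ≤ 1 := pow_le_one₀ h.t0.le ht1
  refine ⟨h.z0, T0_nonneg t, fun x => (T0_le t x).trans ht2, h.gpos, cG_pos d B h.z0, fun x => ?_,
    fun x => ?_, coord_sq B V τ z 0, pt_sq v, fun x => ?_, fun x => ?_⟩
  · exact GG_le B _ _ z h.z0 _ _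
  · exact GG_im_lower B _ _ z h.z0 _
  · have h1 := root_eq B V τ z h.z0.ne' 0 x
    have h2 : ((clp B (τ ([], x)) : ℝ) : ℂ) ^ 2 = ((T0 d t x : ℝ) : ℂ) := by
      by_cases hx : x = 0
      · subst hx
        rw [hτ0, clp_zero, T0_zero]
        simp
      · rw [hτ x hx, clp_eq (B := B) (x := t) (by
          rw [abs_of_pos h.t0]
          exact h.tB.trans (le_abs_self B)), T0_ne t hx]
        push_cast
        rfl
    rw [hV, h2] at h1
    rw [← h1]
    unfold S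
    rfl
  · exact pt_eq h v x

/-- a sheet with all couplings -/
theorem shdc {B lam t : ℝ} {z : ℂ} (h : Dat d B lam t z) (ht1 : t ≤ 1) (V τ : Vt d → ℝ)
    (v : (Fin d → ℤ) → ℝ) (hV : ∀ x, V ([], x) = lam * v x) (hτ : ∀ x, τ ([], x) = t) :
    Shd d (fun x => 2 * d + clp B (lam * v x)) z (Tc d t) (fun x => Gc B V τ z [] x) (gg d B z) 0
      (1 / z.im) (cG d B z) (fun x => GG B V τ z ([], x) ([], 0))
      (Ps B lam (z + (t : ℂ) ^ 2 * gg d B z) v 0) := by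
  have ht2 : t ^ 2 ≤ 1 := pow_le_one₀ h.t0.le ht1
  refine ⟨h.z0, fun x => by unfold Tc; positivity, fun x => ht2, h.gpos, cG_pos d B h.z0,
    fun x => ?_, fun x => ?_, coord_sq B V τ z 0, coord_sq B _ _ _ 0, fun x => ?_, fun x => ?_⟩
  · exact GG_le B _ _ z h.z0 _ _
  · exact GG_im_lower B _ _ z h.z0 _
  · have h1 := root_eq B V τ z h.z0.ne' 0 x
    rw [hV, hτ, clp_eq (B := B) (x := t) (by
      rw [abs_of_pos h.t0]
      exact h.tB.trans (le_abs_self B))] at h1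
    rw [← h1]
    unfold S Tc
    push_cast
    rfl
  · have h1 := ps_eq B lam (z + (t : ℂ) ^ 2 * gg d B z) h.ζpos.ne' v 0 x
    rw [← h1]
    unfold Tc
    push_cast
    ring

/-- good sheets with all couplings -/
theorem gdc {B lam t : ℝ} {z : ℂ} (v : (Fin d → ℤ) → ℝ) (m ε : ℝ)
    (hG : Pool.Agent.Y662.TR.Gd t (gg d B z) m ε (Ps B lam (z + (t : ℂ) ^ 2 * gg d B z) v 0)) :
    Gd (Tc d t) (gg d B z) m ε (Ps B lam (z + (t : ℂ) ^ 2 * gg d B z) v 0) := by
  refine ⟨hG.one, ?_, hG.three, hG.m0, hG.gm, hG.e0, hG.em, hG.e1⟩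
  have := hG.two
  unfold Tc
  push_cast
  exact this

/-- good sheets without the coupling of the origin -/
theorem gd0 (hd : 3 ≤ d) {B lam t : ℝ} {z : ℂ} (h : Dat d B lam t z) (v : (Fin d → ℤ) → ℝ)
    (m ε ε' : ℝ)
    (hG : Pool.Agent.Y662.TR.Gd t (gg d B z) m ε (Ps B lam (z + (t : ℂ) ^ 2 * gg d B z) v 0))
    (he : 8 * ε ≤ ε') (he1 : ε' ≤ m / 100) (he2 : ε' ≤ 1 / 100000)
    (ht : t ^ 2 * (CH d + 2) ^ 3 ≤ ε) : Gd (T0 d t) (gg d B z) m ε' (Pt B lam t z v) := by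
  obtain ⟨g, hg⟩ : ∃ g, g = gg d B z := ⟨_, rfl⟩
  obtain ⟨ψ, hψ⟩ : ∃ ψ, ψ = Ps B lam (z + (t : ℂ) ^ 2 * gg d B z) v 0 := ⟨_, rfl⟩
  obtain ⟨D, hD⟩ : ∃ D, D = dn B lam t z v := ⟨_, rfl⟩
  have hDne : D ≠ 0 := by rw [hD]; exact dn_ne h v
  have hDeq : D = 1 + (t : ℂ) ^ 2 * g * ψ 0 := by rw [hD, hg, hψ]; rfl
  have hPt : ∀ x, Pt B lam t z v x = ψ x / D := by
    intro x
    rw [hψ, hD]
    rfl
  rw [← hψ] at hG
  rw [← hg] at hG ⊢
  have hCH := CH_nonneg d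
  have hgb : ‖g‖ ≤ CH d + 1 := by rw [hg]; exact gg_bd hd B z h.z0
  have hε0 := hG.e0
  have hε1 := hG.e1
  have hψb : ‖ψ 0‖ ≤ CH d + 2 := by
    have h1 := norm_add_le (ψ 0 - g) g
    rw [sub_add_cancel] at h1
    have := hG.one
    linarith
  have hD1 : ‖D - 1‖ ≤ t ^ 2 * (CH d + 2) ^ 2 := by
    rw [hDeq, add_sub_cancel_left, norm_mul, norm_mul, norm_pow, Complex.norm_real,
      Real.norm_eq_abs, sq_abs]
    calc t ^ 2 * ‖g‖ * ‖ψ 0‖ ≤ t ^ 2 * (CH d + 2) * (CH d + 2) := by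
          gcongr
          linarith
      _ = _ := by ring
  have hD1e : ‖D - 1‖ ≤ ε := by
    refine hD1.trans (le_trans ?_ ht)
    have h1 : (CH d + 2) ^ 2 ≤ (CH d + 2) ^ 3 := pow_le_pow_right₀ (by linarith) (by norm_num)
    gcongr
  have hDn : 1 / 2 ≤ ‖D‖ := by
    have h1 := norm_sub_norm_le (1 : ℂ) D
    rw [norm_one, norm_sub_rev] at h1
    linarith
  have hD0 : 0 < ‖D‖ := by linarith
  have hinv : ‖D‖⁻¹ ≤ 2 := by
    rw [inv_le_comm₀ hD0 (by norm_num)]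
    linarith
  refine ⟨?_, ?_, ?_, hG.m0, hG.gm, by linarith, he1, he2⟩
  · rw [hPt]
    have h1 : ψ 0 / D - g = (ψ 0 - g) / D + (-(g * (D - 1)) / D) := by
      field_simp
      ring
    rw [h1]
    refine (norm_add_le _ _).trans ?_
    rw [norm_div, norm_div, norm_neg, norm_mul, div_eq_mul_inv, div_eq_mul_inv]
    have h2 : ‖ψ 0 - g‖ * ‖D‖⁻¹ ≤ ε * 2 := by
      have := hG.one
      gcongr
    have h3 : ‖g‖ * ‖D - 1‖ * ‖D‖⁻¹ ≤ ε * 2 := by
      have h4 : ‖g‖ * ‖D - 1‖ ≤ ε := by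
        calc ‖g‖ * ‖D - 1‖ ≤ (CH d + 2) * (t ^ 2 * (CH d + 2) ^ 2) := by
              gcongr
              linarith
          _ = t ^ 2 * (CH d + 2) ^ 3 := by ring
          _ ≤ ε := ht
      gcongr
    linarith
  · have h1 : ∀ x, ((T0 d t x : ℝ) : ℂ) * Pt B lam t z v x ^ 2 =
        ((t : ℂ) ^ 2 * ψ x ^ 2 - (if x = 0 then (t : ℂ) ^ 2 * ψ 0 ^ 2 else 0)) / D ^ 2 := by
      intro x
      rw [hPt]
      by_cases hx : x = 0
      · subst hx
        rw [T0_zero, if_pos rfl]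
        simp
      · rw [T0_ne t hx, if_neg hx]
        push_cast
        field_simp
        ring
    have hs1 : Summable fun x => (t : ℂ) ^ 2 * ψ x ^ 2 := by
      refine Summable.mul_left _ (Summable.of_norm ?_)
      simp only [norm_pow]
      rw [hψ]
      exact coord_sq B (Vr lam v) (fun _ => 0) (z + (t : ℂ) ^ 2 * gg d B z) 0
    have hs2 : Summable fun x : Fin d → ℤ => (if x = 0 then (t : ℂ) ^ 2 * ψ 0 ^ 2 else 0) := by
      refine summable_of_ne_finset_zero (s := {0}) fun x hx => ?_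
      rw [Finset.mem_singleton] at hx
      rw [if_neg hx]
    rw [tsum_congr h1, tsum_div_const, hs1.tsum_sub hs2, norm_div, norm_pow, div_eq_mul_inv]
    have h2 : ∑' x : Fin d → ℤ, (if x = 0 then (t : ℂ) ^ 2 * ψ 0 ^ 2 else 0) =
        (t : ℂ) ^ 2 * ψ 0 ^ 2 := by
      rw [tsum_eq_single 0]
      · rw [if_pos rfl]
      · intro x hx
        rw [if_neg hx]
    rw [h2]
    have h3 : ‖∑' x, (t : ℂ) ^ 2 * ψ x ^ 2 - (t : ℂ) ^ 2 * ψ 0 ^ 2‖ ≤ ε + ε := by
      refine (norm_sub_le _ _).trans (add_le_add hG.two ?_)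
      rw [norm_mul, norm_pow, norm_pow, Complex.norm_real, Real.norm_eq_abs, sq_abs]
      exact hG.three 0
    have h4 : (‖D‖ ^ 2)⁻¹ ≤ 4 := by
      rw [← inv_pow]
      calc (‖D‖⁻¹) ^ 2 ≤ 2 ^ 2 := by gcongr
        _ = 4 := by norm_num
    calc _ ≤ (ε + ε) * 4 := by gcongr
      _ ≤ ε' := by linarith
  · intro x
    rw [hPt, norm_div, div_pow, div_eq_mul_inv]
    have h4 : (‖D‖ ^ 2)⁻¹ ≤ 4 := by
      rw [← inv_pow]
      calc (‖D‖⁻¹) ^ 2 ≤ 2 ^ 2 := by gcongr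
        _ = 4 := by norm_num
    have h5 := T0_le t x
    have h6 := hG.three x
    calc T0 d t x * (‖ψ x‖ ^ 2 * (‖D‖ ^ 2)⁻¹) ≤ t ^ 2 * (‖ψ x‖ ^ 2 * 4) := by gcongr
      _ = 4 * (t ^ 2 * ‖ψ x‖ ^ 2) := by ring
      _ ≤ ε' := by linarith

end Pool.Agent.Y662.FP
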