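import Pool.Agent.Y662.TR.Sheet

/-! One sheet with complex self-energies and site dependent couplings. -/

set_option autoImplicit false
set_option linter.unusedSectionVars false

open scoped BigOperators Topology
open Filter

namespace Pool.Agent.Y662.FP

open Pool.Agent.W788.LD.Spec (S symm summ_mul)
open Pool.Agent.Y662.TR (energy bil dl_sq tsum_dl cs_tsum hu hu_nonneg hu_comm hu_im hu_sq hu_mul)

variable {d : ℕ}

/-- the data of a sheet -/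
structure Shd (d : ℕ) (V : (Fin d → ℤ) → ℝ) (z : ℂ) (T : (Fin d → ℤ) → ℝ) (s : (Fin d → ℤ) → ℂ)
    (g : ℂ) (a : Fin d → ℤ) (C c : ℝ) (φ ψ : (Fin d → ℤ) → ℂ) : Prop where
  z0 : 0 < z.im
  T0 : ∀ x, 0 ≤ T x
  T1 : ∀ x, T x ≤ 1
  g0 : 0 < g.im
  c0 : 0 < c
  sC : ∀ x, ‖s x‖ ≤ C
  sc : ∀ x, c ≤ (s x).im
  φs : Summable fun x => ‖φ x‖ ^ 2
  ψs : Summable fun x => ‖ψ x‖ ^ 2
  φe : ∀ x, -S φ x + ((V x : ℂ) - z - ((T x : ℝ) : ℂ) * s x) * φ x = if x = a then 1 else 0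
  ψe : ∀ x, -S ψ x + ((V x : ℂ) - z - ((T x : ℝ) : ℂ) * g) * ψ x = if x = a then 1 else 0

/-- the quadratic functional -/
noncomputable def NN (T : (Fin d → ℤ) → ℝ) (s : (Fin d → ℤ) → ℂ) (g : ℂ)
    (ψ : (Fin d → ℤ) → ℂ) : ℝ :=
  ∑' x, T x * ‖ψ x‖ ^ 2 * (‖s x - g‖ ^ 2 / (s x).im)

section main

variable {V : (Fin d → ℤ) → ℝ} {z : ℂ} {T : (Fin d → ℤ) → ℝ} {s : (Fin d → ℤ) → ℂ} {g : ℂ}
  {a : Fin d → ℤ} {C c : ℝ} {φ ψ : (Fin d → ℤ) → ℂ}

theorem C_nonneg (h : Shd d V z T s g a C c φ ψ) : 0 ≤ C := (norm_nonneg _).trans (h.sC 0)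

theorem norm_T (h : Shd d V z T s g a C c φ ψ) (x : Fin d → ℤ) : ‖((T x : ℝ) : ℂ)‖ ≤ 1 := by
  rw [Complex.norm_real, Real.norm_of_nonneg (h.T0 x)]
  exact h.T1 x

theorem im_phi (h : Shd d V z T s g a C c φ ψ) :
    ∑' x, (z.im + T x * (s x).im) * ‖φ x‖ ^ 2 = (φ a).im := by
  have h1 := energy V z (fun x => ((T x : ℝ) : ℂ) * s x) (1 * C) (fun x => by
    rw [norm_mul]
    have := h.sC x
    have := norm_T h x
    gcongr) φ (fun x => if x = a then 1 else 0) h.φs (dl_sq a) h.φe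
  simp only [Complex.im_ofReal_mul] at h1
  rw [h1, tsum_dl (fun x => (starRingEnd ℂ) (φ x)) a, Complex.conj_im, neg_neg]

theorem im_psi (h : Shd d V z T s g a C c φ ψ) :
    ∑' x, (z.im + T x * g.im) * ‖ψ x‖ ^ 2 = (ψ a).im := by
  have h1 := energy V z (fun x => ((T x : ℝ) : ℂ) * g) (1 * ‖g‖) (fun x => by
    rw [norm_mul]
    have := norm_T h x
    gcongr) ψ (fun x => if x = a then 1 else 0) h.ψs (dl_sq a) h.ψe
  simp only [Complex.im_ofReal_mul] at h1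
  rw [h1, tsum_dl (fun x => (starRingEnd ℂ) (ψ x)) a, Complex.conj_im, neg_neg]

theorem diff_le (h : Shd d V z T s g a C c φ ψ) (x : Fin d → ℤ) : ‖s x - g‖ ≤ C + ‖g‖ :=
  (norm_sub_le _ _).trans (by have := h.sC x; linarith)

/-- weighted sums converge -/
theorem w_sum (h : Shd d V z T s g a C c φ ψ) (χ : (Fin d → ℤ) → ℂ)
    (hχ : Summable fun x => ‖χ x‖ ^ 2) (r : (Fin d → ℤ) → ℝ) (R : ℝ) (hr : ∀ x, 0 ≤ r x)
    (hR : ∀ x, r x ≤ R) :
    Summable fun x => (z.im + T x * r x) * ‖χ x‖ ^ 2 := by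
  have hR0 : 0 ≤ R := (hr 0).trans (hR 0)
  have hz := h.z0
  refine Summable.of_nonneg_of_le (fun x => ?_) (fun x => ?_) (hχ.mul_left (z.im + 1 * R))
  · have := hr x
    have := h.T0 x
    positivity
  · have := hR x
    have := hr x
    have := h.T0 x
    have := h.T1 x
    gcongr

theorem im_le_C (h : Shd d V z T s g a C c φ ψ) (x : Fin d → ℤ) : (s x).im ≤ C :=
  (Complex.im_le_norm _).trans (h.sC x)

theorem im_s0 (h : Shd d V z T s g a C c φ ψ) (x : Fin d → ℤ) : 0 < (s x).im :=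
  h.c0.trans_le (h.sc x)

theorem NN_sum (h : Shd d V z T s g a C c φ ψ) :
    Summable fun x => T x * ‖ψ x‖ ^ 2 * (‖s x - g‖ ^ 2 / (s x).im) := by
  have hc := h.c0
  have hC := C_nonneg h
  refine Summable.of_nonneg_of_le (fun x => ?_) (fun x => ?_)
    (h.ψs.mul_left ((C + ‖g‖) ^ 2 / c))
  · have := im_s0 h x
    have := h.T0 x
    positivity
  · have h1 := diff_le h x
    have h2 := h.sc x
    have h3 := h.T0 x
    have h4 := h.T1 x
    have h5 := im_s0 h x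
    have h6 : 0 ≤ ‖s x - g‖ ^ 2 / (s x).im := by positivity
    calc T x * ‖ψ x‖ ^ 2 * (‖s x - g‖ ^ 2 / (s x).im) ≤
          1 * ‖ψ x‖ ^ 2 * ((C + ‖g‖) ^ 2 / c) := by gcongr
      _ = _ := by ring

theorem NN_nonneg (h : Shd d V z T s g a C c φ ψ) : 0 ≤ NN T s g ψ := by
  unfold NN
  refine tsum_nonneg fun x => ?_
  have := im_s0 h x
  have := h.T0 x
  positivity

/-- Cauchy-Schwarz with the weights -/
theorem cs_w (h : Shd d V z T s g a C c φ ψ) (χ : (Fin d → ℤ) → ℂ)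
    (hχ : Summable fun x => ‖χ x‖ ^ 2) :
    (Summable fun x => ‖ψ x * (((T x : ℝ) : ℂ) * s x - ((T x : ℝ) : ℂ) * g) * χ x‖) ∧
    (∑' x, ‖ψ x * (((T x : ℝ) : ℂ) * s x - ((T x : ℝ) : ℂ) * g) * χ x‖) ^ 2 ≤
      NN T s g ψ * ∑' x, (z.im + T x * (s x).im) * ‖χ x‖ ^ 2 := by
  have hz := h.z0
  have hC := C_nonneg h
  have hs0 := im_s0 h
  have e0 : ∀ x, ‖ψ x * (((T x : ℝ) : ℂ) * s x - ((T x : ℝ) : ℂ) * g) * χ x‖ =
      (Real.sqrt (T x) * ‖ψ x‖ * (‖s x - g‖ / Real.sqrt (s x).im)) *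
        (Real.sqrt (T x) * Real.sqrt (s x).im * ‖χ x‖) := by
    intro x
    rw [← mul_sub, norm_mul, norm_mul, norm_mul, Complex.norm_real,
      Real.norm_of_nonneg (h.T0 x)]
    have h1 : Real.sqrt (s x).im ≠ 0 := (Real.sqrt_pos.2 (hs0 x)).ne'
    have h2 : Real.sqrt (T x) * Real.sqrt (T x) = T x := Real.mul_self_sqrt (h.T0 x)
    calc ‖ψ x‖ * (T x * ‖s x - g‖) * ‖χ x‖ =
          (Real.sqrt (T x) * Real.sqrt (T x)) * ‖ψ x‖ * ‖s x - g‖ * ‖χ x‖ := by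
            rw [h2]
            ring
      _ = _ := by field_simp
  have e1 : ∀ x, (Real.sqrt (T x) * ‖ψ x‖ * (‖s x - g‖ / Real.sqrt (s x).im)) ^ 2 =
      T x * ‖ψ x‖ ^ 2 * (‖s x - g‖ ^ 2 / (s x).im) := by
    intro x
    rw [mul_pow, mul_pow, div_pow, Real.sq_sqrt (hs0 x).le, Real.sq_sqrt (h.T0 x)]
  have e2 : ∀ x, (Real.sqrt (T x) * Real.sqrt (s x).im * ‖χ x‖) ^ 2 =
      T x * (s x).im * ‖χ x‖ ^ 2 := by
    intro x
    rw [mul_pow, mul_pow, Real.sq_sqrt (hs0 x).le, Real.sq_sqrt (h.T0 x)]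
  have s1 : Summable fun x =>
      (Real.sqrt (T x) * ‖ψ x‖ * (‖s x - g‖ / Real.sqrt (s x).im)) ^ 2 := by
    simp only [e1]
    exact NN_sum h
  have s4 : Summable fun x => (z.im + T x * (s x).im) * ‖χ x‖ ^ 2 :=
    w_sum h χ hχ (fun x => (s x).im) C (fun x => (hs0 x).le) (im_le_C h)
  have s2 : Summable fun x => T x * (s x).im * ‖χ x‖ ^ 2 := by
    refine Summable.of_nonneg_of_le (fun x => ?_) (fun x => ?_) s4
    · have := hs0 x
      have := h.T0 x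
      positivity
    · have : 0 ≤ z.im * ‖χ x‖ ^ 2 := by positivity
      linarith
  have s3 : Summable fun x => (Real.sqrt (T x) * Real.sqrt (s x).im * ‖χ x‖) ^ 2 := by
    simp only [e2]
    exact s2
  obtain ⟨k1, k2⟩ := cs_tsum s1 s3
  simp only [e0]
  refine ⟨k1, k2.trans ?_⟩
  simp only [e1, e2]
  have h5 : ∑' x, T x * (s x).im * ‖χ x‖ ^ 2 ≤ ∑' x, (z.im + T x * (s x).im) * ‖χ x‖ ^ 2 := by
    refine s2.tsum_le_tsum (fun x => ?_) s4
    have : 0 ≤ z.im * ‖χ x‖ ^ 2 := by positivity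
    linarith
  have h6 := NN_nonneg h
  unfold NN at h6 ⊢
  gcongr

/-- the difference of the Green functions -/
theorem diff_eq (h : Shd d V z T s g a C c φ ψ) :
    φ a - ψ a = ∑' x, ψ x * (((T x : ℝ) : ℂ) * s x - ((T x : ℝ) : ℂ) * g) * φ x := by
  have h1 := bil V z (fun x => ((T x : ℝ) : ℂ) * s x) (fun x => ((T x : ℝ) : ℂ) * g)
    (1 * (C + ‖g‖)) (fun x => by
      rw [← mul_sub, norm_mul]
      have := diff_le h x
      have := norm_T h x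
      gcongr)
    φ ψ _ _ h.φs h.ψs (dl_sq a) (dl_sq a) h.φe h.ψe
  rw [tsum_dl, tsum_dl] at h1
  exact h1

/-- **the first bound** -/
theorem bound1 (h : Shd d V z T s g a C c φ ψ) :
    ‖φ a - ψ a‖ ^ 2 ≤ (φ a).im * NN T s g ψ := by
  obtain ⟨k1, k2⟩ := cs_w h φ h.φs
  rw [im_phi h] at k2
  rw [diff_eq h]
  refine le_trans ?_ (k2.trans (le_of_eq (mul_comm _ _)))
  exact pow_le_pow_left₀ (norm_nonneg _) (norm_tsum_le_tsum_norm k1) 2

theorem pos_of (h : Shd d V z T s g a C c φ ψ) (χ : (Fin d → ℤ) → ℂ)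
    (hχ : Summable fun x => ‖χ x‖ ^ 2) (r : (Fin d → ℤ) → ℝ) (R : ℝ) (hr : ∀ x, 0 ≤ r x)
    (hR : ∀ x, r x ≤ R) (W : (Fin d → ℤ) → ℂ)
    (he : ∀ x, -S χ x + W x * χ x = if x = a then 1 else 0) :
    0 < ∑' x, (z.im + T x * r x) * ‖χ x‖ ^ 2 := by
  have hz := h.z0
  have hφ0 : ∃ x, χ x ≠ 0 := by
    by_contra hcon
    push Not at hcon
    have h2 := he a
    have h3 : S χ a = 0 := by
      unfold S
      simp [hcon]
    rw [h3, hcon a] at h2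
    simp at h2
  obtain ⟨x0, hx0⟩ := hφ0
  refine (w_sum h χ hχ r R hr hR).tsum_pos (fun x => ?_) x0 ?_
  · have := hr x
    have := h.T0 x
    positivity
  · have := hr x0
    have := h.T0 x0
    have := norm_pos_iff.2 hx0
    positivity

theorem phi_pos (h : Shd d V z T s g a C c φ ψ) : 0 < (φ a).im := by
  rw [← im_phi h]
  exact pos_of h φ h.φs (fun x => (s x).im) C (fun x => (im_s0 h x).le) (im_le_C h) _ h.φe

theorem psi_pos (h : Shd d V z T s g a C c φ ψ) : 0 < (ψ a).im := by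
  rw [← im_psi h]
  exact pos_of h ψ h.ψs (fun _ => g.im) g.im (fun x => h.g0.le) (fun x => le_rfl) _ h.ψe

/-- **the second bound** -/
theorem bound2 (h : Shd d V z T s g a C c φ ψ) :
    ‖φ a - ψ a - ∑' x, ((T x : ℝ) : ℂ) * (ψ x ^ 2 * (s x - g))‖ ≤ NN T s g ψ := by
  have hC := C_nonneg h
  obtain ⟨χ, hχ⟩ : ∃ χ : (Fin d → ℤ) → ℂ, χ = fun x => φ x - ψ x := ⟨_, rfl⟩
  have hχs : Summable fun x => ‖χ x‖ ^ 2 := by
    refine Summable.of_nonneg_of_le (fun x => by positivity) (fun x => ?_)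
      ((h.φs.mul_left 2).add (h.ψs.mul_left 2))
    rw [hχ]
    have h1 := norm_sub_le (φ x) (ψ x)
    have h2 : ‖φ x - ψ x‖ ^ 2 ≤ (‖φ x‖ + ‖ψ x‖) ^ 2 := by gcongr
    nlinarith [sq_nonneg (‖φ x‖ - ‖ψ x‖)]
  obtain ⟨k1, k2⟩ := cs_w h χ hχs
  have hfs : Summable fun x =>
      ‖(((T x : ℝ) : ℂ) * s x - ((T x : ℝ) : ℂ) * g) * ψ x‖ ^ 2 := by
    refine Summable.of_nonneg_of_le (fun x => by positivity) (fun x => ?_)
      (h.ψs.mul_left ((1 * (C + ‖g‖)) ^ 2))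
    rw [← mul_sub, norm_mul, norm_mul, mul_pow]
    have := diff_le h x
    have := norm_T h x
    gcongr
  have heq : ∀ x, -S χ x + ((V x : ℂ) - z - ((T x : ℝ) : ℂ) * s x) * χ x =
      (((T x : ℝ) : ℂ) * s x - ((T x : ℝ) : ℂ) * g) * ψ x := by
    intro x
    have hS : S χ x = S φ x - S ψ x := by
      rw [hχ]
      unfold S
      rw [← Finset.sum_sub_distrib]
      exact Finset.sum_congr rfl fun i _ => by ring
    rw [hS, hχ]
    linear_combination (h.φe x) - (h.ψe x)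
  have h1 := energy V z (fun x => ((T x : ℝ) : ℂ) * s x) (1 * C) (fun x => by
    rw [norm_mul]
    have := h.sC x
    have := norm_T h x
    gcongr) χ _ hχs hfs heq
  simp only [Complex.im_ofReal_mul] at h1
  obtain ⟨A, hA⟩ : ∃ A, A = ∑' x, ‖ψ x * (((T x : ℝ) : ℂ) * s x - ((T x : ℝ) : ℂ) * g) * χ x‖ :=
    ⟨_, rfl⟩
  have hA0 : 0 ≤ A := by rw [hA]; exact tsum_nonneg fun x => norm_nonneg _
  have h2 : ∑' x, (z.im + T x * (s x).im) * ‖χ x‖ ^ 2 ≤ A := by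
    rw [h1]
    refine (neg_le_abs _).trans ?_
    refine (Complex.abs_im_le_norm _).trans ?_
    have h3 : ∀ x, ‖(starRingEnd ℂ) (χ x) *
        ((((T x : ℝ) : ℂ) * s x - ((T x : ℝ) : ℂ) * g) * ψ x)‖ =
        ‖ψ x * (((T x : ℝ) : ℂ) * s x - ((T x : ℝ) : ℂ) * g) * χ x‖ := by
      intro x
      rw [norm_mul, norm_mul, norm_mul, norm_mul, Complex.norm_conj]
      ring
    have h4 := norm_tsum_le_tsum_norm (f := fun x =>
      (starRingEnd ℂ) (χ x) * ((((T x : ℝ) : ℂ) * s x - ((T x : ℝ) : ℂ) * g) * ψ x)) (by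
      simp only [h3]
      exact k1)
    simp only [h3] at h4
    rw [hA]
    exact h4
  rw [← hA] at k2
  have hN := NN_nonneg h
  have h3 : A ≤ NN T s g ψ := by
    rcases hA0.eq_or_lt with h4 | h4
    · rw [← h4]
      exact hN
    · have h5 : A * A ≤ NN T s g ψ * A := by
        calc A * A = A ^ 2 := by ring
          _ ≤ _ := k2
          _ ≤ NN T s g ψ * A := by gcongr
      exact le_of_mul_le_mul_right h5 h4
  refine le_trans ?_ h3
  have s1 : Summable fun x => ψ x * (((T x : ℝ) : ℂ) * s x - ((T x : ℝ) : ℂ) * g) * φ x :=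
    (cs_w h φ h.φs).1.of_norm
  have s2 : Summable fun x => ψ x * (((T x : ℝ) : ℂ) * s x - ((T x : ℝ) : ℂ) * g) * χ x :=
    k1.of_norm
  have h4 : φ a - ψ a - ∑' x, ((T x : ℝ) : ℂ) * (ψ x ^ 2 * (s x - g)) =
      ∑' x, ψ x * (((T x : ℝ) : ℂ) * s x - ((T x : ℝ) : ℂ) * g) * χ x := by
    have h5 : ∀ x, ((T x : ℝ) : ℂ) * (ψ x ^ 2 * (s x - g)) =
        ψ x * (((T x : ℝ) : ℂ) * s x - ((T x : ℝ) : ℂ) * g) * φ x -
        ψ x * (((T x : ℝ) : ℂ) * s x - ((T x : ℝ) : ℂ) * g) * χ x := by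
      intro x
      rw [hχ]
      ring
    rw [diff_eq h, tsum_congr h5, s1.tsum_sub s2]
    ring
  rw [h4, hA]
  exact norm_tsum_le_tsum_norm k1

end main

end Pool.Agent.Y662.FP
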