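import Pool.Agent.Y662.FP.Sheet
import Pool.Agent.Y662.TR.Step2

/-! One step of the recursion for the moments, for a fixed root sheet. -/

set_option autoImplicit false
set_option linter.unusedSectionVars false

open scoped BigOperators Topology ENNReal
open MeasureTheory Filter ProbabilityTheory

namespace Pool.Agent.Y662.FP

open Pool.Agent.Y662.TR (RV UU hu hu_nonneg hu_comm hu_im hu_sq hu_mul hu_meas wsum wsum_meas
  bdd_int_real tri_near tri_far)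

variable {d : ℕ} {Ω : Type} [MeasurableSpace Ω] {P : Measure Ω} [IsProbabilityMeasure P]

section step

variable {Γ : Ω → ℂ} {g z : ℂ} {C c : ℝ} {T : (Fin d → ℤ) → ℝ} {V : (Fin d → ℤ) → ℝ}
  {ψ : (Fin d → ℤ) → ℂ} {φ : ((Fin d → ℤ) → Ω) → (Fin d → ℤ) → ℂ}

/-- the weights -/
noncomputable def wt (T : (Fin d → ℤ) → ℝ) (g : ℂ) (ψ : (Fin d → ℤ) → ℂ) (x : Fin d → ℤ) : ℝ :=
  T x * ‖ψ x‖ ^ 2 * g.im / (ψ 0).im

/-- the weighted mean of the functional -/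
noncomputable def WW (T : (Fin d → ℤ) → ℝ) (g : ℂ) (ψ : (Fin d → ℤ) → ℂ) (Γ : Ω → ℂ)
    (w : (Fin d → ℤ) → Ω) : ℝ := ∑' x, wt T g ψ x * hu (Γ (w x)) g

theorem NN_eq (hS : ∀ w, Shd d V z T (fun x => Γ (w x)) g 0 C c (φ w) ψ)
    (w : (Fin d → ℤ) → Ω) :
    NN T (fun x => Γ (w x)) g ψ = (ψ 0).im * WW T g ψ Γ w := by
  have h1 := psi_pos (hS w)
  unfold NN WW
  rw [← tsum_mul_left]
  refine tsum_congr fun x => ?_
  unfold wt hu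
  have h2 := (hS w).c0.trans_le ((hS w).sc x)
  have h3 := (hS w).g0
  field_simp

theorem wt_nonneg (hS : ∀ w, Shd d V z T (fun x => Γ (w x)) g 0 C c (φ w) ψ)
    (w : (Fin d → ℤ) → Ω) (x : Fin d → ℤ) : 0 ≤ wt T g ψ x := by
  have h1 := psi_pos (hS w)
  have h3 := (hS w).g0
  have h4 := (hS w).T0 x
  unfold wt
  positivity

theorem TW_sum (hS : ∀ w, Shd d V z T (fun x => Γ (w x)) g 0 C c (φ w) ψ)
    (w : (Fin d → ℤ) → Ω) : (Summable fun x => T x * ‖ψ x‖ ^ 2) ∧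
      (∑' x, T x * ‖ψ x‖ ^ 2) * g.im ≤ (ψ 0).im := by
  have h4 : Summable fun x => T x * ‖ψ x‖ ^ 2 := by
    refine Summable.of_nonneg_of_le (fun x => ?_) (fun x => ?_) (hS w).ψs
    · have := (hS w).T0 x
      positivity
    · have := (hS w).T0 x
      have := (hS w).T1 x
      nlinarith [sq_nonneg ‖ψ x‖]
  refine ⟨h4, ?_⟩
  rw [← im_psi (hS w), ← tsum_mul_right]
  refine (h4.mul_right _).tsum_le_tsum (fun x => ?_)
    (w_sum (hS w) ψ (hS w).ψs (fun _ => g.im) g.im (fun _ => (hS w).g0.le) (fun _ => le_rfl))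
  have h6 := (hS w).z0
  have : 0 ≤ z.im * ‖ψ x‖ ^ 2 := by positivity
  nlinarith

theorem wt_sum (hS : ∀ w, Shd d V z T (fun x => Γ (w x)) g 0 C c (φ w) ψ)
    (w : (Fin d → ℤ) → Ω) : (Summable fun x => wt T g ψ x) ∧ ∑' x, wt T g ψ x ≤ 1 := by
  have h1 := psi_pos (hS w)
  obtain ⟨h4, h5⟩ := TW_sum hS w
  have h3 : ∀ x, wt T g ψ x = (T x * ‖ψ x‖ ^ 2) * (g.im / (ψ 0).im) := by
    intro x
    unfold wt
    ring
  simp only [h3]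
  refine ⟨h4.mul_right _, ?_⟩
  rw [tsum_mul_right, mul_div_assoc', div_le_one h1]
  exact h5

theorem WW_nonneg (hR : RV P Γ g C c) (hS : ∀ w, Shd d V z T (fun x => Γ (w x)) g 0 C c (φ w) ψ)
    (w : (Fin d → ℤ) → Ω) : 0 ≤ WW T g ψ Γ w := by
  unfold WW
  exact tsum_nonneg fun x => mul_nonneg (wt_nonneg hS w x) (hR.nonneg (w x))

/-- the functional at the root is at most the weighted mean -/
theorem hu_le (hS : ∀ w, Shd d V z T (fun x => Γ (w x)) g 0 C c (φ w) ψ)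
    (w : (Fin d → ℤ) → Ω) : hu (φ w 0) (ψ 0) ≤ WW T g ψ Γ w := by
  have h1 := bound1 (hS w)
  have h2 := phi_pos (hS w)
  have h3 := psi_pos (hS w)
  rw [NN_eq hS w] at h1
  unfold hu
  rw [div_le_iff₀ (by positivity)]
  linarith

theorem WW_meas (hR : RV P Γ g C c) (hS : ∀ w, Shd d V z T (fun x => Γ (w x)) g 0 C c (φ w) ψ)
    (w0 : (Fin d → ℤ) → Ω) : Measurable (WW T g ψ Γ) := by
  have h1 := wsum_meas (ι := Fin d → ℤ) (fun ω => ((hu (Γ ω) g : ℝ) : ℂ))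
    (Complex.measurable_ofReal.comp ((hu_meas g).comp hR.meas)) (UU g C c)
    (fun ω => by rw [Complex.norm_real, Real.norm_eq_abs]; exact hR.abs ω)
    (fun x => ((wt T g ψ x : ℝ) : ℂ)) (by
      have h2 := (wt_sum hS w0).1
      refine h2.congr fun x => ?_
      rw [Complex.norm_real, Real.norm_of_nonneg (wt_nonneg hS w0 x)])
  have h2 : (fun w : (Fin d → ℤ) → Ω => ∑' x, ((wt T g ψ x : ℝ) : ℂ) *
      ((hu (Γ (w x)) g : ℝ) : ℂ)) = fun w => ((WW T g ψ Γ w : ℝ) : ℂ) := by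
    funext w
    unfold WW
    push_cast
    rfl
  rw [h2] at h1
  have h3 := Complex.measurable_re.comp h1
  exact h3

theorem WW_le (hR : RV P Γ g C c) (hS : ∀ w, Shd d V z T (fun x => Γ (w x)) g 0 C c (φ w) ψ)
    (w : (Fin d → ℤ) → Ω) : WW T g ψ Γ w ≤ UU g C c := by
  obtain ⟨h1, h2⟩ := wt_sum hS w
  have hU : 0 ≤ UU g C c := (hR.nonneg (w 0)).trans (hR.huU (w 0))
  unfold WW
  have h3 : ∀ x, wt T g ψ x * hu (Γ (w x)) g ≤ wt T g ψ x * UU g C c := fun x =>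
    mul_le_mul_of_nonneg_left (hR.huU _) (wt_nonneg hS w x)
  have h4 : Summable fun x => wt T g ψ x * hu (Γ (w x)) g :=
    Summable.of_nonneg_of_le (fun x => mul_nonneg (wt_nonneg hS w x) (hR.nonneg _)) h3
      (h1.mul_right _)
  refine (h4.tsum_le_tsum h3 (h1.mul_right _)).trans ?_
  rw [tsum_mul_right]
  nlinarith

/-- the second moment of the weighted mean -/
theorem WW_two (hR : RV P Γ g C c) (hS : ∀ w, Shd d V z T (fun x => Γ (w x)) g 0 C c (φ w) ψ)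
    (w0 : (Fin d → ℤ) → Ω) (δ : ℝ) (hδ : ∀ x, wt T g ψ x ≤ δ) :
    ∫ w, WW T g ψ Γ w ^ 2 ∂(Measure.infinitePi fun _ : Fin d → ℤ => P) ≤
      (∫ ω, hu (Γ ω) g ∂P) ^ 2 + δ * ∫ ω, hu (Γ ω) g ^ 2 ∂P := by
  obtain ⟨k1, k2⟩ := wt_sum hS w0
  have k0 := wt_nonneg hS w0
  have h1 := wsum P (ι := Fin d → ℤ) (fun ω => ((hu (Γ ω) g : ℝ) : ℂ))
    (Complex.measurable_ofReal.comp ((hu_meas g).comp hR.meas)) (UU g C c)
    (fun ω => by rw [Complex.norm_real, Real.norm_eq_abs]; exact hR.abs ω)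
    (fun x => ((wt T g ψ x : ℝ) : ℂ)) (by
      refine k1.congr fun x => ?_
      rw [Complex.norm_real, Real.norm_of_nonneg (k0 x)])
  have e1 : ∀ w : (Fin d → ℤ) → Ω, ‖∑' x, ((wt T g ψ x : ℝ) : ℂ) *
      ((hu (Γ (w x)) g : ℝ) : ℂ)‖ ^ 2 = WW T g ψ Γ w ^ 2 := by
    intro w
    have : ∑' x, ((wt T g ψ x : ℝ) : ℂ) * ((hu (Γ (w x)) g : ℝ) : ℂ) =
        ((WW T g ψ Γ w : ℝ) : ℂ) := by
      unfold WW
      push_cast
      rfl
    rw [this, Complex.norm_real, Real.norm_eq_abs, sq_abs]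
  have e2 : ‖∫ ω, ((hu (Γ ω) g : ℝ) : ℂ) ∂P‖ ^ 2 = (∫ ω, hu (Γ ω) g ∂P) ^ 2 := by
    rw [integral_complex_ofReal, Complex.norm_real, Real.norm_eq_abs, sq_abs]
  have e3 : ‖∑' x, ((wt T g ψ x : ℝ) : ℂ)‖ ^ 2 = (∑' x, wt T g ψ x) ^ 2 := by
    rw [← Complex.ofReal_tsum, Complex.norm_real, Real.norm_eq_abs, sq_abs]
  have e4 : ∀ ω, ‖((hu (Γ ω) g : ℝ) : ℂ)‖ ^ 2 = hu (Γ ω) g ^ 2 := by
    intro ω
    rw [Complex.norm_real, Real.norm_eq_abs, sq_abs]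
  have e5 : ∀ x, ‖((wt T g ψ x : ℝ) : ℂ)‖ ^ 2 = wt T g ψ x ^ 2 := by
    intro x
    rw [Complex.norm_real, Real.norm_eq_abs, sq_abs]
  simp only [e1, e2, e3, e4, e5] at h1
  refine h1.trans ?_
  have h2 : (∑' x, wt T g ψ x) ^ 2 ≤ 1 := by
    have h3 : 0 ≤ ∑' x, wt T g ψ x := tsum_nonneg k0
    nlinarith
  have h3 : ∑' x, wt T g ψ x ^ 2 ≤ δ := by
    have h4 : ∀ x, wt T g ψ x ^ 2 ≤ δ * wt T g ψ x := by
      intro x
      have := k0 x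
      have := hδ x
      nlinarith
    have h5 : Summable fun x => wt T g ψ x ^ 2 :=
      Summable.of_nonneg_of_le (fun x => sq_nonneg _) h4 (k1.mul_left δ)
    refine (h5.tsum_le_tsum h4 (k1.mul_left δ)).trans ?_
    rw [tsum_mul_left]
    have hδ0 : 0 ≤ δ := (k0 0).trans (hδ 0)
    nlinarith
  have h4 : 0 ≤ ∫ ω, hu (Γ ω) g ^ 2 ∂P := integral_nonneg fun ω => sq_nonneg _
  have h5 : 0 ≤ (∫ ω, hu (Γ ω) g ∂P) ^ 2 := sq_nonneg _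
  nlinarith

/-- the linear term -/
noncomputable def LLn (T : (Fin d → ℤ) → ℝ) (g : ℂ) (ψ : (Fin d → ℤ) → ℂ) (Γ : Ω → ℂ)
    (w : (Fin d → ℤ) → Ω) : ℂ := ∑' x, ((T x : ℝ) : ℂ) * (ψ x ^ 2 * (Γ (w x) - g))

theorem TT_norm (hT0 : ∀ x, 0 ≤ T x) (x : Fin d → ℤ) :
    ‖((T x : ℝ) : ℂ) * ψ x ^ 2‖ = T x * ‖ψ x‖ ^ 2 := by
  rw [norm_mul, norm_pow, Complex.norm_real, Real.norm_of_nonneg (hT0 x)]

theorem LL_sum (hT0 : ∀ x, 0 ≤ T x) (hT1 : ∀ x, T x ≤ 1) (hψ : Summable fun x => ‖ψ x‖ ^ 2) :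
    Summable fun x => ‖((T x : ℝ) : ℂ) * ψ x ^ 2‖ := by
  simp only [TT_norm hT0]
  refine Summable.of_nonneg_of_le (fun x => ?_) (fun x => ?_) hψ
  · have := hT0 x
    positivity
  · have := hT0 x
    have := hT1 x
    nlinarith [sq_nonneg ‖ψ x‖]

theorem LL_meas (hR : RV P Γ g C c) (hT0 : ∀ x, 0 ≤ T x) (hT1 : ∀ x, T x ≤ 1)
    (hψ : Summable fun x => ‖ψ x‖ ^ 2) : Measurable (LLn T g ψ Γ) := by
  have h1 := wsum_meas (ι := Fin d → ℤ) (fun ω => Γ ω - g) (hR.meas.sub_const g) (C + ‖g‖)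
    (fun ω => (norm_sub_le _ _).trans (by have := hR.le ω; linarith))
    (fun x => ((T x : ℝ) : ℂ) * ψ x ^ 2) (LL_sum hT0 hT1 hψ)
  have h2 : (fun w : (Fin d → ℤ) → Ω => ∑' x, ((T x : ℝ) : ℂ) * ψ x ^ 2 * (Γ (w x) - g)) =
      LLn T g ψ Γ := by
    funext w
    unfold LLn
    refine tsum_congr fun x => ?_
    ring
  rwa [h2] at h1

/-- the second moment of the linear term -/
theorem LL_two (hR : RV P Γ g C c) (hT0 : ∀ x, 0 ≤ T x) (hT1 : ∀ x, T x ≤ 1)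
    (hψ : Summable fun x => ‖ψ x‖ ^ 2) (a b : ℝ) (hb : 0 ≤ b)
    (h1 : ‖∑' x, ((T x : ℝ) : ℂ) * ψ x ^ 2‖ ≤ a) (h2 : ∀ x, T x * ‖ψ x‖ ^ 2 ≤ b) (S0 : ℝ)
    (h3 : ∑' x, T x * ‖ψ x‖ ^ 2 ≤ S0) :
    ∫ w, ‖LLn T g ψ Γ w‖ ^ 2 ∂(Measure.infinitePi fun _ : Fin d → ℤ => P) ≤
      (a ^ 2 + b * S0) * ∫ ω, ‖Γ ω - g‖ ^ 2 ∂P := by
  have k1 := wsum P (ι := Fin d → ℤ) (fun ω => Γ ω - g) (hR.meas.sub_const g) (C + ‖g‖)
    (fun ω => (norm_sub_le _ _).trans (by have := hR.le ω; linarith))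
    (fun x => ((T x : ℝ) : ℂ) * ψ x ^ 2) (LL_sum hT0 hT1 hψ)
  have e1 : ∀ w : (Fin d → ℤ) → Ω, ∑' x, ((T x : ℝ) : ℂ) * ψ x ^ 2 * (Γ (w x) - g) =
      LLn T g ψ Γ w := by
    intro w
    unfold LLn
    refine tsum_congr fun x => ?_
    ring
  simp only [e1] at k1
  refine k1.trans ?_
  have k2 := hR.mean
  have k3 : 0 ≤ ∫ ω, ‖Γ ω - g‖ ^ 2 ∂P := integral_nonneg fun ω => by positivity
  have k4 : ‖∑' x, ((T x : ℝ) : ℂ) * ψ x ^ 2‖ ^ 2 ≤ a ^ 2 := by gcongr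
  have k11 : Summable fun x => T x * ‖ψ x‖ ^ 2 := by
    have := LL_sum (ψ := ψ) hT0 hT1 hψ
    simpa only [TT_norm hT0] using this
  have k5 : ∑' x, ‖((T x : ℝ) : ℂ) * ψ x ^ 2‖ ^ 2 ≤ b * S0 := by
    simp only [TT_norm hT0]
    have k6 : ∀ x, (T x * ‖ψ x‖ ^ 2) ^ 2 ≤ b * (T x * ‖ψ x‖ ^ 2) := by
      intro x
      have k7 : 0 ≤ T x * ‖ψ x‖ ^ 2 := by
        have := hT0 x
        positivity
      have := h2 x
      nlinarith
    have k8 : Summable fun x => b * (T x * ‖ψ x‖ ^ 2) := k11.mul_left _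
    have k9 : Summable fun x => (T x * ‖ψ x‖ ^ 2) ^ 2 :=
      Summable.of_nonneg_of_le (fun x => sq_nonneg _) k6 k8
    refine (k9.tsum_le_tsum k6 k8).trans ?_
    rw [tsum_mul_left]
    gcongr
  have k10 : 0 ≤ ∑' x, ‖((T x : ℝ) : ℂ) * ψ x ^ 2‖ ^ 2 := tsum_nonneg fun x => by positivity
  calc _ ≤ (∫ ω, ‖Γ ω - g‖ ^ 2 ∂P) * a ^ 2 + (∫ ω, ‖Γ ω - g‖ ^ 2 ∂P) * (b * S0) := by
        gcongr
    _ = _ := by ring

end step

/-- the good root sheets -/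
structure Gd (T : (Fin d → ℤ) → ℝ) (g : ℂ) (m ε : ℝ) (ψ : (Fin d → ℤ) → ℂ) : Prop where
  one : ‖ψ 0 - g‖ ≤ ε
  two : ‖∑' x, ((T x : ℝ) : ℂ) * ψ x ^ 2‖ ≤ ε
  three : ∀ x, T x * ‖ψ x‖ ^ 2 ≤ ε
  m0 : 0 < m
  gm : m ≤ g.im
  e0 : 0 ≤ ε
  em : ε ≤ m / 100
  e1 : ε ≤ 1 / 100000

section pt

variable {Γ : Ω → ℂ} {g z : ℂ} {C c : ℝ} {T : (Fin d → ℤ) → ℝ} {V : (Fin d → ℤ) → ℝ}
  {ψ : (Fin d → ℤ) → ℂ} {φ : ((Fin d → ℤ) → Ω) → (Fin d → ℤ) → ℂ} {m ε : ℝ}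

theorem Gd.im (h : Gd T g m ε ψ) : g.im / 2 ≤ (ψ 0).im ∧ (ψ 0).im ≤ 2 * g.im := by
  have h1 := Complex.abs_im_le_norm (ψ 0 - g)
  rw [Complex.sub_im] at h1
  have h2 := abs_le.1 (h1.trans h.one)
  have h3 := h.em
  have h4 := h.gm
  have h5 := h.m0
  constructor <;> linarith [h2.1, h2.2]

theorem Gd.near (h : Gd T g m ε ψ) : hu (ψ 0) g ≤ (2 * ε / m) ^ 2 := by
  obtain ⟨h1, h2⟩ := h.im
  have h3 := h.m0
  have h4 := h.gm
  have h5 : 0 < g.im := h3.trans_le h4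
  have h6 := h.e0
  unfold hu
  rw [div_le_iff₀ (by have : 0 < (ψ 0).im := by linarith
                      positivity)]
  have h7 : ‖ψ 0 - g‖ ^ 2 ≤ ε ^ 2 := by
    have := h.one
    gcongr
  have h8 : m ^ 2 / 2 ≤ (ψ 0).im * g.im := by
    calc m ^ 2 / 2 = (m / 2) * m := by ring
      _ ≤ (ψ 0).im * g.im := by
          apply mul_le_mul _ h4 h3.le (by linarith)
          linarith
  calc ‖ψ 0 - g‖ ^ 2 ≤ ε ^ 2 := h7
    _ ≤ (2 * ε / m) ^ 2 * (m ^ 2 / 2) := by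
        rw [div_pow]
        field_simp
        nlinarith [sq_nonneg ε]
    _ ≤ _ := by gcongr

theorem Gd.em2 (h : Gd T g m ε ψ) : 0 ≤ 2 * ε / m ∧ 2 * ε / m ≤ 1 / 50 := by
  have h3 := h.m0
  have h6 := h.e0
  have h7 := h.em
  constructor
  · positivity
  · rw [div_le_iff₀ h3]
    linarith

/-- pointwise bounds for a good root sheet -/
theorem pt_good (hR : RV P Γ g C c) (hS : ∀ w, Shd d V z T (fun x => Γ (w x)) g 0 C c (φ w) ψ)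
    (h : Gd T g m ε ψ) (w : (Fin d → ℤ) → Ω) :
    hu (φ w 0) g ≤ 36 * WW T g ψ Γ w ^ 2 + 9 * ((‖LLn T g ψ Γ w‖ ^ 2 + ε ^ 2) / g.im ^ 2) ∧
    hu (φ w 0) g ^ 2 ≤ 3 * WW T g ψ Γ w ^ 2 + 32 * (2 * ε / m) ^ 2 := by
  obtain ⟨W, hW⟩ : ∃ W, W = WW T g ψ Γ w := ⟨_, rfl⟩
  obtain ⟨L, hL⟩ : ∃ L, L = LLn T g ψ Γ w := ⟨_, rfl⟩
  have hW0 : 0 ≤ W := by rw [hW]; exact WW_nonneg hR hS w
  obtain ⟨e, he⟩ : ∃ e, e = 2 * ε / m := ⟨_, rfl⟩
  obtain ⟨he0, he1⟩ := h.em2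
  rw [← he] at he0 he1
  have hg := hR.g0
  have hφ := phi_pos (hS w)
  have hψ := psi_pos (hS w)
  obtain ⟨hi1, hi2⟩ := h.im
  have h1 := tri_near hφ hψ hg he0 (by linarith) (by rw [he]; exact h.near)
  have h2 := hu_le hS w
  rw [← hW] at h2
  have hu0 := hu_nonneg hφ hg
  have h3 : hu (φ w 0) g ≤ (1 + 2 * e) * W + 4 * e := by
    refine h1.trans ?_
    gcongr
  rw [← hW, ← hL, ← he]
  constructor
  · have hLe : 0 ≤ 9 * ((‖L‖ ^ 2 + ε ^ 2) / g.im ^ 2) := by positivity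
    rcases le_or_gt W (1 / 4) with h4 | h4
    · have h5 : hu (φ w 0) g ≤ 1 := by nlinarith
      have h6 : g.im ≤ 3 * (φ w 0).im := by
        have h7 := hu_im hg hφ
        rw [hu_comm] at h7
        nlinarith
      have h7 : ‖φ w 0 - g‖ ≤ 2 * g.im * W + ‖L‖ + ε := by
        have h8 := bound2 (hS w)
        rw [NN_eq hS w, ← hW] at h8
        have h9 : φ w 0 - g = (φ w 0 - ψ 0 - L) + L + (ψ 0 - g) := by ring
        rw [h9]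
        refine (norm_add_le _ _).trans (add_le_add ((norm_add_le _ _).trans ?_) h.one)
        refine add_le_add ?_ le_rfl
        rw [hL]
        refine h8.trans ?_
        gcongr
      have h8 : ‖φ w 0 - g‖ ^ 2 ≤ 3 * (4 * g.im ^ 2 * W ^ 2 + ‖L‖ ^ 2 + ε ^ 2) := by
        have h9 : ‖φ w 0 - g‖ ^ 2 ≤ (2 * g.im * W + ‖L‖ + ε) ^ 2 := by gcongr
        nlinarith [sq_nonneg (2 * g.im * W - ‖L‖), sq_nonneg (2 * g.im * W - ε),
          sq_nonneg (‖L‖ - ε)]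
      have h9 : hu (φ w 0) g ≤ 3 * ‖φ w 0 - g‖ ^ 2 / g.im ^ 2 := by
        unfold hu
        rw [div_le_div_iff₀ (by positivity) (by positivity)]
        have h10 : 0 ≤ ‖φ w 0 - g‖ ^ 2 := by positivity
        calc ‖φ w 0 - g‖ ^ 2 * g.im ^ 2 = ‖φ w 0 - g‖ ^ 2 * (g.im * g.im) := by ring
          _ ≤ ‖φ w 0 - g‖ ^ 2 * ((3 * (φ w 0).im) * g.im) := by gcongr
          _ = _ := by ring
      refine h9.trans ?_
      rw [div_le_iff₀ (by positivity)]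
      have h10 : (36 * W ^ 2 + 9 * ((‖L‖ ^ 2 + ε ^ 2) / g.im ^ 2)) * g.im ^ 2 =
          36 * W ^ 2 * g.im ^ 2 + 9 * (‖L‖ ^ 2 + ε ^ 2) := by
        field_simp
      rw [h10]
      linarith
    · nlinarith
  · have h4 : hu (φ w 0) g ^ 2 ≤ ((1 + 2 * e) * W + 4 * e) ^ 2 := by gcongr
    have h5 : ((1 + 2 * e) * W + 4 * e) ^ 2 ≤ 2 * ((1 + 2 * e) * W) ^ 2 + 2 * (4 * e) ^ 2 := by
      nlinarith [sq_nonneg ((1 + 2 * e) * W - 4 * e)]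
    have h6 : (1 + 2 * e) ^ 2 ≤ 3 / 2 := by nlinarith
    have h7 : 2 * ((1 + 2 * e) * W) ^ 2 ≤ 3 * W ^ 2 := by
      rw [mul_pow]
      nlinarith [sq_nonneg W]
    nlinarith

/-- pointwise bounds for an arbitrary root sheet -/
theorem pt_bad (hR : RV P Γ g C c) (hS : ∀ w, Shd d V z T (fun x => Γ (w x)) g 0 C c (φ w) ψ)
    (Hb : ℝ) (hHb : hu (ψ 0) g ≤ Hb) (w : (Fin d → ℤ) → Ω) :
    hu (φ w 0) g ^ 2 ≤ (2 + Hb) ^ 2 * (2 * WW T g ψ Γ w ^ 2 + 8) := by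
  have hW0 : 0 ≤ WW T g ψ Γ w := WW_nonneg hR hS w
  have hg := hR.g0
  have hφ := phi_pos (hS w)
  have hψ := psi_pos (hS w)
  have h1 := tri_far hφ hψ hg
  have h2 := hu_le hS w
  have hu0 := hu_nonneg hφ hg
  have hu1 := hu_nonneg hφ hψ
  have hu2 := hu_nonneg hψ hg
  have hHb0 : 0 ≤ 2 + Hb := by linarith
  have h3 : hu (φ w 0) g ≤ (2 + Hb) * (WW T g ψ Γ w + 2) := by
    refine h1.trans ?_
    gcongr
  have h4 : (WW T g ψ Γ w + 2) ^ 2 ≤ 2 * WW T g ψ Γ w ^ 2 + 8 := by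
    nlinarith [sq_nonneg (WW T g ψ Γ w - 2)]
  calc hu (φ w 0) g ^ 2 ≤ ((2 + Hb) * (WW T g ψ Γ w + 2)) ^ 2 := by gcongr
    _ = (2 + Hb) ^ 2 * (WW T g ψ Γ w + 2) ^ 2 := by ring
    _ ≤ _ := by gcongr

end pt

section ints

variable {Γ : Ω → ℂ} {g z : ℂ} {C c : ℝ} {T : (Fin d → ℤ) → ℝ} {V : (Fin d → ℤ) → ℝ}
  {ψ : (Fin d → ℤ) → ℂ} {φ : ((Fin d → ℤ) → Ω) → (Fin d → ℤ) → ℂ} {m ε : ℝ}

theorem WW_int2 (hR : RV P Γ g C c) (hS : ∀ w, Shd d V z T (fun x => Γ (w x)) g 0 C c (φ w) ψ)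
    (w0 : (Fin d → ℤ) → Ω) :
    Integrable (fun w => WW T g ψ Γ w ^ 2) (Measure.infinitePi fun _ : Fin d → ℤ => P) := by
  refine bdd_int_real _ _ ((WW_meas hR hS w0).pow_const 2) (UU g C c ^ 2) fun w => ?_
  rw [abs_of_nonneg (sq_nonneg _)]
  have := WW_nonneg hR hS w
  have := WW_le hR hS w
  gcongr

theorem LL_int2 (hR : RV P Γ g C c) (hT0 : ∀ x, 0 ≤ T x) (hT1 : ∀ x, T x ≤ 1)
    (hψ : Summable fun x => ‖ψ x‖ ^ 2) :
    Integrable (fun w => ‖LLn T g ψ Γ w‖ ^ 2) (Measure.infinitePi fun _ : Fin d → ℤ => P) := by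
  have hb : ∀ ω, ‖Γ ω - g‖ ≤ C + ‖g‖ := fun ω =>
    (norm_sub_le _ _).trans (by have := hR.le ω; linarith)
  refine bdd_int_real _ _ (((LL_meas hR hT0 hT1 hψ).norm).pow_const 2)
    (((∑' x, ‖((T x : ℝ) : ℂ) * ψ x ^ 2‖) * (C + ‖g‖)) ^ 2) fun w => ?_
  rw [abs_of_nonneg (by positivity)]
  have h1 : ‖LLn T g ψ Γ w‖ ≤ (∑' x, ‖((T x : ℝ) : ℂ) * ψ x ^ 2‖) * (C + ‖g‖) := by
    have hs := LL_sum (T := T) hT0 hT1 hψ
    have h2 : ∀ x, ‖((T x : ℝ) : ℂ) * (ψ x ^ 2 * (Γ (w x) - g))‖ ≤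
        ‖((T x : ℝ) : ℂ) * ψ x ^ 2‖ * (C + ‖g‖) := by
      intro x
      rw [← mul_assoc, norm_mul]
      have := hb (w x)
      gcongr
    have h3 : Summable fun x => ‖((T x : ℝ) : ℂ) * (ψ x ^ 2 * (Γ (w x) - g))‖ :=
      Summable.of_nonneg_of_le (fun x => norm_nonneg _) h2 (hs.mul_right _)
    unfold LLn
    refine (norm_tsum_le_tsum_norm h3).trans ?_
    rw [← tsum_mul_right]
    exact h3.tsum_le_tsum h2 (hs.mul_right _)
  gcongr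

/-- the integrated bounds for a good root sheet -/
theorem int_good (hR : RV P Γ g C c) (hS : ∀ w, Shd d V z T (fun x => Γ (w x)) g 0 C c (φ w) ψ)
    (h : Gd T g m ε ψ) (w0 : (Fin d → ℤ) → Ω)
    (m1 : ∫ ω, hu (Γ ω) g ∂P ≤ 1 / 100) (m2 : ∫ ω, hu (Γ ω) g ^ 2 ∂P ≤ 1) :
    ∫ w, hu (φ w 0) g ∂(Measure.infinitePi fun _ : Fin d → ℤ => P) ≤ 6 / 1000 ∧
    ∫ w, hu (φ w 0) g ^ 2 ∂(Measure.infinitePi fun _ : Fin d → ℤ => P) ≤ 1 / 10 := by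
  obtain ⟨hi1, hi2⟩ := h.im
  have hg := hR.g0
  have hψ := psi_pos (hS w0)
  have he0 := h.e0
  have he1 := h.e1
  obtain ⟨he2, he3⟩ := h.em2
  have hz := (hS w0).z0
  have hψs := (hS w0).ψs
  have hT0 := (hS w0).T0
  have hT1 := (hS w0).T1
  have hwt : ∀ x, wt T g ψ x ≤ 2 * ε := by
    intro x
    unfold wt
    rw [div_le_iff₀ hψ]
    have h1 := h.three x
    calc T x * ‖ψ x‖ ^ 2 * g.im ≤ ε * g.im := by gcongr
      _ ≤ _ := by nlinarith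
  have hW := WW_two hR hS w0 (2 * ε) hwt
  have hS0 : ∑' x, T x * ‖ψ x‖ ^ 2 ≤ 2 := by
    have h1 := (TW_sum hS w0).2
    have h4 : (∑' x, T x * ‖ψ x‖ ^ 2) * g.im ≤ 2 * g.im := by linarith
    exact le_of_mul_le_mul_right h4 hg
  have hL := LL_two hR hT0 hT1 hψs ε ε he0 h.two h.three 2 hS0
  have hD := hR.diff2
  have i1 := hR.int1
  have n1 : 0 ≤ ∫ ω, hu (Γ ω) g ∂P := integral_nonneg fun ω => hR.nonneg ω
  have n2 : 0 ≤ ∫ ω, hu (Γ ω) g ^ 2 ∂P := integral_nonneg fun ω => sq_nonneg _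
  obtain ⟨Q, hQ⟩ : ∃ Q, Q = Measure.infinitePi fun _ : Fin d → ℤ => P := ⟨_, rfl⟩
  have hQp : IsProbabilityMeasure Q := by rw [hQ]; infer_instance
  have jW := WW_int2 hR hS w0
  have jL := LL_int2 (T := T) hR hT0 hT1 hψs
  rw [← hQ] at hW hL jW jL ⊢
  have hWb : ∫ w, WW T g ψ Γ w ^ 2 ∂Q ≤ 12 / 100000 := by
    nlinarith
  have hLb : (∫ w, ‖LLn T g ψ Γ w‖ ^ 2 ∂Q) / g.im ^ 2 ≤ 4 / 100000 := by
    rw [div_le_iff₀ (by positivity)]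
    have h1 : (ε ^ 2 + ε * 2) ≤ 3 / 100000 := by nlinarith
    have h2 : ∫ ω, ‖Γ ω - g‖ ^ 2 ∂P ≤ (102 / 100) * g.im ^ 2 := by
      refine hD.trans ?_
      gcongr
      linarith
    have h3 : 0 ≤ ∫ ω, ‖Γ ω - g‖ ^ 2 ∂P := integral_nonneg fun ω => by positivity
    calc _ ≤ (ε ^ 2 + ε * 2) * ∫ ω, ‖Γ ω - g‖ ^ 2 ∂P := hL
      _ ≤ (3 / 100000) * ((102 / 100) * g.im ^ 2) := by gcongr
      _ ≤ _ := by nlinarith [sq_nonneg g.im]
  have hεg : ε ^ 2 / g.im ^ 2 ≤ 1 / 10000 := by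
    rw [div_le_iff₀ (by positivity)]
    have h1 : ε ≤ g.im / 100 := h.em.trans (by linarith [h.gm])
    calc ε ^ 2 ≤ (g.im / 100) ^ 2 := by gcongr
      _ = _ := by ring
  constructor
  · have jL2 : Integrable (fun w => (9 / g.im ^ 2) * ‖LLn T g ψ Γ w‖ ^ 2 +
        9 * (ε ^ 2 / g.im ^ 2)) Q := (jL.const_mul _).add (integrable_const _)
    have jR : Integrable (fun w => 36 * WW T g ψ Γ w ^ 2 +
        ((9 / g.im ^ 2) * ‖LLn T g ψ Γ w‖ ^ 2 + 9 * (ε ^ 2 / g.im ^ 2))) Q :=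
      (jW.const_mul 36).add jL2
    refine (integral_mono_of_nonneg (Eventually.of_forall fun w =>
      hu_nonneg (phi_pos (hS w)) hg) jR (Eventually.of_forall fun w => ?_)).trans ?_
    · refine (pt_good hR hS h w).1.trans (le_of_eq ?_)
      field_simp
    rw [integral_add (jW.const_mul 36) jL2, integral_add (jL.const_mul _) (integrable_const _),
      integral_const_mul, integral_const_mul, integral_const]
    simp only [probReal_univ, smul_eq_mul, one_mul]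
    have e1 : 9 / g.im ^ 2 * ∫ w, ‖LLn T g ψ Γ w‖ ^ 2 ∂Q =
        9 * ((∫ w, ‖LLn T g ψ Γ w‖ ^ 2 ∂Q) / g.im ^ 2) := by ring
    rw [e1]
    linarith
  · have jR : Integrable (fun w => 3 * WW T g ψ Γ w ^ 2 + 32 * (2 * ε / m) ^ 2) Q :=
      (jW.const_mul 3).add (integrable_const _)
    refine (integral_mono_of_nonneg (Eventually.of_forall fun w => sq_nonneg _) jR
      (Eventually.of_forall fun w => (pt_good hR hS h w).2)).trans ?_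
    rw [integral_add (jW.const_mul 3) (integrable_const _), integral_const_mul, integral_const]
    simp only [probReal_univ, smul_eq_mul, one_mul]
    nlinarith

/-- the integrated bounds for an arbitrary root sheet -/
theorem int_bad (hR : RV P Γ g C c) (hS : ∀ w, Shd d V z T (fun x => Γ (w x)) g 0 C c (φ w) ψ)
    (Hb : ℝ) (hHb : hu (ψ 0) g ≤ Hb) (w0 : (Fin d → ℤ) → Ω)
    (m1 : ∫ ω, hu (Γ ω) g ∂P ≤ 1 / 100) (m2 : ∫ ω, hu (Γ ω) g ^ 2 ∂P ≤ 1) :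
    ∫ w, hu (φ w 0) g ^ 2 ∂(Measure.infinitePi fun _ : Fin d → ℤ => P) ≤ 12 * (2 + Hb) ^ 2 := by
  have hg := hR.g0
  have hwt : ∀ x, wt T g ψ x ≤ 1 := by
    intro x
    obtain ⟨k1, k2⟩ := wt_sum hS w0
    exact (k1.le_tsum x fun y _ => wt_nonneg hS w0 y).trans k2
  have hW := WW_two hR hS w0 1 hwt
  have n1 : 0 ≤ ∫ ω, hu (Γ ω) g ∂P := integral_nonneg fun ω => hR.nonneg ω
  obtain ⟨Q, hQ⟩ : ∃ Q, Q = Measure.infinitePi fun _ : Fin d → ℤ => P := ⟨_, rfl⟩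
  have hQp : IsProbabilityMeasure Q := by rw [hQ]; infer_instance
  have jW := WW_int2 hR hS w0
  rw [← hQ] at hW jW ⊢
  have hWb : ∫ w, WW T g ψ Γ w ^ 2 ∂Q ≤ 2 := by nlinarith
  have jR : Integrable (fun w => (2 + Hb) ^ 2 * (2 * WW T g ψ Γ w ^ 2 + 8)) Q :=
    ((jW.const_mul 2).add (integrable_const _)).const_mul _
  refine (integral_mono_of_nonneg (Eventually.of_forall fun w => sq_nonneg _) jR
    (Eventually.of_forall fun w => pt_bad hR hS Hb hHb w)).trans ?_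
  rw [integral_const_mul, integral_add (jW.const_mul 2) (integrable_const _), integral_const_mul,
    integral_const]
  simp only [probReal_univ, smul_eq_mul, one_mul]
  nlinarith [sq_nonneg (2 + Hb)]

end ints

end Pool.Agent.Y662.FP
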